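import Mathlib

/-!
Stationary families of sheets: definition and extension of the identities to test functions of
quadratic and linear growth.
-/

namespace Pool.Agent.Q261.QV

open MeasureTheory Set Filter Topology Metric
open scoped RealInnerProductSpace ENNReal

variable {m n Q : ℕ}

/-- the standard basis -/
noncomputable abbrev eb {m : ℕ} (i : Fin m) : EuclideanSpace ℝ (Fin m) := EuclideanSpace.single i (1:ℝ)

/-- the Hilbert-Schmidt product -/
noncomputable def hs (L M : EuclideanSpace ℝ (Fin m) →L[ℝ] EuclideanSpace ℝ (Fin n)) : ℝ :=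
  ∑ i, ⟪L (eb i), M (eb i)⟫

/-- the trace -/
noncomputable def dv (L : EuclideanSpace ℝ (Fin m) →L[ℝ] EuclideanSpace ℝ (Fin m)) : ℝ :=
  ∑ i, L (eb i) i

/-- stationary family of sheets -/
structure St (Ω : Set (EuclideanSpace ℝ (Fin m))) (u : Fin Q → EuclideanSpace ℝ (Fin m) → EuclideanSpace ℝ (Fin n))
    (A : Fin Q → EuclideanSpace ℝ (Fin m) → EuclideanSpace ℝ (Fin m) →L[ℝ] EuclideanSpace ℝ (Fin n)) :
    Prop where
  mu : ∀ k, Measurable (u k)
  mA : ∀ k, Measurable (A k)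
  en : ∀ K ⊆ Ω, IsCompact K → ∀ k, IntegrableOn (fun x => ‖u k x‖ ^ 2 + ‖A k x‖ ^ 2) K
  chain : ∀ T : EuclideanSpace ℝ (Fin m) × EuclideanSpace ℝ (Fin n) → EuclideanSpace ℝ (Fin m),
    ContDiff ℝ 1 T → HasCompactSupport T → tsupport T ⊆ Ω ×ˢ univ →
      ∫ x, ∑ k, ∑ i, ⟪eb i, fderiv ℝ T (x, u k x) (eb i, A k x (eb i))⟫ = 0
  outer : ∀ T : EuclideanSpace ℝ (Fin m) × EuclideanSpace ℝ (Fin n) → EuclideanSpace ℝ (Fin n),
    ContDiff ℝ 1 T → HasCompactSupport T → tsupport T ⊆ Ω ×ˢ univ →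
      ∫ x, ∑ k, ∑ i, ⟪A k x (eb i), fderiv ℝ T (x, u k x) (eb i, A k x (eb i))⟫ = 0
  inner : ∀ W : EuclideanSpace ℝ (Fin m) → EuclideanSpace ℝ (Fin m), ContDiff ℝ 1 W →
    HasCompactSupport W → tsupport W ⊆ Ω →
      ∫ x, ∑ k, (hs (A k x) (A k x) * dv (fderiv ℝ W x) -
        2 * hs (A k x) (A k x ∘L fderiv ℝ W x)) = 0

/-- cutoff functions -/
lemma cut (n : ℕ) : ∃ (χ : ℕ → EuclideanSpace ℝ (Fin n) → ℝ) (C : ℝ), 0 ≤ C ∧ ∀ N,
    ContDiff ℝ 1 (χ N) ∧ HasCompactSupport (χ N) ∧ (∀ y, |χ N y| ≤ 1) ∧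
    (∀ y, ‖y‖ < N → χ N y = 1 ∧ fderiv ℝ (χ N) y = 0) ∧
    (∀ y, (1 + ‖y‖) * ‖fderiv ℝ (χ N) y‖ ≤ C) := by
  classical
  set f : ContDiffBump (0 : EuclideanSpace ℝ (Fin n)) := ⟨1, 2, one_pos, one_lt_two⟩ with hf
  have hfc : ContDiff ℝ 1 f := f.contDiff
  have hfd : Continuous (fderiv ℝ f) := hfc.continuous_fderiv one_ne_zero
  obtain ⟨C, hC⟩ := hfd.bounded_above_of_compact_support (f.hasCompactSupport.fderiv ℝ)
  have hC0 : 0 ≤ C := (norm_nonneg _).trans (hC 0)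
  have hout : ∀ z, 2 < ‖z‖ → fderiv ℝ f z = 0 := by
    intro z hz
    by_contra hc
    have h1 : z ∈ tsupport f := support_fderiv_subset ℝ (by simpa using hc)
    rw [f.tsupport_eq] at h1
    have h2 : ‖z‖ ≤ 2 := by simpa [hf] using h1
    linarith
  set χ : ℕ → EuclideanSpace ℝ (Fin n) → ℝ := fun N y => f (((N:ℝ) + 1)⁻¹ • y) with hχ
  have hN : ∀ N : ℕ, 0 < (N:ℝ) + 1 := fun N => by positivity
  have hder : ∀ (N : ℕ) (y : EuclideanSpace ℝ (Fin n)), fderiv ℝ (χ N) y =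
      (((N:ℝ) + 1)⁻¹) • fderiv ℝ f (((N:ℝ) + 1)⁻¹ • y) := by
    intro N y
    have h1 : HasFDerivAt (fun y : EuclideanSpace ℝ (Fin n) => ((N:ℝ) + 1)⁻¹ • y)
        (((N:ℝ) + 1)⁻¹ • ContinuousLinearMap.id ℝ _) y :=
      (((N:ℝ) + 1)⁻¹ • ContinuousLinearMap.id ℝ (EuclideanSpace ℝ (Fin n))).hasFDerivAt
    have h2 : HasFDerivAt f (fderiv ℝ f (((N:ℝ) + 1)⁻¹ • y)) (((N:ℝ) + 1)⁻¹ • y) :=
      (hfc.differentiable one_ne_zero _).hasFDerivAt
    have h3 := (h2.comp y h1).fderiv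
    have h4 : χ N = f ∘ (fun y : EuclideanSpace ℝ (Fin n) => ((N:ℝ) + 1)⁻¹ • y) := rfl
    rw [h4, h3]
    ext z
    simp
  refine ⟨χ, 3 * C, by positivity, ?_⟩
  intro N
  refine ⟨?_, ?_, ?_, ?_, ?_⟩
  · exact hfc.comp (((N:ℝ) + 1)⁻¹ • ContinuousLinearMap.id ℝ (EuclideanSpace ℝ (Fin n))).contDiff
  · apply HasCompactSupport.intro (isCompact_closedBall (0 : EuclideanSpace ℝ (Fin n)) (2 * ((N:ℝ) + 1)))
    intro y hy
    have h1 : 2 * ((N:ℝ) + 1) < ‖y‖ := by simpa using hy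
    apply f.zero_of_le_dist
    show 2 ≤ dist (((N:ℝ) + 1)⁻¹ • y) 0
    rw [dist_zero_right, norm_smul, Real.norm_of_nonneg (by positivity), inv_mul_eq_div,
      le_div_iff₀ (hN N)]
    exact h1.le
  · intro y
    show |f _| ≤ 1
    rw [abs_of_nonneg f.nonneg]
    exact f.le_one
  · intro y hy
    have h1 : ‖((N:ℝ) + 1)⁻¹ • y‖ < 1 := by
      rw [norm_smul, Real.norm_of_nonneg (by positivity), inv_mul_eq_div, div_lt_one (hN N)]
      linarith
    constructor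
    · apply f.one_of_mem_closedBall
      simpa using h1.le
    · rw [hder]
      have h2 : (fun z => f z) =ᶠ[𝓝 (((N:ℝ) + 1)⁻¹ • y)] fun _ => 1 := by
        have : ball (0 : EuclideanSpace ℝ (Fin n)) 1 ∈ 𝓝 (((N:ℝ) + 1)⁻¹ • y) :=
          isOpen_ball.mem_nhds (by simpa using h1)
        filter_upwards [this] with z hz
        apply f.one_of_mem_closedBall
        exact ball_subset_closedBall hz
      have h3 : fderiv ℝ f (((N:ℝ) + 1)⁻¹ • y) = 0 := by
        have h5 : fderiv ℝ (fun z => f z) (((N:ℝ) + 1)⁻¹ • y) =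
            fderiv ℝ (fun _ => (1:ℝ)) (((N:ℝ) + 1)⁻¹ • y) := h2.fderiv_eq
        rw [fderiv_const_apply] at h5
        exact h5
      rw [h3, smul_zero]
  · intro y
    rw [hder, norm_smul, Real.norm_of_nonneg (by positivity)]
    by_cases hy : 2 < ‖((N:ℝ) + 1)⁻¹ • y‖
    · rw [hout _ hy, norm_zero, mul_zero, mul_zero]
      positivity
    · have h1 : ‖y‖ ≤ 2 * ((N:ℝ) + 1) := by
        push Not at hy
        rw [norm_smul, Real.norm_of_nonneg (by positivity), inv_mul_eq_div,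
          div_le_iff₀ (hN N)] at hy
        exact hy
      have h2 := hC (((N:ℝ) + 1)⁻¹ • y)
      have h3 : (1 + ‖y‖) * ((N:ℝ) + 1)⁻¹ ≤ 3 := by
        rw [← div_eq_mul_inv, div_le_iff₀ (hN N)]
        have : (0:ℝ) ≤ N := Nat.cast_nonneg _
        linarith
      calc (1 + ‖y‖) * (((N:ℝ) + 1)⁻¹ * ‖fderiv ℝ f (((N:ℝ) + 1)⁻¹ • y)‖)
          = ((1 + ‖y‖) * ((N:ℝ) + 1)⁻¹) * ‖fderiv ℝ f (((N:ℝ) + 1)⁻¹ • y)‖ := by ring
        _ ≤ 3 * C := mul_le_mul h3 h2 (norm_nonneg _) (by norm_num)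

lemma fderiv_off {F : Type*} [NormedAddCommGroup F] [NormedSpace ℝ F]
    {K : Set (EuclideanSpace ℝ (Fin m))} (hK : IsCompact K)
    {Φ : EuclideanSpace ℝ (Fin m) × EuclideanSpace ℝ (Fin n) → F}
    (hsup : ∀ x ∉ K, ∀ y, Φ (x, y) = 0) {x : EuclideanSpace ℝ (Fin m)} (hx : x ∉ K)
    (y : EuclideanSpace ℝ (Fin n)) : fderiv ℝ Φ (x, y) = 0 := by
  have h1 : Φ =ᶠ[𝓝 (x, y)] fun _ => 0 := by
    have : (Kᶜ ×ˢ univ : Set (EuclideanSpace ℝ (Fin m) × EuclideanSpace ℝ (Fin n))) ∈ 𝓝 (x, y) :=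
      (hK.isClosed.isOpen_compl.prod isOpen_univ).mem_nhds ⟨hx, mem_univ _⟩
    filter_upwards [this] with z hz
    exact hsup z.1 hz.1 z.2
  rw [h1.fderiv_eq]
  simp

/-- extension of an identity from test functions of compact support to a test function which is zero
off a compact set in the first variable and for which the integrand is bounded -/
lemma ext {d : ℕ} {Ω : Set (EuclideanSpace ℝ (Fin m))}
    {u : Fin Q → EuclideanSpace ℝ (Fin m) → EuclideanSpace ℝ (Fin n)}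
    {A : Fin Q → EuclideanSpace ℝ (Fin m) → EuclideanSpace ℝ (Fin m) →L[ℝ] EuclideanSpace ℝ (Fin n)}
    (mu : ∀ k, Measurable (u k)) (mA : ∀ k, Measurable (A k))
    {c : Fin Q → Fin m → EuclideanSpace ℝ (Fin m) → EuclideanSpace ℝ (Fin d)}
    (mc : ∀ k i, Measurable (c k i))
    (h : ∀ T : EuclideanSpace ℝ (Fin m) × EuclideanSpace ℝ (Fin n) → EuclideanSpace ℝ (Fin d),
      ContDiff ℝ 1 T → HasCompactSupport T → tsupport T ⊆ Ω ×ˢ univ →
        ∫ x, ∑ k, ∑ i, ⟪c k i x, fderiv ℝ T (x, u k x) (eb i, A k x (eb i))⟫ = 0)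
    {K : Set (EuclideanSpace ℝ (Fin m))} (hK : IsCompact K) (hKΩ : K ⊆ Ω)
    (en : ∀ k, IntegrableOn (fun x => ‖u k x‖ ^ 2 + ‖A k x‖ ^ 2) K)
    {T : EuclideanSpace ℝ (Fin m) × EuclideanSpace ℝ (Fin n) → EuclideanSpace ℝ (Fin d)}
    (hT : ContDiff ℝ 1 T) (hsup : ∀ x ∉ K, ∀ y, T (x, y) = 0) {C : ℝ} (hC : 0 ≤ C)
    (h1 : ∀ x ∈ K, ∀ k i, ‖c k i x‖ * ‖fderiv ℝ T (x, u k x) (eb i, A k x (eb i))‖ ≤
      C * (1 + (‖u k x‖ ^ 2 + ‖A k x‖ ^ 2)))
    (h2 : ∀ x ∈ K, ∀ k i, ‖c k i x‖ * ‖T (x, u k x)‖ * ‖A k x‖ ≤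
      C * (1 + ‖u k x‖) * (1 + (‖u k x‖ ^ 2 + ‖A k x‖ ^ 2))) :
    ∫ x, ∑ k, ∑ i, ⟪c k i x, fderiv ℝ T (x, u k x) (eb i, A k x (eb i))⟫ = 0 := by
  classical
  obtain ⟨χ, D, hD, hχ⟩ := cut n
  set Tn : ℕ → EuclideanSpace ℝ (Fin m) × EuclideanSpace ℝ (Fin n) → EuclideanSpace ℝ (Fin d) :=
    fun N z => χ N z.2 • T z with hTn
  have hTd : ∀ z, HasFDerivAt T (fderiv ℝ T z) z := fun z =>
    (hT.differentiable one_ne_zero z).hasFDerivAt
  have hχd : ∀ N y, HasFDerivAt (χ N) (fderiv ℝ (χ N) y) y := fun N y =>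
    ((hχ N).1.differentiable one_ne_zero y).hasFDerivAt
  have hTnC : ∀ N, ContDiff ℝ 1 (Tn N) := fun N => ((hχ N).1.comp contDiff_snd).smul hT
  have hder : ∀ N x y w' z', fderiv ℝ (Tn N) (x, y) (w', z') =
      χ N y • fderiv ℝ T (x, y) (w', z') + fderiv ℝ (χ N) y z' • T (x, y) := by
    intro N x y w' z'
    have h1 : HasFDerivAt (fun z : EuclideanSpace ℝ (Fin m) × EuclideanSpace ℝ (Fin n) => χ N z.2)
        ((fderiv ℝ (χ N) y).comp (ContinuousLinearMap.snd ℝ _ _)) (x, y) :=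
      (hχd N y).comp (x, y) hasFDerivAt_snd
    have h2 := (h1.smul (hTd (x, y))).fderiv
    rw [show Tn N = fun z => χ N z.2 • T z from rfl]
    have h3 : fderiv ℝ (fun z => χ N z.2 • T z) (x, y) = _ := h2
    rw [h3]
    simp
  have hF : ∀ N, ∫ x, ∑ k, ∑ i, ⟪c k i x, fderiv ℝ (Tn N) (x, u k x) (eb i, A k x (eb i))⟫ = 0 := by
    intro N
    have hs : Function.support (Tn N) ⊆ K ×ˢ tsupport (χ N) := by
      intro z hz
      have hz' : χ N z.2 • T z ≠ 0 := hz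
      refine ⟨?_, ?_⟩
      · by_contra hc
        exact hz' (by rw [show z = (z.1, z.2) from rfl, hsup z.1 hc z.2, smul_zero])
      · apply subset_tsupport
        exact fun h0 => hz' (by rw [h0, zero_smul])
    have hcomp : IsCompact (K ×ˢ tsupport (χ N)) := hK.prod (hχ N).2.1
    have hts : tsupport (Tn N) ⊆ K ×ˢ tsupport (χ N) :=
      closure_minimal hs hcomp.isClosed
    apply h (Tn N) (hTnC N)
    · exact hcomp.of_isClosed_subset (isClosed_tsupport _) hts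
    · exact hts.trans (prod_mono hKΩ (subset_univ _))
  set bd : EuclideanSpace ℝ (Fin m) → ℝ := K.indicator (fun x => ∑ k, ∑ _i : Fin m, (C * (1 + D)) *
    (1 + (‖u k x‖ ^ 2 + ‖A k x‖ ^ 2))) with hbd
  have hbdi : Integrable bd := by
    rw [hbd, integrable_indicator_iff hK.isClosed.measurableSet]
    apply integrable_finsetSum
    intro k _
    apply integrable_finsetSum
    intro i _
    apply Integrable.const_mul
    exact (integrableOn_const (hK.measure_lt_top.ne)).add (en k)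
  have key : ∀ N x, ‖∑ k, ∑ i, ⟪c k i x, fderiv ℝ (Tn N) (x, u k x) (eb i, A k x (eb i))⟫‖ ≤
      bd x := by
    intro N x
    by_cases hx : x ∈ K
    · rw [hbd, indicator_of_mem hx]
      refine (norm_sum_le _ _).trans (Finset.sum_le_sum fun k _ => ?_)
      refine (norm_sum_le _ _).trans (Finset.sum_le_sum fun i _ => ?_)
      rw [hder, inner_add_right, inner_smul_right, inner_smul_right]
      have a1 := h1 x hx k i
      have a2 := h2 x hx k i
      have a3 := (hχ N).2.2.1 (u k x)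
      have a4 := (hχ N).2.2.2.2 (u k x)
      have a5 : |fderiv ℝ (χ N) (u k x) (A k x (eb i))| ≤ ‖fderiv ℝ (χ N) (u k x)‖ * ‖A k x‖ := by
        have h3 := (A k x).le_opNorm (eb i)
        rw [show ‖(eb i : EuclideanSpace ℝ (Fin m))‖ = 1 by simp, mul_one] at h3
        exact ((fderiv ℝ (χ N) (u k x)).le_opNorm _).trans
          (mul_le_mul_of_nonneg_left h3 (norm_nonneg _))
      have a6 := abs_real_inner_le_norm (c k i x) (fderiv ℝ T (x, u k x) (eb i, A k x (eb i)))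
      have a7 := abs_real_inner_le_norm (c k i x) (T (x, u k x))
      set P := 1 + (‖u k x‖ ^ 2 + ‖A k x‖ ^ 2)
      have P0 : 0 ≤ P := by positivity
      have b1 : |χ N (u k x) * ⟪c k i x, fderiv ℝ T (x, u k x) (eb i, A k x (eb i))⟫| ≤ C * P := by
        rw [abs_mul]
        calc |χ N (u k x)| * |⟪c k i x, fderiv ℝ T (x, u k x) (eb i, A k x (eb i))⟫|
            ≤ 1 * |⟪c k i x, fderiv ℝ T (x, u k x) (eb i, A k x (eb i))⟫| :=
              mul_le_mul_of_nonneg_right a3 (abs_nonneg _)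
          _ ≤ C * P := by
              rw [one_mul]
              exact a6.trans a1
      have b2 : |fderiv ℝ (χ N) (u k x) (A k x (eb i)) * ⟪c k i x, T (x, u k x)⟫| ≤ C * D * P := by
        rw [abs_mul]
        calc |fderiv ℝ (χ N) (u k x) (A k x (eb i))| * |⟪c k i x, T (x, u k x)⟫|
            ≤ (‖fderiv ℝ (χ N) (u k x)‖ * ‖A k x‖) * (‖c k i x‖ * ‖T (x, u k x)‖) :=
              mul_le_mul a5 a7 (abs_nonneg _) (by positivity)
          _ = ‖fderiv ℝ (χ N) (u k x)‖ * (‖c k i x‖ * ‖T (x, u k x)‖ * ‖A k x‖) := by ring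
          _ ≤ ‖fderiv ℝ (χ N) (u k x)‖ * (C * (1 + ‖u k x‖) * P) :=
              mul_le_mul_of_nonneg_left a2 (norm_nonneg _)
          _ = C * ((1 + ‖u k x‖) * ‖fderiv ℝ (χ N) (u k x)‖) * P := by ring
          _ ≤ C * D * P := by gcongr
      calc |χ N (u k x) * ⟪c k i x, fderiv ℝ T (x, u k x) (eb i, A k x (eb i))⟫ +
            fderiv ℝ (χ N) (u k x) (A k x (eb i)) * ⟪c k i x, T (x, u k x)⟫|
          ≤ C * P + C * D * P := (abs_add_le _ _).trans (add_le_add b1 b2)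
        _ = (C * (1 + D)) * P := by ring
    · have : ∀ k i, fderiv ℝ (Tn N) (x, u k x) (eb i, A k x (eb i)) = 0 := by
        intro k i
        rw [hder, hsup x hx, fderiv_off hK hsup hx]
        simp
      simp [this, hbd, indicator_of_notMem hx]
  have hlim : ∀ x, Tendsto (fun N => ∑ k, ∑ i,
      ⟪c k i x, fderiv ℝ (Tn N) (x, u k x) (eb i, A k x (eb i))⟫) atTop
      (𝓝 (∑ k, ∑ i, ⟪c k i x, fderiv ℝ T (x, u k x) (eb i, A k x (eb i))⟫)) := by
    intro x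
    apply tendsto_const_nhds.congr'
    obtain ⟨N₀, hN₀⟩ := exists_nat_gt (∑ k, ‖u k x‖)
    filter_upwards [eventually_ge_atTop N₀] with N hN
    apply Finset.sum_congr rfl
    intro k _
    apply Finset.sum_congr rfl
    intro i _
    have h1 : ‖u k x‖ < N := by
      have h2 : ‖u k x‖ ≤ ∑ k, ‖u k x‖ :=
        Finset.single_le_sum (f := fun k => ‖u k x‖) (fun i _ => norm_nonneg _) (Finset.mem_univ k)
      have h3 : (N₀:ℝ) ≤ N := Nat.cast_le.2 hN
      linarith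
    have h4 := (hχ N).2.2.2.1 (u k x) h1
    rw [hder, h4.1, h4.2]
    simp
  have hmeas : ∀ N, AEStronglyMeasurable (fun x => ∑ k, ∑ i,
      ⟪c k i x, fderiv ℝ (Tn N) (x, u k x) (eb i, A k x (eb i))⟫) volume := by
    intro N
    apply Measurable.aestronglyMeasurable
    apply Finset.measurable_sum
    intro k _
    apply Finset.measurable_sum
    intro i _
    have h1 : Continuous (fderiv ℝ (Tn N)) := (hTnC N).continuous_fderiv one_ne_zero
    have h2 : Measurable fun x => fderiv ℝ (Tn N) (x, u k x) :=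
      h1.measurable.comp (measurable_id.prodMk (mu k))
    have h3 : Measurable fun x => A k x (eb i) :=
      (ContinuousLinearMap.apply ℝ (EuclideanSpace ℝ (Fin n)) (eb i)).continuous.measurable.comp
        (mA k)
    have h4 : Measurable fun x => ((eb i, A k x (eb i)) :
        EuclideanSpace ℝ (Fin m) × EuclideanSpace ℝ (Fin n)) := measurable_const.prodMk h3
    have h5 : Measurable fun x => fderiv ℝ (Tn N) (x, u k x) (eb i, A k x (eb i)) :=
      isBoundedBilinearMap_apply.continuous.measurable.comp (h2.prodMk h4)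
    exact (mc k i).inner h5
  have hlimit := tendsto_integral_of_dominated_convergence bd hmeas hbdi
    (fun N => ae_of_all _ (key N)) (ae_of_all _ hlim)
  simp only [hF] at hlimit
  exact tendsto_nhds_unique hlimit tendsto_const_nhds

end Pool.Agent.Q261.QV
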