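import Mathlib

/-!
The differential inequalities of the frequency function: if `r J' = m J + r² D / 3`,
`r D' = (m - 2) D + 12 G / r²` and `(r² D / 6)² ≤ J G`, then `r² D / J` is nondecreasing and `J` does
not vanish to infinite order.
-/

namespace Pool.Agent.Q261.QV

open Set Filter Topology

/-- the data of the frequency function on `(0, R]` -/
structure Freq (m : ℕ) (R : ℝ) (J D J' D' G : ℝ → ℝ) : Prop where
  dJ : ∀ r, 0 < r → HasDerivAt J (J' r) r
  dD : ∀ r, 0 < r → HasDerivAt D (D' r) r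
  J0 : ∀ r, 0 < r → r ≤ R → 0 ≤ J r
  D0 : ∀ r, 0 < r → r ≤ R → 0 ≤ D r
  e1 : ∀ r, 0 < r → r ≤ R → r * J' r = m * J r + r ^ 2 / 3 * D r
  e2 : ∀ r, 0 < r → r ≤ R → r * D' r = ((m:ℝ) - 2) * D r + 12 / r ^ 2 * G r
  cs : ∀ r, 0 < r → r ≤ R → (r ^ 2 / 6 * D r) ^ 2 ≤ J r * G r

variable {m : ℕ} {R : ℝ} {J D J' D' G : ℝ → ℝ}

/-- `J r / r ^ m` is nondecreasing -/
lemma Freq.mono (h : Freq m R J D J' D' G) {r s : ℝ} (hr : 0 < r) (hrs : r ≤ s) (hs : s ≤ R) :
    J r / r ^ m ≤ J s / s ^ m := by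
  have hder : ∀ x, 0 < x → HasDerivAt (fun x => J x / x ^ m)
      ((J' x * x ^ m - J x * ((m:ℝ) * x ^ (m - 1))) / (x ^ m) ^ 2) x := by
    intro x hx
    exact (h.dJ x hx).div (hasDerivAt_pow m x) (by positivity)
  have hmono : MonotoneOn (fun x => J x / x ^ m) (Icc r s) := by
    apply monotoneOn_of_deriv_nonneg (convex_Icc r s)
    · intro x hx
      exact (hder x (hr.trans_le hx.1)).continuousAt.continuousWithinAt
    · intro x hx
      rw [interior_Icc] at hx
      exact (hder x (hr.trans hx.1)).differentiableAt.differentiableWithinAt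
    · intro x hx
      rw [interior_Icc] at hx
      have hx0 : 0 < x := hr.trans hx.1
      rw [(hder x hx0).deriv]
      apply div_nonneg _ (by positivity)
      have h1 := h.e1 x hx0 (hx.2.le.trans hs)
      have h2 := h.D0 x hx0 (hx.2.le.trans hs)
      have h3 : 0 ≤ x ^ 2 / 3 * D x := by positivity
      have h4 : x * (J' x * x ^ m - J x * ((m:ℝ) * x ^ (m - 1))) = x ^ m * (x ^ 2 / 3 * D x) := by
        rcases Nat.eq_zero_or_pos m with h0 | h0
        · subst h0
          simp only [Nat.cast_zero, zero_mul] at h1 ⊢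
          simp only [pow_zero, mul_one, mul_zero, sub_zero, one_mul]
          linarith
        · have h5 : x ^ m = x * x ^ (m - 1) := by
            rw [← pow_succ', Nat.sub_add_cancel h0]
          calc x * (J' x * x ^ m - J x * ((m:ℝ) * x ^ (m - 1)))
              = x ^ m * (x * J' x) - m * J x * (x * x ^ (m - 1)) := by ring
            _ = x ^ m * (x ^ 2 / 3 * D x) := by
              rw [← h5, h1]
              ring
      have h6 : 0 ≤ x * (J' x * x ^ m - J x * ((m:ℝ) * x ^ (m - 1))) := by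
        rw [h4]
        positivity
      exact nonneg_of_mul_nonneg_right (by linarith) hx0
  exact hmono ⟨le_rfl, hrs⟩ ⟨hrs, le_rfl⟩ hrs

lemma Freq.monoJ (h : Freq m R J D J' D' G) {r s : ℝ} (hr : 0 < r) (hrs : r ≤ s) (hs : s ≤ R) :
    J r ≤ J s := by
  have h1 := h.mono hr hrs hs
  have hs0 : 0 < s := hr.trans_le hrs
  rw [div_le_div_iff₀ (by positivity) (by positivity)] at h1
  have h2 : r ^ m ≤ s ^ m := pow_le_pow_left₀ hr.le hrs m
  have h3 := h.J0 s hs0 hs
  have h4 : J r * s ^ m ≤ J s * s ^ m := h1.trans (mul_le_mul_of_nonneg_left h2 h3)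
  exact le_of_mul_le_mul_right h4 (by positivity)

/-- the frequency is nondecreasing where `J` is positive -/
lemma Freq.freq (h : Freq m R J D J' D' G) {r s : ℝ} (hr : 0 < r) (hrs : r ≤ s) (hs : s ≤ R)
    (hpos : ∀ x ∈ Icc r s, 0 < J x) :
    r ^ 2 * D r / J r ≤ s ^ 2 * D s / J s := by
  have hder : ∀ x, 0 < x → 0 < J x → HasDerivAt (fun x => x ^ 2 * D x / J x)
      (((((2:ℕ):ℝ) * x ^ (2 - 1) * D x + x ^ 2 * D' x) * J x - (x ^ 2 * D x) * J' x) / (J x) ^ 2) x := by
    intro x hx hJ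
    exact (((hasDerivAt_pow 2 x).mul (h.dD x hx)).div (h.dJ x hx) hJ.ne')
  have hmono : MonotoneOn (fun x => x ^ 2 * D x / J x) (Icc r s) := by
    apply monotoneOn_of_deriv_nonneg (convex_Icc r s)
    · intro x hx
      exact (hder x (hr.trans_le hx.1) (hpos x hx)).continuousAt.continuousWithinAt
    · intro x hx
      rw [interior_Icc] at hx
      exact (hder x (hr.trans hx.1)
        (hpos x ⟨hx.1.le, hx.2.le⟩)).differentiableAt.differentiableWithinAt
    · intro x hx
      rw [interior_Icc] at hx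
      have hx0 : 0 < x := hr.trans hx.1
      rw [(hder x hx0 (hpos x ⟨hx.1.le, hx.2.le⟩)).deriv]
      apply div_nonneg _ (by positivity)
      have hxR := hx.2.le.trans hs
      have h1 := h.e1 x hx0 hxR
      have h2 := h.e2 x hx0 hxR
      have h3 := h.cs x hx0 hxR
      have h4 : (((2:ℕ):ℝ) * x ^ (2 - 1) * D x + x ^ 2 * D' x) * J x - (x ^ 2 * D x) * J' x =
          x * (2 * D x * J x + (x * D' x) * J x - D x * (x * J' x)) := by
        norm_num
        ring
      rw [h4, h1, h2]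
      apply mul_nonneg hx0.le
      have h5 : 2 * D x * J x + (((m:ℝ) - 2) * D x + 12 / x ^ 2 * G x) * J x -
          D x * (m * J x + x ^ 2 / 3 * D x) = 12 / x ^ 2 * (J x * G x - (x ^ 2 / 6 * D x) ^ 2) := by
        field_simp
        ring
      rw [h5]
      apply mul_nonneg (by positivity)
      linarith
  exact hmono ⟨le_rfl, hrs⟩ ⟨hrs, le_rfl⟩ hrs

/-- growth on an interval where `J` is positive -/
lemma Freq.growth (h : Freq m R J D J' D' G) {r s : ℝ} (hr : 0 < r) (hrs : r ≤ s) (hs : s ≤ R)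
    (hpos : ∀ x ∈ Icc r s, 0 < J x) {K : ℕ} (hK : (m:ℝ) + s ^ 2 * D s / J s / 3 ≤ K) :
    J s / s ^ K ≤ J r / r ^ K := by
  have hder : ∀ x, 0 < x → HasDerivAt (fun x => J x / x ^ K)
      ((J' x * x ^ K - J x * ((K:ℝ) * x ^ (K - 1))) / (x ^ K) ^ 2) x := by
    intro x hx
    exact (h.dJ x hx).div (hasDerivAt_pow K x) (by positivity)
  have hmono : AntitoneOn (fun x => J x / x ^ K) (Icc r s) := by
    apply antitoneOn_of_deriv_nonpos (convex_Icc r s)
    · intro x hx
      exact (hder x (hr.trans_le hx.1)).continuousAt.continuousWithinAt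
    · intro x hx
      rw [interior_Icc] at hx
      exact (hder x (hr.trans hx.1)).differentiableAt.differentiableWithinAt
    · intro x hx
      rw [interior_Icc] at hx
      have hx0 : 0 < x := hr.trans hx.1
      have hxR := hx.2.le.trans hs
      have hJx : 0 < J x := hpos x ⟨hx.1.le, hx.2.le⟩
      rw [(hder x hx0).deriv]
      apply div_nonpos_of_nonpos_of_nonneg _ (by positivity)
      have h1 := h.e1 x hx0 hxR
      have h2 := h.freq hx0 hx.2.le hs (fun y hy => hpos y ⟨hx.1.le.trans hy.1, hy.2⟩)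
      have h3 : x * J' x - K * J x ≤ 0 := by
        rw [h1]
        have h4 : x ^ 2 / 3 * D x = (x ^ 2 * D x / J x / 3) * J x := by
          field_simp
        rw [h4]
        have h5 : (m:ℝ) + x ^ 2 * D x / J x / 3 ≤ K := by linarith
        nlinarith
      have h4 : x * (J' x * x ^ K - J x * ((K:ℝ) * x ^ (K - 1))) =
          x ^ K * (x * J' x - K * J x) := by
        rcases Nat.eq_zero_or_pos K with h0 | h0
        · subst h0
          simp only [Nat.cast_zero, zero_mul, pow_zero, mul_one, mul_zero, sub_zero, one_mul]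
        · have h5 : x ^ K = x * x ^ (K - 1) := by
            rw [← pow_succ', Nat.sub_add_cancel h0]
          calc x * (J' x * x ^ K - J x * ((K:ℝ) * x ^ (K - 1)))
              = x ^ K * (x * J' x) - K * J x * (x * x ^ (K - 1)) := by ring
            _ = x ^ K * (x * J' x - K * J x) := by
              rw [← h5]
              ring
      have h6 : x * (J' x * x ^ K - J x * ((K:ℝ) * x ^ (K - 1))) ≤ 0 := by
        rw [h4]
        exact mul_nonpos_of_nonneg_of_nonpos (by positivity) h3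
      by_contra hc
      push Not at hc
      nlinarith
  exact hmono ⟨le_rfl, hrs⟩ ⟨hrs, le_rfl⟩ hrs

/-- `J` is positive on `(0, s]` if it is positive at `s` -/
lemma Freq.pos (h : Freq m R J D J' D' G) {s : ℝ} (hs0 : 0 < s) (hs : s ≤ R) (hJs : 0 < J s) :
    ∀ r, 0 < r → r ≤ s → 0 < J r := by
  by_contra hcon
  push Not at hcon
  obtain ⟨r, hr, hrs, hJr⟩ := hcon
  have hJr0 : J r = 0 := le_antisymm hJr (h.J0 r hr (hrs.trans hs))
  obtain ⟨K, hK⟩ := exists_nat_ge ((m:ℝ) + s ^ 2 * D s / J s / 3)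
  -- the last zero
  set Z : Set ℝ := {x | x ∈ Icc r s ∧ J x = 0} with hZ
  have hne : Z.Nonempty := ⟨r, ⟨le_rfl, hrs⟩, hJr0⟩
  have hbdd : BddAbove Z := ⟨s, fun x hx => hx.1.2⟩
  set z := sSup Z with hz
  have hcont : ContinuousOn J (Icc r s) := fun x hx =>
    (h.dJ x (hr.trans_le hx.1)).continuousAt.continuousWithinAt
  have hclosed : IsClosed Z := by
    have : Z = Icc r s ∩ J ⁻¹' {0} := by
      ext x
      simp [hZ]
    rw [this]
    exact hcont.preimage_isClosed_of_isClosed isClosed_Icc isClosed_singleton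
  have hzZ : z ∈ Z := hclosed.csSup_mem hne hbdd
  have hz0 : 0 < z := hr.trans_le hzZ.1.1
  have hzs : z < s := by
    refine lt_of_le_of_ne hzZ.1.2 ?_
    intro he
    have := hzZ.2
    rw [he] at this
    exact hJs.ne' this
  have hpos : ∀ x, z < x → x ≤ s → 0 < J x := by
    intro x hx hxs
    refine lt_of_le_of_ne (h.J0 x (hz0.trans hx) (hxs.trans hs)) ?_
    intro he
    have : x ∈ Z := ⟨⟨hzZ.1.1.trans hx.le, hxs⟩, he.symm⟩
    exact absurd (le_csSup hbdd this) (not_le.2 hx)
  have hlow : ∀ x, z < x → x ≤ s → J s / s ^ K * z ^ K ≤ J x := by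
    intro x hx hxs
    have hx0 := hz0.trans hx
    have h1 := h.growth hx0 hxs hs (fun y hy => hpos y (hx.trans_le hy.1) hy.2) hK
    rw [le_div_iff₀ (by positivity)] at h1
    have h2 : z ^ K ≤ x ^ K := pow_le_pow_left₀ hz0.le hx.le K
    have h3 : 0 ≤ J s / s ^ K := by positivity
    exact (mul_le_mul_of_nonneg_left h2 h3).trans h1
  have hlim : Tendsto J (𝓝[>] z) (𝓝 (J z)) :=
    ((h.dJ z hz0).continuousAt.tendsto).mono_left nhdsWithin_le_nhds
  have hge : J s / s ^ K * z ^ K ≤ J z := by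
    refine ge_of_tendsto hlim ?_
    filter_upwards [Ioc_mem_nhdsGT hzs] with x hx
    exact hlow x hx.1 hx.2
  have : 0 < J s / s ^ K * z ^ K := by positivity
  rw [hzZ.2] at hge
  linarith

/-- doubling -/
lemma Freq.doubling (h : Freq m R J D J' D' G) {s : ℝ} (hs0 : 0 < s) (hs : s ≤ R)
    (hJs : 0 < J s) : ∃ C : ℝ, 0 < C ∧ ∀ r, 0 < r → 4 * r ≤ s → J (4 * r) ≤ C * J r := by
  obtain ⟨K, hK⟩ := exists_nat_ge ((m:ℝ) + s ^ 2 * D s / J s / 3)
  refine ⟨4 ^ K, by positivity, ?_⟩
  intro r hr hrs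
  have hpos := h.pos hs0 hs hJs
  have h4r : 0 < 4 * r := by linarith
  have h1 : (m:ℝ) + (4 * r) ^ 2 * D (4 * r) / J (4 * r) / 3 ≤ K := by
    have := h.freq h4r hrs hs (fun x hx => hpos x (h4r.trans_le hx.1) hx.2)
    linarith
  have h2 := h.growth hr (by linarith : r ≤ 4 * r) (hrs.trans hs)
    (fun x hx => hpos x (hr.trans_le hx.1) (hx.2.trans hrs)) h1
  rw [div_le_div_iff₀ (by positivity) (by positivity)] at h2
  have h3 : J (4 * r) * r ^ K ≤ (4 ^ K * J r) * r ^ K := by
    calc J (4 * r) * r ^ K ≤ J r * (4 * r) ^ K := h2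
      _ = (4 ^ K * J r) * r ^ K := by
        rw [mul_pow]
        ring
  exact le_of_mul_le_mul_right h3 (by positivity)

end Pool.Agent.Q261.QV
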