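import Mathlib
import Pool.Agent.TH337.VF.Mono2
import Pool.Agent.Q261.QV.Ode

/-!
The frequency function for a pair of densities `g` (square of the function) and `b` (square of the
derivative) which satisfy the radial identities of stationary harmonic functions.
-/

namespace Pool.Agent.Q261.QV

open MeasureTheory Set Filter Topology Metric
open Pool.Agent.TH337.VF (E Wt I hasDerivAt_I integrable_wt hasDerivAt_possq)
open scoped RealInnerProductSpace ENNReal

variable {m : ℕ}

/-- the profile -/
noncomputable def p (s : ℝ) : ℝ := max 0 (1 - s)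

lemma p_nonneg (s : ℝ) : 0 ≤ p s := le_max_left _ _

lemma p_le_one {s : ℝ} (hs : 0 ≤ s) : p s ≤ 1 := max_le zero_le_one (by linarith)

lemma p_zero {s : ℝ} (hs : 1 ≤ s) : p s = 0 := max_eq_left (by linarith)

lemma p_pos {s : ℝ} (hs : s < 1) : 0 < p s := lt_max_of_lt_right (by linarith)

lemma p_quarter {s : ℝ} (hs : s ≤ 1 / 4) : 3 / 4 ≤ p s := le_max_of_le_right (by linarith)

lemma p_cont : Continuous p := by
  unfold p
  fun_prop

lemma hasDerivAt_p2 (s : ℝ) : HasDerivAt (fun s => p s ^ 2) (-2 * p s) s := by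
  have h1 : HasDerivAt (fun s : ℝ => 1 - s) (-1) s := by
    simpa using (hasDerivAt_id s).const_sub 1
  have h2 := (hasDerivAt_possq (1 - s)).comp s h1
  have e : -2 * p s = 2 * max 0 (1 - s) * -1 := by
    unfold p
    ring
  rw [e]
  exact h2

lemma hasDerivAt_p3 (s : ℝ) : HasDerivAt (fun s => p s ^ 3) (-3 * p s ^ 2) s := by
  have h1 : HasDerivAt (fun s : ℝ => 1 - s) (-1) s := by
    simpa using (hasDerivAt_id s).const_sub 1
  have h2 := (hasDerivAt_p2 s).mul h1
  have e0 : ∀ s : ℝ, p s * (1 - s) = p s ^ 2 := by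
    intro s
    unfold p
    rcases le_total 0 (1 - s) with h | h
    · rw [max_eq_right h]
      ring
    · rw [max_eq_left h]
      ring
  have e : (fun s => p s ^ 3) = (fun s => p s ^ 2) * (fun s : ℝ => 1 - s) := by
    funext s
    show p s ^ 3 = p s ^ 2 * (1 - s)
    rw [pow_succ, ← e0 s]
    have := e0 s
    calc p s * (1 - s) * p s = (p s * p s) * (1 - s) := by ring
      _ = p s * (1 - s) * (1 - s) := by rw [← pow_two, ← e0 s]
  rw [e]
  have e2 : -3 * p s ^ 2 = -2 * p s * (1 - s) + p s ^ 2 * -1 := by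
    have := e0 s
    linear_combination (2:ℝ) * this
  rw [e2]
  exact h2

lemma wt2 : Wt (fun s => p s ^ 2) (fun s => -2 * p s) where
  der := hasDerivAt_p2
  cont := continuous_const.mul p_cont
  nonpos := fun u _ => by
    have := p_nonneg u
    show -2 * p u ≤ 0
    linarith
  zero := fun u hu => by
    show p u ^ 2 = 0
    rw [p_zero hu]
    norm_num
  zero' := fun u hu => by
    show -2 * p u = 0
    rw [p_zero hu]
    norm_num

lemma wt3 : Wt (fun s => p s ^ 3) (fun s => -3 * p s ^ 2) where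
  der := hasDerivAt_p3
  cont := continuous_const.mul (p_cont.pow 2)
  nonpos := fun u _ => by
    have := sq_nonneg (p u)
    show -3 * p u ^ 2 ≤ 0
    linarith
  zero := fun u hu => by
    show p u ^ 3 = 0
    rw [p_zero hu]
    norm_num
  zero' := fun u hu => by
    show -3 * p u ^ 2 = 0
    rw [p_zero hu]
    norm_num

/-- `|x - a|² / r²` -/
noncomputable def sc (a : E m) (r : ℝ) (x : E m) : ℝ := ‖x - a‖ ^ 2 / r ^ 2

lemma sc_cont (a : E m) (r : ℝ) : Continuous (sc a r) := by
  unfold sc
  fun_prop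

lemma sc_nonneg (a : E m) (r : ℝ) (x : E m) : 0 ≤ sc a r x := by
  unfold sc
  positivity

/-- The radial identities. -/
structure Rad (Ω : Set (E m)) (g b : E m → ℝ) (t γ : E m → E m → ℝ) : Prop where
  g0 : ∀ x, 0 ≤ g x
  b0 : ∀ x, 0 ≤ b x
  γ0 : ∀ a x, 0 ≤ γ a x
  cs : ∀ a x, t a x ^ 2 ≤ g x * γ a x
  gi : ∀ K ⊆ Ω, IsCompact K → IntegrableOn g K
  bi : ∀ K ⊆ Ω, IsCompact K → IntegrableOn b K
  γi : ∀ a, ∀ K ⊆ Ω, IsCompact K → IntegrableOn (γ a) K
  ti : ∀ a, ∀ K ⊆ Ω, IsCompact K → IntegrableOn (t a) K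
  R1 : ∀ a r R, 0 < r → r ≤ R → closedBall a R ⊆ Ω → ∫ x in closedBall a R,
    ((m * p (sc a r x) ^ 2 - 4 * sc a r x * p (sc a r x)) * g x +
      2 * (p (sc a r x) ^ 2 * t a x)) = 0
  R2 : ∀ a r R, 0 < r → r ≤ R → closedBall a R ⊆ Ω →
    r ^ 2 * ∫ x in closedBall a R, p (sc a r x) ^ 3 * b x =
      6 * ∫ x in closedBall a R, p (sc a r x) ^ 2 * t a x
  R3 : ∀ a r R, 0 < r → r ≤ R → closedBall a R ⊆ Ω → ∫ x in closedBall a R,
    ((((m:ℝ) - 2) * p (sc a r x) ^ 3 - 6 * sc a r x * p (sc a r x) ^ 2) * b x +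
      12 / r ^ 2 * (p (sc a r x) ^ 2 * γ a x)) = 0

/-- the measure with density `g` on a closed ball -/
noncomputable def den (g : E m → ℝ) (a : E m) (R : ℝ) : Measure (E m) :=
  (volume.restrict (closedBall a R)).withDensity (fun x => ENNReal.ofReal (g x))

lemma den_finite {g : E m → ℝ} {a : E m} {R : ℝ} (hg : IntegrableOn g (closedBall a R)) :
    IsFiniteMeasure (den g a R) :=
  isFiniteMeasure_withDensity_ofReal hg.2

lemma den_integral {g : E m → ℝ} {a : E m} {R : ℝ} (hg : IntegrableOn g (closedBall a R))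
    (g0 : ∀ x, 0 ≤ g x) (F : E m → ℝ) :
    ∫ x, F x ∂(den g a R) = ∫ x in closedBall a R, F x * g x := by
  unfold den
  rw [integral_withDensity_eq_integral_toReal_smul₀]
  · apply integral_congr_ae
    filter_upwards with x
    rw [ENNReal.toReal_ofReal (g0 x), smul_eq_mul, mul_comm]
  · exact hg.1.aemeasurable.ennreal_ofReal
  · filter_upwards with x
    exact ENNReal.ofReal_lt_top

lemma wint {a : E m} {R : ℝ} {w f : E m → ℝ} (hw : Continuous w)
    (hf : IntegrableOn f (closedBall a R)) :
    IntegrableOn (fun x => w x * f x) (closedBall a R) :=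
  hf.continuousOn_mul hw.continuousOn (isCompact_closedBall a R)

lemma wp (a : E m) (r : ℝ) : Continuous fun x => p (sc a r x) := p_cont.comp (sc_cont a r)

section
variable {Ω : Set (E m)} {g b : E m → ℝ} {t γ : E m → E m → ℝ}

/-- Cauchy-Schwarz -/
lemma Rad.cauchy (h : Rad Ω g b t γ) {a : E m} {r R : ℝ} (hR : closedBall a R ⊆ Ω) :
    (∫ x in closedBall a R, p (sc a r x) ^ 2 * t a x) ^ 2 ≤
      (∫ x in closedBall a R, p (sc a r x) ^ 2 * g x) *
        ∫ x in closedBall a R, p (sc a r x) ^ 2 * γ a x := by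
  have hK := isCompact_closedBall a R
  have w2 : Continuous fun x => p (sc a r x) ^ 2 := (wp a r).pow 2
  have i1 := wint w2 (h.gi _ hR hK)
  have i2 := wint w2 (h.ti a _ hR hK)
  have i3 := wint w2 (h.γi a _ hR hK)
  set T := ∫ x in closedBall a R, p (sc a r x) ^ 2 * t a x
  set A := ∫ x in closedBall a R, p (sc a r x) ^ 2 * g x
  set B := ∫ x in closedBall a R, p (sc a r x) ^ 2 * γ a x
  have key : ∀ l : ℝ, 0 ≤ A * (l * l) + 2 * T * l + B := by
    intro l
    have e : A * (l * l) + 2 * T * l + B = ∫ x in closedBall a R,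
        ((l * l) * (p (sc a r x) ^ 2 * g x) + (2 * l) * (p (sc a r x) ^ 2 * t a x) +
          p (sc a r x) ^ 2 * γ a x) := by
      rw [integral_add, integral_add, integral_const_mul, integral_const_mul]
      · ring
      · exact i1.const_mul _
      · exact i2.const_mul _
      · exact (i1.const_mul _).add (i2.const_mul _)
      · exact i3
    rw [e]
    apply integral_nonneg
    intro x
    show 0 ≤ (l * l) * (p (sc a r x) ^ 2 * g x) + (2 * l) * (p (sc a r x) ^ 2 * t a x) +
          p (sc a r x) ^ 2 * γ a x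
    have h1 : 0 ≤ g x * (l * l) + 2 * t a x * l + γ a x := by
      rcases eq_or_lt_of_le (h.g0 x) with h0 | h0
      · have h2 := h.cs a x
        rw [← h0, zero_mul] at h2
        have h3 : t a x = 0 := by
          have := sq_nonneg (t a x)
          exact pow_eq_zero_iff (two_ne_zero) |>.1 (le_antisymm h2 this)
        rw [← h0, h3]
        simpa using h.γ0 a x
      · have h2 := h.cs a x
        have h3 : g x * (g x * (l * l) + 2 * t a x * l + γ a x) =
            (g x * l + t a x) ^ 2 + (g x * γ a x - t a x ^ 2) := by ring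
        have h4 : 0 ≤ g x * (g x * (l * l) + 2 * t a x * l + γ a x) := by
          rw [h3]
          have := sq_nonneg (g x * l + t a x)
          linarith
        exact nonneg_of_mul_nonneg_right (by linarith) h0
    have h2 : (l * l) * (p (sc a r x) ^ 2 * g x) + (2 * l) * (p (sc a r x) ^ 2 * t a x) +
          p (sc a r x) ^ 2 * γ a x = p (sc a r x) ^ 2 * (g x * (l * l) + 2 * t a x * l + γ a x) := by
      ring
    rw [h2]
    positivity
  have hd := discrim_le_zero key
  unfold discrim at hd
  nlinarith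

/-- the frequency data -/
lemma Rad.freq (h : Rad Ω g b t γ) {a : E m} {R : ℝ} (hR : closedBall a R ⊆ Ω) :
    Freq m R (I (fun s => p s ^ 2) (den g a R) a) (I (fun s => p s ^ 3) (den b a R) a)
      (fun r => ∫ y, (-2 * p (‖y - a‖ ^ 2 / r ^ 2)) * (-2 * ‖y - a‖ ^ 2 / r ^ 3) ∂(den g a R))
      (fun r => ∫ y, (-3 * p (‖y - a‖ ^ 2 / r ^ 2) ^ 2) * (-2 * ‖y - a‖ ^ 2 / r ^ 3) ∂(den b a R))
      (fun r => ∫ x in closedBall a R, p (sc a r x) ^ 2 * γ a x) := by
  have hK := isCompact_closedBall a R
  have hg := h.gi _ hR hK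
  have hb := h.bi _ hR hK
  have hγ := h.γi a _ hR hK
  have ht := h.ti a _ hR hK
  have := den_finite hg
  have := den_finite hb
  have eJ : ∀ r, I (fun s => p s ^ 2) (den g a R) a r =
      ∫ x in closedBall a R, p (sc a r x) ^ 2 * g x := by
    intro r
    unfold I
    rw [den_integral hg h.g0]
    rfl
  have eD : ∀ r, I (fun s => p s ^ 3) (den b a R) a r =
      ∫ x in closedBall a R, p (sc a r x) ^ 3 * b x := by
    intro r
    unfold I
    rw [den_integral hb h.b0]
    rfl
  have w1 : ∀ r, Continuous fun x => p (sc a r x) := wp a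
  have i1 : ∀ r, IntegrableOn (fun x => p (sc a r x) ^ 2 * g x) (closedBall a R) :=
    fun r => wint ((w1 r).pow 2) hg
  have i2 : ∀ r, IntegrableOn (fun x => p (sc a r x) ^ 2 * t a x) (closedBall a R) :=
    fun r => wint ((w1 r).pow 2) ht
  have i3 : ∀ r, IntegrableOn (fun x => (4 * sc a r x * p (sc a r x)) * g x) (closedBall a R) :=
    fun r => wint ((continuous_const.mul (sc_cont a r)).mul (w1 r)) hg
  have i4 : ∀ r, IntegrableOn (fun x => p (sc a r x) ^ 3 * b x) (closedBall a R) :=
    fun r => wint ((w1 r).pow 3) hb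
  have i5 : ∀ r, IntegrableOn (fun x => (6 * sc a r x * p (sc a r x) ^ 2) * b x)
      (closedBall a R) :=
    fun r => wint ((continuous_const.mul (sc_cont a r)).mul ((w1 r).pow 2)) hb
  have i6 : ∀ r, IntegrableOn (fun x => p (sc a r x) ^ 2 * γ a x) (closedBall a R) :=
    fun r => wint ((w1 r).pow 2) hγ
  refine ⟨fun r hr => (hasDerivAt_I wt2 (den g a R) a hr).2,
    fun r hr => (hasDerivAt_I wt3 (den b a R) a hr).2, ?_, ?_, ?_, ?_, ?_⟩
  · intro r _ _
    rw [eJ]
    apply integral_nonneg
    intro x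
    have := h.g0 x
    show 0 ≤ p (sc a r x) ^ 2 * g x
    positivity
  · intro r _ _
    rw [eD]
    apply integral_nonneg
    intro x
    have := h.b0 x
    have := p_nonneg (sc a r x)
    show 0 ≤ p (sc a r x) ^ 3 * b x
    positivity
  · intro r hr hrR
    have h1 := h.R1 a r R hr hrR hR
    have h2 := h.R2 a r R hr hrR hR
    rw [eJ, eD]
    have e1 : ∫ x in closedBall a R,
        ((m * p (sc a r x) ^ 2 - 4 * sc a r x * p (sc a r x)) * g x +
          2 * (p (sc a r x) ^ 2 * t a x)) =
        m * (∫ x in closedBall a R, p (sc a r x) ^ 2 * g x) -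
          (∫ x in closedBall a R, (4 * sc a r x * p (sc a r x)) * g x) +
          2 * ∫ x in closedBall a R, p (sc a r x) ^ 2 * t a x := by
      have i13 : IntegrableOn (fun x => (m:ℝ) * (p (sc a r x) ^ 2 * g x) -
          (4 * sc a r x * p (sc a r x)) * g x) (closedBall a R) := ((i1 r).const_mul _).sub (i3 r)
      rw [← integral_const_mul, ← integral_const_mul, ← integral_sub ((i1 r).const_mul _) (i3 r),
        ← integral_add i13 ((i2 r).const_mul _)]
      apply integral_congr_ae
      filter_upwards with x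
      ring
    have e2 : r * (∫ y, (-2 * p (‖y - a‖ ^ 2 / r ^ 2)) * (-2 * ‖y - a‖ ^ 2 / r ^ 3)
        ∂(den g a R)) = ∫ x in closedBall a R, (4 * sc a r x * p (sc a r x)) * g x := by
      rw [den_integral hg h.g0, ← integral_const_mul]
      apply integral_congr_ae
      filter_upwards with x
      unfold sc
      field_simp
      ring
    rw [e1] at h1
    rw [e2]
    linarith
  · intro r hr hrR
    have h1 := h.R3 a r R hr hrR hR
    rw [eD]
    have e1 : ∫ x in closedBall a R,
        ((((m:ℝ) - 2) * p (sc a r x) ^ 3 - 6 * sc a r x * p (sc a r x) ^ 2) * b x +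
          12 / r ^ 2 * (p (sc a r x) ^ 2 * γ a x)) =
        ((m:ℝ) - 2) * (∫ x in closedBall a R, p (sc a r x) ^ 3 * b x) -
          (∫ x in closedBall a R, (6 * sc a r x * p (sc a r x) ^ 2) * b x) +
          12 / r ^ 2 * ∫ x in closedBall a R, p (sc a r x) ^ 2 * γ a x := by
      have i45 : IntegrableOn (fun x => ((m:ℝ) - 2) * (p (sc a r x) ^ 3 * b x) -
          (6 * sc a r x * p (sc a r x) ^ 2) * b x) (closedBall a R) :=
        ((i4 r).const_mul _).sub (i5 r)
      rw [← integral_const_mul, ← integral_const_mul, ← integral_sub ((i4 r).const_mul _) (i5 r),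
        ← integral_add i45 ((i6 r).const_mul _)]
      apply integral_congr_ae
      filter_upwards with x
      ring
    have e2 : r * (∫ y, (-3 * p (‖y - a‖ ^ 2 / r ^ 2) ^ 2) * (-2 * ‖y - a‖ ^ 2 / r ^ 3)
        ∂(den b a R)) = ∫ x in closedBall a R, (6 * sc a r x * p (sc a r x) ^ 2) * b x := by
      rw [den_integral hb h.b0, ← integral_const_mul]
      apply integral_congr_ae
      filter_upwards with x
      unfold sc
      field_simp
      ring
    rw [e1] at h1
    rw [e2]
    linarith
  · intro r hr hrR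
    have h2 := h.R2 a r R hr hrR hR
    have h3 := h.cauchy (r := r) hR
    rw [eJ, eD]
    have e : r ^ 2 / 6 * (∫ x in closedBall a R, p (sc a r x) ^ 3 * b x) =
        ∫ x in closedBall a R, p (sc a r x) ^ 2 * t a x := by linarith
    rw [e]
    exact h3

end

end Pool.Agent.Q261.QV
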