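import Mathlib
import Pool.Agent.Q261.QV.Cut
import Pool.Agent.Q261.QV.Rad

/-!
The identities for test functions which are polynomials in the sheets, and the radial identities.
-/

namespace Pool.Agent.Q261.QV

open MeasureTheory Set Filter Topology Metric
open Pool.Agent.TH337.VF (E Wt)
open scoped RealInnerProductSpace ENNReal

variable {m n Q : ℕ}

lemma eb_norm (i : Fin m) : ‖(eb i : E m)‖ = 1 := by simp

/-- expansion in the standard basis -/
lemma apply_eq_sum {F : Type*} [NormedAddCommGroup F] [NormedSpace ℝ F] (L : E m →L[ℝ] F) (v : E m) :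
    L v = ∑ i, v i • L (eb i) := by
  conv_lhs => rw [← (EuclideanSpace.basisFun (Fin m) ℝ).sum_repr v]
  simp [map_sum]

lemma inner_eb (v : E m) (i : Fin m) : ⟪(eb i : E m), v⟫ = v i := by
  simp [EuclideanSpace.inner_single_left]

lemma dv_eq (L : E m →L[ℝ] E m) : dv L = ∑ i, ⟪(eb i : E m), L (eb i)⟫ := by
  unfold dv
  exact Finset.sum_congr rfl fun i _ => (inner_eb _ _).symm

variable {Ω : Set (E m)} {u : Fin Q → E m → E n} {A : Fin Q → E m → E m →L[ℝ] E n}

lemma St.mA' (h : St Ω u A) (k : Fin Q) (i : Fin m) : Measurable fun x => A k x (eb i) :=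
  (ContinuousLinearMap.apply ℝ (E n) (eb i)).continuous.measurable.comp (h.mA k)

/-- a bound for a function which is zero off a compact set -/
lemma bdd_of_zero {F : Type*} [NormedAddCommGroup F] {K : Set (E m)} (hK : IsCompact K)
    {f : E m → F} (hf : Continuous f) (h0 : ∀ x ∉ K, f x = 0) : ∃ M, 0 ≤ M ∧ ∀ x, ‖f x‖ ≤ M := by
  obtain ⟨M, hM⟩ := hf.bounded_above_of_compact_support (HasCompactSupport.intro hK h0)
  exact ⟨M, (norm_nonneg _).trans (hM 0), hM⟩

lemma fderiv_zero_off {F : Type*} [NormedAddCommGroup F] [NormedSpace ℝ F] {K : Set (E m)}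
    (hK : IsCompact K) {f : E m → F} (h0 : ∀ x ∉ K, f x = 0) {x : E m} (hx : x ∉ K) :
    fderiv ℝ f x = 0 := by
  have h1 : f =ᶠ[𝓝 x] fun _ => 0 := by
    filter_upwards [hK.isClosed.isOpen_compl.mem_nhds hx] with z hz
    exact h0 z hz
  rw [h1.fderiv_eq]
  simp

lemma AA_le (k : Fin Q) (x : E m) (i : Fin m) : ‖A k x (eb i)‖ ≤ ‖A k x‖ := by
  have h3 := (A k x).le_opNorm (eb i)
  rwa [eb_norm, mul_one] at h3

/-- chain rule for `‖y‖² θ(x)` -/
lemma St.quad (h : St Ω u A) {K : Set (E m)} (hK : IsCompact K) (hKΩ : K ⊆ Ω) {θ : E m → E m}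
    (hθ : ContDiff ℝ 1 θ) (h0 : ∀ x ∉ K, θ x = 0) :
    ∫ x, ∑ k, (dv (fderiv ℝ θ x) * ‖u k x‖ ^ 2 + 2 * ⟪u k x, A k x (θ x)⟫) = 0 := by
  obtain ⟨M, hM0, hM⟩ := bdd_of_zero hK hθ.continuous h0
  obtain ⟨M', hM0', hM'⟩ := bdd_of_zero hK (hθ.continuous_fderiv one_ne_zero)
    (fun x hx => fderiv_zero_off hK h0 hx)
  set T : E m × E n → E m := fun z => ‖z.2‖ ^ 2 • θ z.1 with hT
  have hTc : ContDiff ℝ 1 T := (contDiff_snd.norm_sq ℝ).smul (hθ.comp contDiff_fst)
  have hder : ∀ x y w z, fderiv ℝ T (x, y) (w, z) =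
      ‖y‖ ^ 2 • fderiv ℝ θ x w + (2 * ⟪y, z⟫) • θ x := by
    intro x y w z
    have h1 : HasFDerivAt (fun z : E m × E n => ‖z.2‖ ^ 2)
        (2 • (innerSL ℝ y).comp (ContinuousLinearMap.snd ℝ (E m) (E n))) (x, y) :=
      (hasFDerivAt_snd (p := ((x, y) : E m × E n))).norm_sq
    have h2 : HasFDerivAt (fun z : E m × E n => θ z.1)
        ((fderiv ℝ θ x).comp (ContinuousLinearMap.fst ℝ (E m) (E n))) (x, y) :=
      ((hθ.differentiable one_ne_zero x).hasFDerivAt).comp (x, y) hasFDerivAt_fst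
    have h3 : fderiv ℝ T (x, y) = _ := (h1.smul h2).fderiv
    rw [h3]
    simp [two_smul, two_mul]
  have hE := ext h.mu h.mA (c := fun _ i _ => eb i) (fun _ _ => measurable_const) h.chain hK hKΩ
    (h.en K hKΩ hK) hTc
    (fun x hx y => by show ‖y‖ ^ 2 • θ x = 0; rw [h0 x hx, smul_zero])
    (C := M' + 2 * M) (by positivity) ?_ ?_
  · rw [← hE]
    apply integral_congr_ae
    filter_upwards with x
    apply Finset.sum_congr rfl
    intro k _
    have e1 : ∀ i, ⟪(eb i : E m), fderiv ℝ T (x, u k x) (eb i, A k x (eb i))⟫ =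
        ‖u k x‖ ^ 2 * ⟪(eb i : E m), fderiv ℝ θ x (eb i)⟫ +
          2 * ((θ x) i * ⟪u k x, A k x (eb i)⟫) := by
      intro i
      rw [hder, inner_add_right, inner_smul_right, inner_smul_right, inner_eb (θ x) i]
      ring
    simp only [e1]
    rw [Finset.sum_add_distrib, ← Finset.mul_sum, ← Finset.mul_sum, ← dv_eq,
      apply_eq_sum (A k x) (θ x), inner_sum]
    simp only [inner_smul_right]
    ring
  · intro x hx k i
    rw [hder, eb_norm, one_mul]
    have a1 : ‖fderiv ℝ θ x (eb i)‖ ≤ M' := by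
      have := (fderiv ℝ θ x).le_opNorm (eb i)
      rw [eb_norm, mul_one] at this
      exact this.trans (hM' x)
    have a2 := abs_real_inner_le_norm (u k x) (A k x (eb i))
    have a3 := AA_le (A := A) k x i
    have a4 := hM x
    set y := ‖u k x‖
    set α := ‖A k x‖
    have y0 : 0 ≤ y := norm_nonneg _
    have α0 : 0 ≤ α := norm_nonneg _
    calc ‖y ^ 2 • fderiv ℝ θ x (eb i) + (2 * ⟪u k x, A k x (eb i)⟫) • θ x‖
        ≤ y ^ 2 * M' + (2 * (y * α)) * M := by
          refine (norm_add_le _ _).trans (add_le_add ?_ ?_)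
          · rw [norm_smul, Real.norm_of_nonneg (by positivity)]
            gcongr
          · rw [norm_smul, Real.norm_eq_abs, abs_mul, abs_of_pos (two_pos : (0:ℝ) < 2)]
            have : |⟪u k x, A k x (eb i)⟫| ≤ y * α := a2.trans (by gcongr)
            gcongr
      _ ≤ (M' + 2 * M) * (1 + (y ^ 2 + α ^ 2)) := by
          nlinarith [mul_nonneg hM0 (sq_nonneg (y - α)), mul_nonneg hM0 (sq_nonneg (y + α)),
            mul_nonneg hM0' (sq_nonneg α), mul_nonneg hM0 (sq_nonneg y),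
            mul_nonneg hM0 (sq_nonneg α)]
  · intro x hx k i
    rw [eb_norm, one_mul]
    show ‖‖u k x‖ ^ 2 • θ x‖ * ‖A k x‖ ≤ _
    rw [norm_smul, Real.norm_of_nonneg (by positivity)]
    have a4 := hM x
    set y := ‖u k x‖
    set α := ‖A k x‖
    have y0 : 0 ≤ y := norm_nonneg _
    have α0 : 0 ≤ α := norm_nonneg _
    have P : y * α ≤ 1 + (y ^ 2 + α ^ 2) := by nlinarith [sq_nonneg (y - α)]
    have P0 : 0 ≤ 1 + (y ^ 2 + α ^ 2) := by positivity
    calc y ^ 2 * ‖θ x‖ * α ≤ y ^ 2 * M * α := by gcongr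
      _ = M * y * (y * α) := by ring
      _ ≤ (M' + 2 * M) * (1 + y) * (1 + (y ^ 2 + α ^ 2)) := by
          have : M * y ≤ (M' + 2 * M) * (1 + y) := by nlinarith [mul_nonneg hM0' y0, mul_nonneg hM0 y0]
          exact mul_le_mul this P (by positivity) (by positivity)

/-- chain rule for `⟪y, e⟫ θ(x)` -/
lemma St.lin (h : St Ω u A) {K : Set (E m)} (hK : IsCompact K) (hKΩ : K ⊆ Ω) {θ : E m → E m}
    (hθ : ContDiff ℝ 1 θ) (h0 : ∀ x ∉ K, θ x = 0) (e : E n) :
    ∫ x, ∑ k, (dv (fderiv ℝ θ x) * ⟪e, u k x⟫ + ⟪e, A k x (θ x)⟫) = 0 := by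
  obtain ⟨M, hM0, hM⟩ := bdd_of_zero hK hθ.continuous h0
  obtain ⟨M', hM0', hM'⟩ := bdd_of_zero hK (hθ.continuous_fderiv one_ne_zero)
    (fun x hx => fderiv_zero_off hK h0 hx)
  set T : E m × E n → E m := fun z => ⟪e, z.2⟫ • θ z.1 with hT
  have hTc : ContDiff ℝ 1 T := (contDiff_const.inner ℝ contDiff_snd).smul (hθ.comp contDiff_fst)
  have hder : ∀ x y w z, fderiv ℝ T (x, y) (w, z) =
      ⟪e, y⟫ • fderiv ℝ θ x w + ⟪e, z⟫ • θ x := by
    intro x y w z
    have h1 : HasFDerivAt (fun z : E m × E n => ⟪e, z.2⟫)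
        ((innerSL ℝ e).comp (ContinuousLinearMap.snd ℝ (E m) (E n))) (x, y) :=
      (innerSL ℝ e).hasFDerivAt.comp (x, y) hasFDerivAt_snd
    have h2 : HasFDerivAt (fun z : E m × E n => θ z.1)
        ((fderiv ℝ θ x).comp (ContinuousLinearMap.fst ℝ (E m) (E n))) (x, y) :=
      ((hθ.differentiable one_ne_zero x).hasFDerivAt).comp (x, y) hasFDerivAt_fst
    have h3 : fderiv ℝ T (x, y) = _ := (h1.smul h2).fderiv
    rw [h3]
    simp
  have hE := ext h.mu h.mA (c := fun _ i _ => eb i) (fun _ _ => measurable_const) h.chain hK hKΩ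
    (h.en K hKΩ hK) hTc
    (fun x hx y => by show ⟪e, y⟫ • θ x = 0; rw [h0 x hx, smul_zero])
    (C := ‖e‖ * (M' + M)) (by positivity) ?_ ?_
  · rw [← hE]
    apply integral_congr_ae
    filter_upwards with x
    apply Finset.sum_congr rfl
    intro k _
    have e1 : ∀ i, ⟪(eb i : E m), fderiv ℝ T (x, u k x) (eb i, A k x (eb i))⟫ =
        ⟪e, u k x⟫ * ⟪(eb i : E m), fderiv ℝ θ x (eb i)⟫ +
          (θ x) i * ⟪e, A k x (eb i)⟫ := by
      intro i
      rw [hder, inner_add_right, inner_smul_right, inner_smul_right, inner_eb (θ x) i]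
      ring
    simp only [e1]
    rw [Finset.sum_add_distrib, ← Finset.mul_sum, ← dv_eq,
      apply_eq_sum (A k x) (θ x), inner_sum]
    simp only [inner_smul_right]
    ring
  · intro x hx k i
    rw [hder, eb_norm, one_mul]
    have a1 : ‖fderiv ℝ θ x (eb i)‖ ≤ M' := by
      have := (fderiv ℝ θ x).le_opNorm (eb i)
      rw [eb_norm, mul_one] at this
      exact this.trans (hM' x)
    have a2 := abs_real_inner_le_norm e (A k x (eb i))
    have a2' := abs_real_inner_le_norm e (u k x)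
    have a3 := AA_le (A := A) k x i
    have a4 := hM x
    set y := ‖u k x‖
    set α := ‖A k x‖
    have y0 : 0 ≤ y := norm_nonneg _
    have α0 : 0 ≤ α := norm_nonneg _
    have e0 := norm_nonneg e
    calc ‖⟪e, u k x⟫ • fderiv ℝ θ x (eb i) + ⟪e, A k x (eb i)⟫ • θ x‖
        ≤ (‖e‖ * y) * M' + (‖e‖ * α) * M := by
          refine (norm_add_le _ _).trans (add_le_add ?_ ?_)
          · rw [norm_smul, Real.norm_eq_abs]
            gcongr
          · rw [norm_smul, Real.norm_eq_abs]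
            have : |⟪e, A k x (eb i)⟫| ≤ ‖e‖ * α := a2.trans (by gcongr)
            gcongr
      _ = ‖e‖ * (y * M' + α * M) := by ring
      _ ≤ ‖e‖ * ((M' + M) * (1 + (y ^ 2 + α ^ 2))) := by
          have b1 : y ≤ 1 + (y ^ 2 + α ^ 2) := by nlinarith [sq_nonneg (y - 1)]
          have b2 : α ≤ 1 + (y ^ 2 + α ^ 2) := by nlinarith [sq_nonneg (α - 1)]
          apply mul_le_mul_of_nonneg_left _ e0
          nlinarith
      _ = _ := by ring
  · intro x hx k i
    rw [eb_norm, one_mul]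
    show ‖⟪e, u k x⟫ • θ x‖ * ‖A k x‖ ≤ _
    rw [norm_smul, Real.norm_eq_abs]
    have a4 := hM x
    have a2' := abs_real_inner_le_norm e (u k x)
    set y := ‖u k x‖
    set α := ‖A k x‖
    have y0 : 0 ≤ y := norm_nonneg _
    have α0 : 0 ≤ α := norm_nonneg _
    have e0 := norm_nonneg e
    have P : y * α ≤ 1 + (y ^ 2 + α ^ 2) := by nlinarith [sq_nonneg (y - α)]
    calc |⟪e, u k x⟫| * ‖θ x‖ * α ≤ (‖e‖ * y) * M * α := by gcongr
      _ = ‖e‖ * M * (y * α) := by ring
      _ ≤ ‖e‖ * M * (1 + (y ^ 2 + α ^ 2)) := by gcongr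
      _ ≤ ‖e‖ * (M' + M) * (1 + y) * (1 + (y ^ 2 + α ^ 2)) := by
          have : ‖e‖ * M ≤ ‖e‖ * (M' + M) * (1 + y) := by
            have h1 : ‖e‖ * M ≤ ‖e‖ * (M' + M) := by
              apply mul_le_mul_of_nonneg_left _ e0
              linarith
            have h2 : 0 ≤ ‖e‖ * (M' + M) := by positivity
            nlinarith [mul_nonneg h2 y0]
          gcongr

/-- outer variation `η(x) y` -/
lemma St.outq (h : St Ω u A) {K : Set (E m)} (hK : IsCompact K) (hKΩ : K ⊆ Ω) {η : E m → ℝ}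
    (hη : ContDiff ℝ 1 η) (h0 : ∀ x ∉ K, η x = 0) :
    ∫ x, ∑ k, (η x * hs (A k x) (A k x) +
      ∑ i, fderiv ℝ η x (eb i) * ⟪A k x (eb i), u k x⟫) = 0 := by
  obtain ⟨M, hM0, hM⟩ := bdd_of_zero hK hη.continuous h0
  obtain ⟨M', hM0', hM'⟩ := bdd_of_zero hK (hη.continuous_fderiv one_ne_zero)
    (fun x hx => fderiv_zero_off hK h0 hx)
  set T : E m × E n → E n := fun z => η z.1 • z.2 with hT
  have hTc : ContDiff ℝ 1 T := (hη.comp contDiff_fst).smul contDiff_snd
  have hder : ∀ x y w z, fderiv ℝ T (x, y) (w, z) = η x • z + (fderiv ℝ η x w) • y := by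
    intro x y w z
    have h2 : HasFDerivAt (fun z : E m × E n => η z.1)
        ((fderiv ℝ η x).comp (ContinuousLinearMap.fst ℝ (E m) (E n))) (x, y) :=
      ((hη.differentiable one_ne_zero x).hasFDerivAt).comp (x, y) hasFDerivAt_fst
    have h3 : fderiv ℝ T (x, y) = _ := (h2.smul hasFDerivAt_snd).fderiv
    rw [h3]
    simp
  have hE := ext h.mu h.mA (c := fun k i x => A k x (eb i)) (fun k i => h.mA' k i) h.outer hK hKΩ
    (h.en K hKΩ hK) hTc
    (fun x hx y => by show η x • y = 0; rw [h0 x hx, zero_smul])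
    (C := M' + M) (by positivity) ?_ ?_
  · rw [← hE]
    apply integral_congr_ae
    filter_upwards with x
    apply Finset.sum_congr rfl
    intro k _
    have e1 : ∀ i, ⟪A k x (eb i), fderiv ℝ T (x, u k x) (eb i, A k x (eb i))⟫ =
        η x * ⟪A k x (eb i), A k x (eb i)⟫ + fderiv ℝ η x (eb i) * ⟪A k x (eb i), u k x⟫ := by
      intro i
      rw [hder, inner_add_right, inner_smul_right, inner_smul_right]
    simp only [e1]
    rw [Finset.sum_add_distrib, ← Finset.mul_sum]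
    rfl
  · intro x hx k i
    rw [hder]
    have a1 : ‖fderiv ℝ η x (eb i)‖ ≤ M' := by
      have := (fderiv ℝ η x).le_opNorm (eb i)
      rw [eb_norm, mul_one] at this
      exact this.trans (hM' x)
    have a3 := AA_le (A := A) k x i
    have a4 := hM x
    set y := ‖u k x‖
    set α := ‖A k x‖
    have y0 : 0 ≤ y := norm_nonneg _
    have α0 : 0 ≤ α := norm_nonneg _
    calc ‖A k x (eb i)‖ * ‖η x • A k x (eb i) + fderiv ℝ η x (eb i) • u k x‖
        ≤ α * (M * α + M' * y) := by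
          refine mul_le_mul a3 ((norm_add_le _ _).trans (add_le_add ?_ ?_)) (norm_nonneg _) α0
          · rw [norm_smul]
            gcongr
          · rw [norm_smul]
            gcongr
      _ ≤ (M' + M) * (1 + (y ^ 2 + α ^ 2)) := by
          nlinarith [mul_nonneg hM0' (sq_nonneg (y - α)), mul_nonneg hM0' (sq_nonneg (y + α)),
            mul_nonneg hM0 (sq_nonneg y), mul_nonneg hM0' (sq_nonneg y),
            mul_nonneg hM0' (sq_nonneg α)]
  · intro x hx k i
    show ‖A k x (eb i)‖ * ‖η x • u k x‖ * ‖A k x‖ ≤ _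
    rw [norm_smul]
    have a3 := AA_le (A := A) k x i
    have a4 := hM x
    set y := ‖u k x‖
    set α := ‖A k x‖
    have y0 : 0 ≤ y := norm_nonneg _
    have α0 : 0 ≤ α := norm_nonneg _
    have P : α * α ≤ 1 + (y ^ 2 + α ^ 2) := by nlinarith [sq_nonneg y]
    calc ‖A k x (eb i)‖ * (‖η x‖ * y) * α ≤ α * (M * y) * α := by gcongr
      _ = M * y * (α * α) := by ring
      _ ≤ (M' + M) * (1 + y) * (1 + (y ^ 2 + α ^ 2)) := by
          have : M * y ≤ (M' + M) * (1 + y) := by nlinarith [mul_nonneg hM0' y0, mul_nonneg hM0 y0]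
          exact mul_le_mul this P (by positivity) (by positivity)

/-- outer variation `β(x)` -/
lemma St.outl (h : St Ω u A) {K : Set (E m)} (hK : IsCompact K) (hKΩ : K ⊆ Ω) {β : E m → E n}
    (hβ : ContDiff ℝ 1 β) (h0 : ∀ x ∉ K, β x = 0) :
    ∫ x, ∑ k, hs (A k x) (fderiv ℝ β x) = 0 := by
  obtain ⟨M, hM0, hM⟩ := bdd_of_zero hK hβ.continuous h0
  obtain ⟨M', hM0', hM'⟩ := bdd_of_zero hK (hβ.continuous_fderiv one_ne_zero)
    (fun x hx => fderiv_zero_off hK h0 hx)
  set T : E m × E n → E n := fun z => β z.1 with hT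
  have hTc : ContDiff ℝ 1 T := hβ.comp contDiff_fst
  have hder : ∀ x y w z, fderiv ℝ T (x, y) (w, z) = fderiv ℝ β x w := by
    intro x y w z
    have h2 : HasFDerivAt (fun z : E m × E n => β z.1)
        ((fderiv ℝ β x).comp (ContinuousLinearMap.fst ℝ (E m) (E n))) (x, y) :=
      ((hβ.differentiable one_ne_zero x).hasFDerivAt).comp (x, y) hasFDerivAt_fst
    have h3 : fderiv ℝ T (x, y) = _ := h2.fderiv
    rw [h3]
    simp
  have hE := ext h.mu h.mA (c := fun k i x => A k x (eb i)) (fun k i => h.mA' k i) h.outer hK hKΩ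
    (h.en K hKΩ hK) hTc (fun x hx y => h0 x hx)
    (C := M' + M) (by positivity) ?_ ?_
  · rw [← hE]
    apply integral_congr_ae
    filter_upwards with x
    apply Finset.sum_congr rfl
    intro k _
    unfold hs
    exact Finset.sum_congr rfl fun i _ => by rw [hder]
  · intro x hx k i
    rw [hder]
    have a1 : ‖fderiv ℝ β x (eb i)‖ ≤ M' := by
      have := (fderiv ℝ β x).le_opNorm (eb i)
      rw [eb_norm, mul_one] at this
      exact this.trans (hM' x)
    have a3 := AA_le (A := A) k x i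
    set y := ‖u k x‖
    set α := ‖A k x‖
    have y0 : 0 ≤ y := norm_nonneg _
    have α0 : 0 ≤ α := norm_nonneg _
    calc ‖A k x (eb i)‖ * ‖fderiv ℝ β x (eb i)‖ ≤ α * M' := by gcongr
      _ ≤ (1 + (y ^ 2 + α ^ 2)) * (M' + M) := by
          have b2 : α ≤ 1 + (y ^ 2 + α ^ 2) := by nlinarith [sq_nonneg (α - 1)]
          apply mul_le_mul b2 (by linarith) hM0' (by positivity)
      _ = _ := by ring
  · intro x hx k i
    show ‖A k x (eb i)‖ * ‖β x‖ * ‖A k x‖ ≤ _
    have a3 := AA_le (A := A) k x i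
    have a4 := hM x
    set y := ‖u k x‖
    set α := ‖A k x‖
    have y0 : 0 ≤ y := norm_nonneg _
    have α0 : 0 ≤ α := norm_nonneg _
    have P : α * α ≤ 1 + (y ^ 2 + α ^ 2) := by nlinarith [sq_nonneg y]
    calc ‖A k x (eb i)‖ * ‖β x‖ * α ≤ α * M * α := by gcongr
      _ = M * (α * α) := by ring
      _ ≤ (M' + M) * (1 + y) * (1 + (y ^ 2 + α ^ 2)) := by
          have : M ≤ (M' + M) * (1 + y) := by nlinarith [mul_nonneg hM0' y0, mul_nonneg hM0 y0]
          exact mul_le_mul this P (by positivity) (by positivity)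

end Pool.Agent.Q261.QV
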