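import Mathlib
import Pool.Agent.Q261.QV.Rad

/-!
Sub-mean value inequality, doubling and unique continuation for densities with the radial identities.
-/

namespace Pool.Agent.Q261.QV

open MeasureTheory Set Filter Topology Metric
open Pool.Agent.TH337.VF (E Wt I hasDerivAt_I integrable_wt hasDerivAt_possq)
open scoped RealInnerProductSpace ENNReal

variable {m : ℕ}

/-- the smoothed integral of `g` -/
noncomputable def JJ (g : E m → ℝ) (a : E m) (R r : ℝ) : ℝ :=
  I (fun s => p s ^ 2) (den g a R) a r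

lemma sc_ge {a x : E m} {r : ℝ} (hr : 0 < r) (hx : x ∉ closedBall a r) : 1 ≤ sc a r x := by
  have h1 : r < ‖x - a‖ := by
    rw [mem_closedBall, dist_eq_norm] at hx
    exact not_le.1 hx
  unfold sc
  rw [one_le_div (by positivity)]
  exact pow_le_pow_left₀ hr.le h1.le 2

lemma sc_ge' {a x : E m} {r : ℝ} (hr : 0 < r) (hx : x ∉ ball a r) : 1 ≤ sc a r x := by
  have h1 : r ≤ ‖x - a‖ := by
    rw [mem_ball, dist_eq_norm] at hx
    exact not_lt.1 hx
  unfold sc
  rw [one_le_div (by positivity)]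
  exact pow_le_pow_left₀ hr.le h1 2

lemma sc_lt {a x : E m} {r : ℝ} (hr : 0 < r) (hx : x ∈ ball a r) : sc a r x < 1 := by
  have h1 : ‖x - a‖ < r := by
    rwa [mem_ball, dist_eq_norm] at hx
  unfold sc
  rw [div_lt_one (by positivity)]
  exact pow_lt_pow_left₀ h1 (norm_nonneg _) two_ne_zero

lemma sc_quarter {a x : E m} {r : ℝ} (hr : 0 < r) (hx : x ∈ closedBall a (r / 2)) :
    sc a r x ≤ 1 / 4 := by
  have h1 : ‖x - a‖ ≤ r / 2 := by
    rwa [mem_closedBall, dist_eq_norm] at hx
  unfold sc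
  rw [div_le_iff₀ (by positivity)]
  have := pow_le_pow_left₀ (norm_nonneg _) h1 2
  nlinarith

section
variable {Ω : Set (E m)} {g b : E m → ℝ} {t γ : E m → E m → ℝ}

lemma Rad.JJ_eq (h : Rad Ω g b t γ) {a : E m} {R : ℝ} (hR : closedBall a R ⊆ Ω) (r : ℝ) :
    JJ g a R r = ∫ x in closedBall a R, p (sc a r x) ^ 2 * g x := by
  unfold JJ I
  rw [den_integral (h.gi _ hR (isCompact_closedBall a R)) h.g0]
  rfl

lemma Rad.JJ_le (h : Rad Ω g b t γ) {a : E m} {r R : ℝ} (hR : closedBall a R ⊆ Ω) (hr : 0 < r)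
    (hrR : r ≤ R) : JJ g a R r ≤ ∫ x in closedBall a r, g x := by
  have hg := h.gi _ hR (isCompact_closedBall a R)
  have hsub : closedBall a r ⊆ closedBall a R := closedBall_subset_closedBall hrR
  rw [h.JJ_eq hR, setIntegral_eq_of_subset_of_forall_sdiff_eq_zero measurableSet_closedBall hsub]
  · apply integral_mono_ae (wint ((wp a r).pow 2) (hg.mono_set hsub)) (hg.mono_set hsub)
    filter_upwards with x
    have h1 := p_le_one (sc_nonneg a r x)
    have h2 := p_nonneg (sc a r x)
    have h3 := h.g0 x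
    have h4 : p (sc a r x) ^ 2 ≤ 1 := pow_le_one₀ h2 h1
    show p (sc a r x) ^ 2 * g x ≤ g x
    nlinarith
  · intro x hx
    show p (sc a r x) ^ 2 * g x = 0
    rw [p_zero (sc_ge hr hx.2)]
    norm_num

lemma Rad.JJ_ge (h : Rad Ω g b t γ) {a : E m} {r R : ℝ} (hR : closedBall a R ⊆ Ω) (hr : 0 < r)
    (hrR : r ≤ R) : 9 / 16 * (∫ x in closedBall a (r / 2), g x) ≤ JJ g a R r := by
  have hg := h.gi _ hR (isCompact_closedBall a R)
  have hsub : closedBall a (r / 2) ⊆ closedBall a R :=
    closedBall_subset_closedBall (by linarith)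
  rw [h.JJ_eq hR]
  have i1 := wint ((wp a r).pow 2) hg
  have h1 : ∫ x in closedBall a (r / 2), p (sc a r x) ^ 2 * g x ≤
      ∫ x in closedBall a R, p (sc a r x) ^ 2 * g x := by
    apply setIntegral_mono_set i1
    · filter_upwards with x
      have := h.g0 x
      show 0 ≤ p (sc a r x) ^ 2 * g x
      positivity
    · exact hsub.eventuallyLE
  refine le_trans ?_ h1
  rw [← integral_const_mul]
  apply setIntegral_mono_on ((hg.mono_set hsub).const_mul _) (i1.mono_set hsub)
    measurableSet_closedBall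
  intro x hx
  have h2 := p_quarter (sc_quarter hr hx)
  have h3 := h.g0 x
  have h4 : 9 / 16 ≤ p (sc a r x) ^ 2 := by nlinarith
  exact mul_le_mul_of_nonneg_right h4 h3

/-- the volume of the closed unit ball -/
noncomputable def om (m : ℕ) : ℝ := (volume : Measure (E m)).real (closedBall 0 1)

lemma om_pos (m : ℕ) : 0 < om m := by
  unfold om
  rw [measureReal_def]
  refine ENNReal.toReal_pos ?_ ?_
  · exact (measure_closedBall_pos volume 0 one_pos).ne'
  · exact measure_closedBall_lt_top.ne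

lemma vol_ball (a : E m) {r : ℝ} (hr : 0 ≤ r) :
    (volume : Measure (E m)).real (closedBall a r) = r ^ m * om m := by
  rw [Measure.addHaar_real_closedBall' _ _ hr, finrank_euclideanSpace, Fintype.card_fin]
  rfl

/-- the constant of the sub-mean value inequality -/
noncomputable def cm (m : ℕ) : ℝ := 9 / 16 * (om m / 2 ^ m)

lemma cm_pos (m : ℕ) : 0 < cm m := by
  unfold cm
  have := om_pos m
  positivity

lemma Rad.sub_of_tendsto (h : Rad Ω g b t γ) {a : E m} {R : ℝ} (hR0 : 0 < R)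
    (hR : closedBall a R ⊆ Ω)
    (hlim : Tendsto (fun δ => ⨍ y in closedBall a δ, g y) (𝓝[>] (0:ℝ)) (𝓝 (g a))) :
    cm m * g a ≤ (∫ x in closedBall a R, g x) / R ^ m := by
  have hF := h.freq hR
  have key : ∀ δ, 0 < δ → 2 * δ ≤ R →
      cm m * (⨍ y in closedBall a δ, g y) ≤ (∫ x in closedBall a R, g x) / R ^ m := by
    intro δ hδ hδR
    have h2δ : 0 < 2 * δ := by linarith
    have h1 := hF.mono h2δ hδR le_rfl
    have h2 := h.JJ_ge hR h2δ hδR
    have h3 := h.JJ_le hR hR0 le_rfl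
    have e : 2 * δ / 2 = δ := by ring
    rw [e] at h2
    have h4 : JJ g a R (2 * δ) / (2 * δ) ^ m ≤ JJ g a R R / R ^ m := h1
    have h5 : JJ g a R R / R ^ m ≤ (∫ x in closedBall a R, g x) / R ^ m :=
      div_le_div_of_nonneg_right h3 (by positivity)
    refine le_trans ?_ (h4.trans h5)
    rw [setAverage_eq, vol_ball a hδ.le, smul_eq_mul, le_div_iff₀ (by positivity)]
    refine le_trans (le_of_eq ?_) h2
    unfold cm
    have := (om_pos m).ne'
    have h6 : δ ^ m ≠ 0 := (pow_pos hδ m).ne'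
    rw [mul_pow]
    field_simp
  have h1 : Tendsto (fun δ => cm m * (⨍ y in closedBall a δ, g y)) (𝓝[>] (0:ℝ))
      (𝓝 (cm m * g a)) := hlim.const_mul _
  refine le_of_tendsto h1 ?_
  filter_upwards [Ioc_mem_nhdsGT (show (0:ℝ) < R / 2 by linarith)] with δ hδ
  exact key δ hδ.1 (by linarith [hδ.2])

/-- sub-mean value inequality -/
lemma Rad.sub (h : Rad Ω g b t γ) (hΩ : IsOpen Ω) :
    ∀ᵐ a ∂(volume : Measure (E m)), a ∈ Ω → ∀ R, 0 < R → closedBall a R ⊆ Ω →
      cm m * g a ≤ (∫ x in closedBall a R, g x) / R ^ m := by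
  rw [ae_iff]
  apply measure_null_of_locally_null
  intro x hx
  have hxΩ : x ∈ Ω := by
    by_contra hc
    exact hx fun h => absurd h hc
  obtain ⟨ρ, hρ, hρΩ⟩ := Metric.nhds_basis_closedBall.mem_iff.1 (hΩ.mem_nhds hxΩ)
  set f : E m → ℝ := (closedBall x ρ).indicator g with hf
  have hfi : LocallyIntegrable f volume := by
    apply Integrable.locallyIntegrable
    exact (integrable_indicator_iff measurableSet_closedBall).2
      (h.gi _ hρΩ (isCompact_closedBall x ρ))
  have hL := IsUnifLocDoublingMeasure.ae_tendsto_average (volume : Measure (E m)) hfi 1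
  refine ⟨ball x ρ ∩ {a | ¬ (a ∈ Ω → ∀ R, 0 < R → closedBall a R ⊆ Ω →
      cm m * g a ≤ (∫ x in closedBall a R, g x) / R ^ m)}, ?_, ?_⟩
  · exact inter_mem (mem_nhdsWithin_of_mem_nhds (ball_mem_nhds x hρ)) self_mem_nhdsWithin
  · rw [← nonpos_iff_eq_zero, ← ae_iff.1 hL]
    apply measure_mono
    rintro a ⟨ha, hna⟩ hLa
    apply hna
    intro haΩ R hR0 hR
    have h1 := hLa (fun _ => a) (fun δ => δ) tendsto_id
      (by
        filter_upwards [self_mem_nhdsWithin] with δ hδ
        rw [one_mul]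
        exact mem_closedBall_self (le_of_lt hδ))
    have h2 : f a = g a := indicator_of_mem (ball_subset_closedBall ha) g
    rw [h2] at h1
    apply h.sub_of_tendsto hR0 hR
    refine h1.congr' ?_
    obtain ⟨δ₀, hδ₀, hb⟩ := Metric.nhds_basis_closedBall.mem_iff.1 (isOpen_ball.mem_nhds ha)
    filter_upwards [Ioc_mem_nhdsGT hδ₀] with δ hδ
    apply setAverage_congr_fun measurableSet_closedBall
    filter_upwards with y hy
    exact indicator_of_mem (ball_subset_closedBall
      (hb (closedBall_subset_closedBall hδ.2 hy))) g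

lemma Rad.zero_of_JJ (h : Rad Ω g b t γ) {a : E m} {R : ℝ} (hR0 : 0 < R)
    (hR : closedBall a R ⊆ Ω) (hJ : JJ g a R R = 0) :
    ∀ᵐ x ∂(volume.restrict (ball a R)), g x = 0 := by
  rw [h.JJ_eq hR] at hJ
  have hg := h.gi _ hR (isCompact_closedBall a R)
  have i1 : IntegrableOn (fun x => p (sc a R x) ^ 2 * g x) (closedBall a R) :=
    wint ((wp a R).pow 2) hg
  rw [setIntegral_eq_zero_iff_of_nonneg_ae _ i1] at hJ
  · have h1 := ae_restrict_of_ae_restrict_of_subset (ball_subset_closedBall (x := a) (ε := R)) hJ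
    filter_upwards [h1, ae_restrict_mem measurableSet_ball] with x hx hxb
    have h2 : p (sc a R x) ^ 2 * g x = 0 := hx
    have h3 := p_pos (sc_lt hR0 hxb)
    rcases mul_eq_zero.1 h2 with h4 | h4
    · exact absurd h4 (by positivity)
    · exact h4
  · filter_upwards with x
    have := h.g0 x
    show 0 ≤ p (sc a R x) ^ 2 * g x
    positivity

/-- if `g` vanishes near the centre of a ball it vanishes on the ball -/
lemma Rad.spread (h : Rad Ω g b t γ) {a : E m} {ρ R : ℝ} (hρ : 0 < ρ) (hρR : ρ ≤ R)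
    (hR : closedBall a R ⊆ Ω) (hz : ∀ᵐ x ∂(volume.restrict (ball a ρ)), g x = 0) :
    ∀ᵐ x ∂(volume.restrict (ball a R)), g x = 0 := by
  have hR0 := hρ.trans_le hρR
  apply h.zero_of_JJ hR0 hR
  have hF := h.freq hR
  by_contra hne
  have hpos : 0 < JJ g a R R := lt_of_le_of_ne (hF.J0 R hR0 le_rfl) (Ne.symm hne)
  have h1 : 0 < JJ g a R ρ := hF.pos hR0 le_rfl hpos ρ hρ hρR
  have h2 : JJ g a R ρ = 0 := by
    rw [h.JJ_eq hR]
    apply integral_eq_zero_of_ae
    have h3 : ∀ᵐ x ∂(volume : Measure (E m)), x ∈ ball a ρ → g x = 0 :=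
      (ae_restrict_iff' measurableSet_ball).1 hz
    filter_upwards [ae_restrict_of_ae h3] with x hx
    show p (sc a ρ x) ^ 2 * g x = 0
    by_cases hxb : x ∈ ball a ρ
    · rw [hx hxb, mul_zero]
    · rw [p_zero (sc_ge' hρ hxb)]
      norm_num
  linarith

/-- `g` vanishes near a point where its zero set has density one -/
lemma Rad.dens (h : Rad Ω g b t γ) (hΩ : IsOpen Ω) {a : E m} (ha : a ∈ Ω)
    (hd : ∀ ε : ℝ, 0 < ε → ∃ᶠ r in 𝓝[>] (0:ℝ),
      volume (closedBall a r ∩ {x | g x ≠ 0}) ≤ ENNReal.ofReal (ε * r ^ m)) :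
    ∃ ρ : ℝ, 0 < ρ ∧ ∀ᵐ x ∂(volume.restrict (ball a ρ)), g x = 0 := by
  obtain ⟨R, hR0, hR⟩ := Metric.nhds_basis_closedBall.mem_iff.1 (hΩ.mem_nhds ha)
  refine ⟨R, hR0, ?_⟩
  have hF := h.freq hR
  apply h.zero_of_JJ hR0 hR
  by_contra hne
  have hpos : 0 < JJ g a R R := lt_of_le_of_ne (hF.J0 R hR0 le_rfl) (Ne.symm hne)
  obtain ⟨C, hC, hdb⟩ := hF.doubling hR0 le_rfl hpos
  have hdb' : ∀ r, 0 < r → 4 * r ≤ R → JJ g a R (4 * r) ≤ C * JJ g a R r := hdb
  have hcm := cm_pos m
  have hε : 0 < cm m / (4 * C) := by positivity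
  obtain ⟨r, hr1, hr2⟩ := ((hd _ hε).and_eventually
    (Ioc_mem_nhdsGT (show (0:ℝ) < R / 4 by linarith))).exists
  have hr0 : 0 < r := hr2.1
  have hrR : 4 * r ≤ R := by linarith [hr2.2]
  set Y := ∫ x in closedBall a (2 * r), g x with hY
  have hsub2 : closedBall a (2 * r) ⊆ closedBall a R := closedBall_subset_closedBall (by linarith)
  have hg2 := h.gi _ (hsub2.trans hR) (isCompact_closedBall a (2 * r))
  have hsub1 : closedBall a r ⊆ closedBall a (2 * r) := closedBall_subset_closedBall (by linarith)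
  have hg1 := hg2.mono_set hsub1
  -- upper bound at almost every point
  have hub : ∀ᵐ x ∂(volume.restrict (closedBall a r)), g x ≤ Y / r ^ m / cm m := by
    filter_upwards [ae_restrict_of_ae (h.sub hΩ), ae_restrict_mem measurableSet_closedBall]
      with x hx hxb
    have hs : closedBall x r ⊆ closedBall a (2 * r) := by
      apply closedBall_subset_closedBall'
      have : dist x a ≤ r := hxb
      linarith
    have h1 := hx (hR (hsub2 (hsub1 hxb))) r hr0 (hs.trans (hsub2.trans hR))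
    have h2 : ∫ y in closedBall x r, g y ≤ Y := by
      apply setIntegral_mono_set hg2
      · filter_upwards with y
        exact h.g0 y
      · exact hs.eventuallyLE
    rw [le_div_iff₀ hcm]
    calc g x * cm m = cm m * g x := mul_comm _ _
      _ ≤ (∫ y in closedBall x r, g y) / r ^ m := h1
      _ ≤ Y / r ^ m := div_le_div_of_nonneg_right h2 (by positivity)
  have hY0 : 0 ≤ Y := integral_nonneg fun x => h.g0 x
  set M := Y / r ^ m / cm m with hM
  have hM0 : 0 ≤ M := by positivity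
  have hint : ∫ x in closedBall a r, g x ≤ M * (cm m / (4 * C) * r ^ m) := by
    have h1 : ENNReal.ofReal (∫ x in closedBall a r, g x) ≤
        ENNReal.ofReal (M * (cm m / (4 * C) * r ^ m)) := by
      rw [ofReal_integral_eq_lintegral_ofReal hg1 (ae_of_all _ h.g0)]
      calc ∫⁻ x in closedBall a r, ENNReal.ofReal (g x)
          ≤ ∫⁻ x in closedBall a r, {x | g x ≠ 0}.indicator (fun _ => ENNReal.ofReal M) x := by
            apply lintegral_mono_ae
            filter_upwards [hub] with x hx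
            by_cases h0 : g x = 0
            · rw [h0, ENNReal.ofReal_zero]
              exact zero_le
            · rw [indicator_of_mem (show x ∈ {x | g x ≠ 0} from h0)]
              exact ENNReal.ofReal_le_ofReal hx
        _ ≤ ENNReal.ofReal M * (volume.restrict (closedBall a r)) {x | g x ≠ 0} :=
            lintegral_indicator_const_le _ _
        _ = ENNReal.ofReal M * volume (closedBall a r ∩ {x | g x ≠ 0}) := by
            rw [Measure.restrict_apply' measurableSet_closedBall, inter_comm]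
        _ ≤ ENNReal.ofReal M * ENNReal.ofReal (cm m / (4 * C) * r ^ m) := by gcongr
        _ = ENNReal.ofReal (M * (cm m / (4 * C) * r ^ m)) := by
            rw [ENNReal.ofReal_mul hM0]
    exact (ENNReal.ofReal_le_ofReal_iff (by positivity)).1 h1
  have e1 : M * (cm m / (4 * C) * r ^ m) = Y / (4 * C) := by
    rw [hM]
    have : r ^ m ≠ 0 := by positivity
    field_simp
  rw [e1] at hint
  have h4r : 0 < 4 * r := by linarith
  have h1 := h.JJ_ge hR h4r hrR
  have e2 : 4 * r / 2 = 2 * r := by ring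
  rw [e2] at h1
  have h2 := hdb' r hr0 hrR
  have h3 := h.JJ_le hR hr0 (by linarith : r ≤ R)
  have h4 : 0 < JJ g a R r := hF.pos hR0 le_rfl hpos r hr0 (by linarith)
  have h5 : 9 / 16 * Y ≤ C * (Y / (4 * C)) := by
    calc 9 / 16 * Y ≤ JJ g a R (4 * r) := h1
      _ ≤ C * JJ g a R r := h2
      _ ≤ C * (Y / (4 * C)) := by
        apply mul_le_mul_of_nonneg_left _ hC.le
        linarith
  have h6 : C * (Y / (4 * C)) = Y / 4 := by field_simp
  rw [h6] at h5
  have h7 : Y ≤ 0 := by linarith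
  have h8 : Y / (4 * C) ≤ 0 := div_nonpos_of_nonpos_of_nonneg h7 (by positivity)
  linarith

/-- unique continuation in a connected open set -/
theorem Rad.main (h : Rad Ω g b t γ) (hΩ : IsOpen Ω) (hc : IsPreconnected Ω) {a : E m}
    (ha : a ∈ Ω)
    (hd : ∀ ε : ℝ, 0 < ε → ∃ᶠ r in 𝓝[>] (0:ℝ),
      volume (closedBall a r ∩ {x | g x ≠ 0}) ≤ ENNReal.ofReal (ε * r ^ m)) :
    ∀ᵐ x ∂(volume.restrict Ω), g x = 0 := by
  set Z : Set (E m) := {x | ∃ ρ : ℝ, 0 < ρ ∧ ∀ᵐ y ∂(volume.restrict (ball x ρ)), g y = 0} with hZ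
  have hZo : IsOpen Z := by
    rw [Metric.isOpen_iff]
    rintro x ⟨ρ, hρ, hx⟩
    refine ⟨ρ / 2, by linarith, ?_⟩
    intro y hy
    refine ⟨ρ / 2, by linarith, ?_⟩
    apply ae_restrict_of_ae_restrict_of_subset _ hx
    apply ball_subset_ball'
    have : dist y x < ρ / 2 := hy
    linarith
  have hsub : Ω ⊆ Z := by
    apply hc.subset_of_closure_inter_subset hZo
    · exact ⟨a, ha, h.dens hΩ ha hd⟩
    · rintro x ⟨hx1, hx2⟩
      obtain ⟨R, hR0, hR⟩ := Metric.nhds_basis_closedBall.mem_iff.1 (hΩ.mem_nhds hx2)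
      obtain ⟨y, hyZ, hyd⟩ := Metric.mem_closure_iff.1 hx1 (R / 3) (by linarith)
      obtain ⟨ρ, hρ, hρy⟩ := hyZ
      have hs : closedBall y (2 * R / 3) ⊆ Ω := by
        refine Subset.trans ?_ hR
        apply closedBall_subset_closedBall'
        rw [dist_comm] at hyd
        linarith
      have h1 : ∀ᵐ z ∂(volume.restrict (ball y (min ρ (2 * R / 3)))), g z = 0 :=
        ae_restrict_of_ae_restrict_of_subset (ball_subset_ball (min_le_left _ _)) hρy
      have h2 := h.spread (lt_min hρ (by linarith)) (min_le_right _ _) hs h1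
      refine ⟨R / 3, by linarith, ?_⟩
      apply ae_restrict_of_ae_restrict_of_subset _ h2
      apply ball_subset_ball'
      linarith
  rw [ae_restrict_iff' hΩ.measurableSet, ae_iff]
  apply measure_null_of_locally_null
  intro x hx
  have hxΩ : x ∈ Ω := by
    by_contra hcon
    exact hx fun h => absurd h hcon
  obtain ⟨ρ, hρ, hρx⟩ := hsub hxΩ
  rw [ae_restrict_iff' measurableSet_ball, ae_iff] at hρx
  refine ⟨ball x ρ ∩ {x | ¬ (x ∈ Ω → g x = 0)}, ?_, ?_⟩
  · exact inter_mem (mem_nhdsWithin_of_mem_nhds (ball_mem_nhds x hρ)) self_mem_nhdsWithin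
  · rw [← nonpos_iff_eq_zero, ← hρx]
    apply measure_mono
    rintro y ⟨hy1, hy2⟩ hy3
    exact hy2 fun _ => hy3 hy1

end

end Pool.Agent.Q261.QV
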