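import Mathlib
import Pool.Agent.Q261.QV.Ids
import Pool.Agent.Q261.QV.Sub

/-!
The radial identities of a stationary family.
-/

namespace Pool.Agent.Q261.QV

open MeasureTheory Set Filter Topology Metric
open Pool.Agent.TH337.VF (E Wt)
open scoped RealInnerProductSpace ENNReal

variable {m n Q : ℕ}

lemma hasFDerivAt_sc (a : E m) (r : ℝ) (x : E m) :
    HasFDerivAt (sc a r) ((2 / r ^ 2) • innerSL ℝ (x - a)) x := by
  have h1 := (Pool.Agent.TH337.VF.hasFDerivAt_sq a x).const_mul (1 / r ^ 2)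
  have e1 : (fun y : E m => 1 / r ^ 2 * ‖y - a‖ ^ 2) = sc a r := by
    funext y
    unfold sc
    ring
  have e2 : (1 / r ^ 2) • ((2:ℝ) • innerSL ℝ (x - a)) = (2 / r ^ 2) • innerSL ℝ (x - a) := by
    rw [smul_smul]
    congr 1
    ring
  rw [← e1, ← e2]
  exact h1

lemma sc_contDiff (a : E m) (r : ℝ) : ContDiff ℝ 1 (sc a r) := by
  unfold sc
  exact (Pool.Agent.TH337.VF.contDiff_sq a).div_const _

/-- radial function -/
noncomputable def rf (f : ℝ → ℝ) (a : E m) (r : ℝ) (x : E m) : ℝ := f (sc a r x)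

/-- radial field -/
noncomputable def rv (f : ℝ → ℝ) (a : E m) (r : ℝ) (x : E m) : E m := f (sc a r x) • (x - a)

section
variable {f f' : ℝ → ℝ}

lemma hasFDerivAt_rf (hf : Wt f f') (a : E m) (r : ℝ) (x : E m) :
    HasFDerivAt (rf f a r) ((f' (sc a r x) * (2 / r ^ 2)) • innerSL ℝ (x - a)) x := by
  have h1 := (hf.der (sc a r x)).comp_hasFDerivAt x (hasFDerivAt_sc a r x)
  rw [smul_smul] at h1
  exact h1

lemma rf_contDiff (hf : Wt f f') (a : E m) (r : ℝ) : ContDiff ℝ 1 (rf f a r) :=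
  hf.contDiff.comp (sc_contDiff a r)

lemma rf_zero (hf : Wt f f') {a : E m} {r : ℝ} (hr : 0 < r) {x : E m} (hx : x ∉ closedBall a r) :
    rf f a r x = 0 := hf.zero _ (sc_ge hr hx)

lemma hasFDerivAt_rv (hf : Wt f f') (a : E m) (r : ℝ) (x : E m) :
    HasFDerivAt (rv f a r) (f (sc a r x) • ContinuousLinearMap.id ℝ (E m) +
      ((f' (sc a r x) * (2 / r ^ 2)) • innerSL ℝ (x - a)).smulRight (x - a)) x :=
  (hasFDerivAt_rf hf a r x).smul ((hasFDerivAt_id x).sub_const a)

lemma rv_contDiff (hf : Wt f f') (a : E m) (r : ℝ) : ContDiff ℝ 1 (rv f a r) :=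
  (rf_contDiff hf a r).smul (contDiff_id.sub contDiff_const)

lemma rv_zero (hf : Wt f f') {a : E m} {r : ℝ} (hr : 0 < r) {x : E m} (hx : x ∉ closedBall a r) :
    rv f a r x = 0 := by
  unfold rv
  rw [hf.zero _ (sc_ge hr hx), zero_smul]

lemma sum_sq (v : E m) : ∑ i, v i * v i = ‖v‖ ^ 2 := by
  rw [EuclideanSpace.norm_sq_eq]
  exact Finset.sum_congr rfl fun i _ => by rw [Real.norm_eq_abs, sq_abs, sq]

lemma dv_rv (hf : Wt f f') (a : E m) {r : ℝ} (x : E m) :
    dv (fderiv ℝ (rv f a r) x) = m * f (sc a r x) + 2 * sc a r x * f' (sc a r x) := by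
  rw [dv_eq, (hasFDerivAt_rv hf a r x).fderiv]
  have e1 : ∀ i : Fin m, ⟪(eb i : E m), (f (sc a r x) • ContinuousLinearMap.id ℝ (E m) +
      ((f' (sc a r x) * (2 / r ^ 2)) • innerSL ℝ (x - a)).smulRight (x - a)) (eb i)⟫ =
      f (sc a r x) + (f' (sc a r x) * (2 / r ^ 2)) * ((x - a) i * (x - a) i) := by
    intro i
    have h1 : ⟪(eb i : E m), eb i⟫ = 1 := by
      rw [real_inner_self_eq_norm_sq, eb_norm]
      norm_num
    have h2 : ⟪x - a, (eb i : E m)⟫ = (x - a) i := by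
      rw [real_inner_comm, inner_eb]
    simp only [add_apply, smul_apply,
      ContinuousLinearMap.id_apply, ContinuousLinearMap.smulRight_apply, innerSL_apply_apply,
      inner_add_right, inner_smul_right, smul_eq_mul]
    rw [h1, h2, inner_eb]
    ring
  simp only [e1]
  rw [Finset.sum_add_distrib, ← Finset.mul_sum, sum_sq]
  simp only [Finset.sum_const, Finset.card_univ, Fintype.card_fin, nsmul_eq_mul]
  unfold sc
  ring

end

variable {Ω : Set (E m)} {u : Fin Q → E m → E n} {A : Fin Q → E m → E m →L[ℝ] E n}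

lemma hs_self_nonneg (L : E m →L[ℝ] E n) : 0 ≤ hs L L :=
  Finset.sum_nonneg fun _ _ => real_inner_self_nonneg

lemma hs_self_le (L : E m →L[ℝ] E n) : hs L L ≤ m * ‖L‖ ^ 2 := by
  unfold hs
  calc ∑ i, ⟪L (eb i), L (eb i)⟫ ≤ ∑ _i : Fin m, ‖L‖ ^ 2 := by
        apply Finset.sum_le_sum
        intro i _
        rw [real_inner_self_eq_norm_sq]
        have h := L.le_opNorm (eb i)
        rw [eb_norm, mul_one] at h
        exact pow_le_pow_left₀ (norm_nonneg _) h 2
    _ = m * ‖L‖ ^ 2 := by simp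

lemma cont_hs : Continuous fun L : E m →L[ℝ] E n => hs L L := by
  unfold hs
  fun_prop

lemma int_gg (mu : ∀ k, Measurable (u k)) {K : Set (E m)}
    (en : ∀ k, IntegrableOn (fun x => ‖u k x‖ ^ 2 + ‖A k x‖ ^ 2) K) :
    IntegrableOn (fun x => ∑ k, ‖u k x‖ ^ 2) K := by
  apply integrable_finsetSum
  intro k _
  refine (en k).mono' ?_ ?_
  · exact ((mu k).norm.pow_const 2).aestronglyMeasurable
  · filter_upwards with x
    rw [Real.norm_of_nonneg (by positivity)]
    have := sq_nonneg ‖A k x‖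
    linarith

lemma int_bb (mA : ∀ k, Measurable (A k)) {K : Set (E m)}
    (en : ∀ k, IntegrableOn (fun x => ‖u k x‖ ^ 2 + ‖A k x‖ ^ 2) K) :
    IntegrableOn (fun x => ∑ k, hs (A k x) (A k x)) K := by
  apply integrable_finsetSum
  intro k _
  refine ((en k).const_mul (m:ℝ)).mono' ?_ ?_
  · exact (cont_hs.measurable.comp (mA k)).aestronglyMeasurable
  · filter_upwards with x
    rw [Real.norm_of_nonneg (hs_self_nonneg _)]
    have h1 := hs_self_le (A k x)
    have h2 : (m:ℝ) * ‖A k x‖ ^ 2 ≤ m * (‖u k x‖ ^ 2 + ‖A k x‖ ^ 2) := by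
      apply mul_le_mul_of_nonneg_left _ (Nat.cast_nonneg _)
      have := sq_nonneg ‖u k x‖
      linarith
    exact h1.trans h2

lemma meas_AV (mA : ∀ k, Measurable (A k)) (k : Fin Q) (a : E m) :
    Measurable fun x => A k x (x - a) := by
  have h1 : Measurable fun x : E m => x - a := measurable_id.sub_const a
  exact isBoundedBilinearMap_apply.continuous.measurable.comp ((mA k).prodMk h1)

lemma int_γγ (mA : ∀ k, Measurable (A k)) {K : Set (E m)} (hK : IsCompact K)
    (en : ∀ k, IntegrableOn (fun x => ‖u k x‖ ^ 2 + ‖A k x‖ ^ 2) K) (a : E m) :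
    IntegrableOn (fun x => ∑ k, ‖A k x (x - a)‖ ^ 2) K := by
  apply integrable_finsetSum
  intro k _
  have hc : Continuous fun x : E m => ‖x - a‖ ^ 2 := by fun_prop
  have h0 : IntegrableOn (fun x => ‖x - a‖ ^ 2 * (‖u k x‖ ^ 2 + ‖A k x‖ ^ 2)) K :=
    (en k).continuousOn_mul hc.continuousOn hK
  refine h0.mono' ?_ ?_
  · exact ((meas_AV mA k a).norm.pow_const 2).aestronglyMeasurable
  · filter_upwards with x
    rw [Real.norm_of_nonneg (by positivity)]
    have h1 := (A k x).le_opNorm (x - a)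
    have h2 := pow_le_pow_left₀ (norm_nonneg _) h1 2
    rw [mul_pow] at h2
    nlinarith [mul_nonneg (sq_nonneg ‖x - a‖) (sq_nonneg ‖u k x‖)]

lemma int_tt (mu : ∀ k, Measurable (u k)) (mA : ∀ k, Measurable (A k)) {K : Set (E m)}
    (hK : IsCompact K) (en : ∀ k, IntegrableOn (fun x => ‖u k x‖ ^ 2 + ‖A k x‖ ^ 2) K) (a : E m) :
    IntegrableOn (fun x => ∑ k, ⟪u k x, A k x (x - a)⟫) K := by
  refine ((int_gg mu en).add (int_γγ mA hK en a)).mono' ?_ ?_
  · apply Measurable.aestronglyMeasurable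
    apply Finset.measurable_sum
    intro k _
    exact (mu k).inner (meas_AV mA k a)
  · filter_upwards with x
    rw [Real.norm_eq_abs]
    refine (Finset.abs_sum_le_sum_abs _ _).trans ?_
    simp only [Pi.add_apply]
    rw [← Finset.sum_add_distrib]
    apply Finset.sum_le_sum
    intro k _
    have h1 := abs_real_inner_le_norm (u k x) (A k x (x - a))
    nlinarith [sq_nonneg (‖u k x‖ - ‖A k x (x - a)‖), sq_nonneg ‖u k x‖,
      sq_nonneg ‖A k x (x - a)‖]

lemma St.R1 (h : St Ω u A) {a : E m} {r R : ℝ} (hr : 0 < r) (hrR : r ≤ R)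
    (hR : closedBall a R ⊆ Ω) :
    ∫ x in closedBall a R, ((m * p (sc a r x) ^ 2 - 4 * sc a r x * p (sc a r x)) *
      (∑ k, ‖u k x‖ ^ 2) + 2 * (p (sc a r x) ^ 2 * ∑ k, ⟪u k x, A k x (x - a)⟫)) = 0 := by
  have hbR : closedBall a r ⊆ closedBall a R := closedBall_subset_closedBall hrR
  have h1 := h.quad (isCompact_closedBall a r) (hbR.trans hR) (rv_contDiff wt2 a r)
    (fun x hx => rv_zero wt2 hr hx)
  rw [← h1]
  have e : ∀ x, (∑ k, (dv (fderiv ℝ (rv (fun s => p s ^ 2) a r) x) * ‖u k x‖ ^ 2 +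
      2 * ⟪u k x, A k x (rv (fun s => p s ^ 2) a r x)⟫)) =
      ((m * p (sc a r x) ^ 2 - 4 * sc a r x * p (sc a r x)) *
      (∑ k, ‖u k x‖ ^ 2) + 2 * (p (sc a r x) ^ 2 * ∑ k, ⟪u k x, A k x (x - a)⟫)) := by
    intro x
    rw [dv_rv wt2]
    have e2 : ∀ k, ⟪u k x, A k x (rv (fun s => p s ^ 2) a r x)⟫ =
        p (sc a r x) ^ 2 * ⟪u k x, A k x (x - a)⟫ := by
      intro k
      unfold rv
      rw [map_smul, inner_smul_right]
    simp only [e2]
    rw [Finset.sum_add_distrib, ← Finset.mul_sum, ← Finset.mul_sum, ← Finset.mul_sum]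
    ring
  simp only [e]
  apply setIntegral_eq_integral_of_forall_compl_eq_zero
  intro x hx
  have hx' : x ∉ closedBall a r := fun hc => hx (hbR hc)
  rw [p_zero (sc_ge hr hx')]
  ring

lemma St.R2 (h : St Ω u A) {a : E m} {r R : ℝ} (hr : 0 < r) (hrR : r ≤ R)
    (hR : closedBall a R ⊆ Ω) :
    r ^ 2 * ∫ x in closedBall a R, p (sc a r x) ^ 3 * ∑ k, hs (A k x) (A k x) =
      6 * ∫ x in closedBall a R, p (sc a r x) ^ 2 * ∑ k, ⟪u k x, A k x (x - a)⟫ := by
  have hbR : closedBall a r ⊆ closedBall a R := closedBall_subset_closedBall hrR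
  have hK := isCompact_closedBall a R
  have h1 := h.outq (isCompact_closedBall a r) (hbR.trans hR) (rf_contDiff wt3 a r)
    (fun x hx => rf_zero wt3 hr hx)
  have e : ∀ x, (∑ k, (rf (fun s => p s ^ 3) a r x * hs (A k x) (A k x) +
      ∑ i, fderiv ℝ (rf (fun s => p s ^ 3) a r) x (eb i) * ⟪A k x (eb i), u k x⟫)) =
      p (sc a r x) ^ 3 * (∑ k, hs (A k x) (A k x)) -
        6 / r ^ 2 * (p (sc a r x) ^ 2 * ∑ k, ⟪u k x, A k x (x - a)⟫) := by
    intro x
    rw [(hasFDerivAt_rf wt3 a r x).fderiv]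
    have e2 : ∀ k, ∑ i, ((-3 * p (sc a r x) ^ 2 * (2 / r ^ 2)) • innerSL ℝ (x - a)) (eb i) *
        ⟪A k x (eb i), u k x⟫ = - (6 / r ^ 2) * (p (sc a r x) ^ 2 * ⟪u k x, A k x (x - a)⟫) := by
      intro k
      rw [apply_eq_sum (A k x) (x - a), inner_sum, Finset.mul_sum, Finset.mul_sum]
      apply Finset.sum_congr rfl
      intro i _
      rw [smul_apply, innerSL_apply_apply, real_inner_comm (eb i) (x - a),
        inner_eb, inner_smul_right, smul_eq_mul, real_inner_comm (u k x)]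
      ring
    simp only [e2]
    rw [Finset.sum_add_distrib, ← Finset.mul_sum, ← Finset.mul_sum, ← Finset.mul_sum]
    unfold rf
    ring
  simp only [e] at h1
  have i1 : IntegrableOn (fun x => p (sc a r x) ^ 3 * (∑ k, hs (A k x) (A k x)))
      (closedBall a R) := wint ((wp a r).pow 3) (int_bb h.mA (h.en _ hR hK))
  have i2 : IntegrableOn (fun x => 6 / r ^ 2 *
      (p (sc a r x) ^ 2 * ∑ k, ⟪u k x, A k x (x - a)⟫)) (closedBall a R) :=
    (wint ((wp a r).pow 2) (int_tt h.mu h.mA hK (h.en _ hR hK) a)).const_mul _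
  have h2 : ∫ x in closedBall a R, (p (sc a r x) ^ 3 * (∑ k, hs (A k x) (A k x)) -
        6 / r ^ 2 * (p (sc a r x) ^ 2 * ∑ k, ⟪u k x, A k x (x - a)⟫)) = 0 := by
    rw [← h1]
    apply setIntegral_eq_integral_of_forall_compl_eq_zero
    intro x hx
    have hx' : x ∉ closedBall a r := fun hc => hx (hbR hc)
    rw [p_zero (sc_ge hr hx')]
    ring
  rw [integral_sub i1 i2, integral_const_mul] at h2
  field_simp at h2
  linarith

lemma St.R3 (h : St Ω u A) {a : E m} {r R : ℝ} (hr : 0 < r) (hrR : r ≤ R)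
    (hR : closedBall a R ⊆ Ω) :
    ∫ x in closedBall a R,
      ((((m:ℝ) - 2) * p (sc a r x) ^ 3 - 6 * sc a r x * p (sc a r x) ^ 2) *
        (∑ k, hs (A k x) (A k x)) +
      12 / r ^ 2 * (p (sc a r x) ^ 2 * ∑ k, ‖A k x (x - a)‖ ^ 2)) = 0 := by
  have hbR : closedBall a r ⊆ closedBall a R := closedBall_subset_closedBall hrR
  have hcs : HasCompactSupport (rv (fun s => p s ^ 3) a r) :=
    HasCompactSupport.intro (isCompact_closedBall a r) (fun x hx => rv_zero wt3 hr hx)
  have hts : tsupport (rv (fun s => p s ^ 3) a r) ⊆ closedBall a r := by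
    apply closure_minimal _ isClosed_closedBall
    intro x hx
    by_contra hc
    exact hx (rv_zero wt3 hr hc)
  have h1 := h.inner (rv (fun s => p s ^ 3) a r) (rv_contDiff wt3 a r) hcs
    (hts.trans (hbR.trans hR))
  rw [← h1]
  have e : ∀ x, (∑ k, (hs (A k x) (A k x) * dv (fderiv ℝ (rv (fun s => p s ^ 3) a r) x) -
        2 * hs (A k x) (A k x ∘L fderiv ℝ (rv (fun s => p s ^ 3) a r) x))) =
      ((((m:ℝ) - 2) * p (sc a r x) ^ 3 - 6 * sc a r x * p (sc a r x) ^ 2) *
        (∑ k, hs (A k x) (A k x)) +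
      12 / r ^ 2 * (p (sc a r x) ^ 2 * ∑ k, ‖A k x (x - a)‖ ^ 2)) := by
    intro x
    rw [dv_rv wt3]
    have e2 : ∀ k, hs (A k x) (A k x ∘L fderiv ℝ (rv (fun s => p s ^ 3) a r) x) =
        p (sc a r x) ^ 3 * hs (A k x) (A k x) -
          6 / r ^ 2 * (p (sc a r x) ^ 2 * ‖A k x (x - a)‖ ^ 2) := by
      intro k
      rw [(hasFDerivAt_rv wt3 a r x).fderiv]
      unfold hs
      have e3 : ∀ i : Fin m, ⟪A k x (eb i), (A k x ∘L (p (sc a r x) ^ 3 •
          ContinuousLinearMap.id ℝ (E m) + ((-3 * p (sc a r x) ^ 2 * (2 / r ^ 2)) •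
            innerSL ℝ (x - a)).smulRight (x - a))) (eb i)⟫ =
          p (sc a r x) ^ 3 * ⟪A k x (eb i), A k x (eb i)⟫ -
            6 / r ^ 2 * (p (sc a r x) ^ 2 * ⟪(x - a) i • A k x (eb i), A k x (x - a)⟫) := by
        intro i
        have h2 : ⟪x - a, (eb i : E m)⟫ = (x - a) i := by
          rw [real_inner_comm, inner_eb]
        simp only [ContinuousLinearMap.coe_comp, Function.comp_apply, add_apply,
          smul_apply, ContinuousLinearMap.id_apply,
          ContinuousLinearMap.smulRight_apply, innerSL_apply_apply, map_add, map_smul,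
          inner_add_right, inner_smul_right, inner_smul_left, smul_eq_mul]
        rw [h2]
        simp only [conj_trivial]
        ring
      simp only [e3]
      rw [Finset.sum_sub_distrib, ← Finset.mul_sum, ← Finset.mul_sum, ← Finset.mul_sum,
        ← sum_inner, ← apply_eq_sum (A k x) (x - a), real_inner_self_eq_norm_sq]
    simp only [e2]
    rw [Finset.mul_sum, Finset.mul_sum, Finset.mul_sum, ← Finset.sum_add_distrib]
    apply Finset.sum_congr rfl
    intro k _
    ring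
  simp only [e]
  apply setIntegral_eq_integral_of_forall_compl_eq_zero
  intro x hx
  have hx' : x ∉ closedBall a r := fun hc => hx (hbR hc)
  rw [p_zero (sc_ge hr hx')]
  ring

end Pool.Agent.Q261.QV
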