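import Mathlib
import Pool.Agent.Q261.QV.Radial

/-!
Weyl's lemma for the radial profile.
-/

namespace Pool.Agent.Q261.QV

open MeasureTheory Set Filter Topology Metric
open Pool.Agent.TH337.VF (E Wt I hasDerivAt_I)
open scoped RealInnerProductSpace ENNReal

variable {m n Q : ℕ}

lemma hasDerivAt_p4 (s : ℝ) : HasDerivAt (fun s => p s ^ 4) (-4 * p s ^ 3) s := by
  have h1 := (hasDerivAt_p2 s).mul (hasDerivAt_p2 s)
  have e : (fun s => p s ^ 4) = (fun s => p s ^ 2) * (fun s => p s ^ 2) := by
    funext s
    show p s ^ 4 = p s ^ 2 * p s ^ 2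
    ring
  rw [e]
  have e2 : -4 * p s ^ 3 = -2 * p s * p s ^ 2 + p s ^ 2 * (-2 * p s) := by ring
  rw [e2]
  exact h1

lemma wt4 : Wt (fun s => p s ^ 4) (fun s => -4 * p s ^ 3) where
  der := hasDerivAt_p4
  cont := continuous_const.mul (p_cont.pow 3)
  nonpos := fun u _ => by
    have := pow_nonneg (p_nonneg u) 3
    show -4 * p u ^ 3 ≤ 0
    linarith
  zero := fun u hu => by
    show p u ^ 4 = 0
    rw [p_zero hu]
    norm_num
  zero' := fun u hu => by
    show -4 * p u ^ 3 = 0
    rw [p_zero hu]
    norm_num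

/-- the mean value of the profile -/
noncomputable def c3 (m : ℕ) : ℝ := ∫ y in closedBall (0 : E m) 1, p (‖y‖ ^ 2) ^ 3

lemma c3_pos (m : ℕ) : 0 < c3 m := by
  unfold c3
  have hc : Continuous fun y : E m => p (‖y‖ ^ 2) ^ 3 := (p_cont.comp (by fun_prop)).pow 3
  rw [setIntegral_pos_iff_support_of_nonneg_ae]
  · have h1 : ball (0 : E m) 1 ⊆ Function.support (fun y : E m => p (‖y‖ ^ 2) ^ 3) ∩
        closedBall 0 1 := by
      intro y hy
      refine ⟨?_, ball_subset_closedBall hy⟩
      have h2 : ‖y‖ < 1 := by simpa using hy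
      have h3 : ‖y‖ ^ 2 < 1 := by nlinarith [norm_nonneg y]
      have h4 := p_pos h3
      show p (‖y‖ ^ 2) ^ 3 ≠ 0
      positivity
    exact lt_of_lt_of_le (measure_ball_pos volume 0 one_pos) (measure_mono h1)
  · filter_upwards with y
    have := p_nonneg (‖y‖ ^ 2)
    show 0 ≤ p (‖y‖ ^ 2) ^ 3
    positivity
  · exact hc.continuousOn.integrableOn_compact (isCompact_closedBall _ _)

/-- scaling of the profile -/
lemma int_profile (x : E m) {r ε : ℝ} (hr : 0 < r) (hrε : r ≤ ε) :
    ∫ y in closedBall x ε, p (sc x r y) ^ 3 = r ^ m * c3 m := by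
  have h1 : ∫ y in closedBall x ε, p (sc x r y) ^ 3 = ∫ y, p (sc x r y) ^ 3 := by
    apply setIntegral_eq_integral_of_forall_compl_eq_zero
    intro y hy
    have hy' : y ∉ closedBall x r := fun hc => hy (closedBall_subset_closedBall hrε hc)
    rw [p_zero (sc_ge hr hy')]
    norm_num
  have h2 : c3 m = ∫ y : E m, p (‖y‖ ^ 2) ^ 3 := by
    apply setIntegral_eq_integral_of_forall_compl_eq_zero
    intro y hy
    have h3 : 1 < ‖y‖ := by simpa using hy
    have h4 : 1 ≤ ‖y‖ ^ 2 := by nlinarith
    rw [p_zero h4]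
    norm_num
  rw [h1, h2]
  have h3 : ∫ y, p (sc x r y) ^ 3 = ∫ y : E m, p (‖(r⁻¹) • y‖ ^ 2) ^ 3 := by
    rw [← integral_sub_right_eq_self (fun y : E m => p (‖(r⁻¹) • y‖ ^ 2) ^ 3) x]
    apply integral_congr_ae
    filter_upwards with y
    unfold sc
    rw [norm_smul, mul_pow, norm_inv, Real.norm_of_nonneg hr.le]
    congr 2
    rw [inv_pow]
    field_simp
  rw [h3, Measure.integral_comp_smul volume (fun y : E m => p (‖y‖ ^ 2) ^ 3) r⁻¹,
    finrank_euclideanSpace, Fintype.card_fin, smul_eq_mul]
  congr 1
  rw [inv_pow, inv_inv, abs_of_pos (by positivity)]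

/-- Weyl's lemma, scalar form -/
lemma weyl_scalar {f : E m → ℝ} {a : E m} {R' ε : ℝ} (hε : 0 < ε)
    (hf : IntegrableOn f (closedBall a R'))
    (hh : ∀ x r, 0 < r → r ≤ ε → closedBall x ε ⊆ closedBall a R' →
      ∫ y in closedBall x ε, (m * p (sc x r y) ^ 3 - 6 * sc x r y * p (sc x r y) ^ 2) * f y = 0) :
    ∀ᵐ x ∂(volume : Measure (E m)), closedBall x ε ⊆ closedBall a R' →
      ∫ y in closedBall x ε, p (sc x ε y) ^ 3 * f y = ε ^ m * c3 m * f x := by
  set F : E m → ℝ := (closedBall a R').indicator f with hF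
  have hFi : Integrable F := (integrable_indicator_iff measurableSet_closedBall).2 hf
  have hL := IsUnifLocDoublingMeasure.ae_tendsto_average_norm_sub (volume : Measure (E m))
    hFi.locallyIntegrable 1
  filter_upwards [hL] with x hx hxε
  have hfx : IntegrableOn f (closedBall x ε) := hf.mono_set hxε
  have hpos : IntegrableOn (fun y => max (f y) 0) (closedBall x ε) := hfx.pos_part
  have hneg : IntegrableOn (fun y => max (-f y) 0) (closedBall x ε) := hfx.neg.pos_part
  have f1 := den_finite hpos
  have f2 := den_finite hneg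
  have hsplit : ∀ y, f y = max (f y) 0 - max (-f y) 0 := by
    intro y
    rcases le_total (f y) 0 with h | h
    · rw [max_eq_right h, max_eq_left (by linarith)]
      ring
    · rw [max_eq_left h, max_eq_right (by linarith)]
      ring
  -- the function `J`
  set J : ℝ → ℝ := fun r => ∫ y in closedBall x ε, p (sc x r y) ^ 3 * f y with hJ
  have hJe : ∀ r, J r = I (fun s => p s ^ 3) (den (fun y => max (f y) 0) x ε) x r -
      I (fun s => p s ^ 3) (den (fun y => max (-f y) 0) x ε) x r := by
    intro r
    have ip : IntegrableOn (fun y => p (sc x r y) ^ 3 * max (f y) 0) (closedBall x ε) :=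
      wint ((p_cont.comp (sc_cont x r)).pow 3) hpos
    have iq : IntegrableOn (fun y => p (sc x r y) ^ 3 * max (-f y) 0) (closedBall x ε) :=
      wint ((p_cont.comp (sc_cont x r)).pow 3) hneg
    unfold I
    rw [den_integral hpos (fun y => le_max_right _ _), den_integral hneg (fun y => le_max_right _ _)]
    show ∫ y in closedBall x ε, p (sc x r y) ^ 3 * f y =
      (∫ y in closedBall x ε, p (sc x r y) ^ 3 * max (f y) 0) -
      ∫ y in closedBall x ε, p (sc x r y) ^ 3 * max (-f y) 0
    rw [← integral_sub ip iq]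
    apply integral_congr_ae
    filter_upwards with y
    show p (sc x r y) ^ 3 * f y = p (sc x r y) ^ 3 * max (f y) 0 - p (sc x r y) ^ 3 * max (-f y) 0
    rw [← mul_sub, ← hsplit]
  have hJd : ∀ r, 0 < r → HasDerivAt J
      ((∫ y in closedBall x ε, 6 * sc x r y * p (sc x r y) ^ 2 * f y) / r) r := by
    intro r hr
    have h1 := (hasDerivAt_I wt3 (den (fun y => max (f y) 0) x ε) x hr).2
    have h2 := (hasDerivAt_I wt3 (den (fun y => max (-f y) 0) x ε) x hr).2
    have h3 := h1.sub h2
    have e1 : J = (I (fun s => p s ^ 3) (den (fun y => max (f y) 0) x ε) x) -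
        (I (fun s => p s ^ 3) (den (fun y => max (-f y) 0) x ε) x) := by
      funext r
      exact hJe r
    rw [e1]
    have wc : Continuous fun y : E m => 6 * sc x r y * p (sc x r y) ^ 2 :=
      (continuous_const.mul (sc_cont x r)).mul ((p_cont.comp (sc_cont x r)).pow 2)
    have e2 : ∀ g : E m → ℝ, IntegrableOn g (closedBall x ε) → (∀ y, 0 ≤ g y) →
        ∫ y, (-3 * p (‖y - x‖ ^ 2 / r ^ 2) ^ 2) * (-2 * ‖y - x‖ ^ 2 / r ^ 3) ∂(den g x ε) =
        (∫ y in closedBall x ε, 6 * sc x r y * p (sc x r y) ^ 2 * g y) / r := by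
      intro g hg g0
      rw [den_integral hg g0, ← integral_div]
      apply integral_congr_ae
      filter_upwards with y
      unfold sc
      field_simp
      ring
    rw [e2 _ hpos (fun y => le_max_right _ _), e2 _ hneg (fun y => le_max_right _ _)] at h3
    have e3 : (∫ y in closedBall x ε, 6 * sc x r y * p (sc x r y) ^ 2 * f y) / r =
        (∫ y in closedBall x ε, 6 * sc x r y * p (sc x r y) ^ 2 * max (f y) 0) / r -
        (∫ y in closedBall x ε, 6 * sc x r y * p (sc x r y) ^ 2 * max (-f y) 0) / r := by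
      rw [← sub_div, ← integral_sub (wint wc hpos) (wint wc hneg)]
      congr 1
      apply integral_congr_ae
      filter_upwards with y
      rw [← mul_sub, ← hsplit]
    rw [e3]
    exact h3
  have hzero : ∀ r, 0 < r → r ≤ ε →
      m * J r = ∫ y in closedBall x ε, 6 * sc x r y * p (sc x r y) ^ 2 * f y := by
    intro r hr hrε
    have h1 := hh x r hr hrε hxε
    have wc : Continuous fun y : E m => 6 * sc x r y * p (sc x r y) ^ 2 :=
      (continuous_const.mul (sc_cont x r)).mul ((p_cont.comp (sc_cont x r)).pow 2)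
    have i1 : IntegrableOn (fun y => p (sc x r y) ^ 3 * f y) (closedBall x ε) :=
      wint ((p_cont.comp (sc_cont x r)).pow 3) hfx
    have i2 : IntegrableOn (fun y => 6 * sc x r y * p (sc x r y) ^ 2 * f y) (closedBall x ε) :=
      wint wc hfx
    have e1 : ∫ y in closedBall x ε,
        (m * p (sc x r y) ^ 3 - 6 * sc x r y * p (sc x r y) ^ 2) * f y =
        m * J r - ∫ y in closedBall x ε, 6 * sc x r y * p (sc x r y) ^ 2 * f y := by
      rw [hJ]
      simp only
      rw [← integral_const_mul, ← integral_sub (i1.const_mul _) i2]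
      apply integral_congr_ae
      filter_upwards with y
      ring
    rw [e1] at h1
    linarith
  -- `J r / r ^ m` is constant
  have hconst : ∀ r, 0 < r → r ≤ ε → J ε / ε ^ m = J r / r ^ m := by
    intro r hr hrε
    have hder : ∀ s, 0 < s → s ≤ ε → HasDerivAt (fun s => J s / s ^ m) 0 s := by
      intro s hs hsε
      have h1 := (hJd s hs).div (hasDerivAt_pow m s) (by positivity)
      have e : ((∫ y in closedBall x ε, 6 * sc x s y * p (sc x s y) ^ 2 * f y) / s * s ^ m -
          J s * ((m:ℝ) * s ^ (m - 1))) / (s ^ m) ^ 2 = 0 := by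
        rw [← hzero s hs hsε]
        have h2 : (m:ℝ) * J s / s * s ^ m = J s * ((m:ℝ) * s ^ (m - 1)) := by
          rcases Nat.eq_zero_or_pos m with h0 | h0
          · rw [h0]
            simp
          · have h5 : s ^ m = s * s ^ (m - 1) := by
              rw [← pow_succ', Nat.sub_add_cancel h0]
            rw [h5]
            field_simp
        rw [h2, sub_self, zero_div]
      rw [e] at h1
      exact h1
    have h1 := constant_of_has_deriv_right_zero (f := fun s => J s / s ^ m) (a := r) (b := ε)
      (fun s hs => (hder s (hr.trans_le hs.1) hs.2).continuousAt.continuousWithinAt)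
      (fun s hs => (hder s (hr.trans_le hs.1) hs.2.le).hasDerivWithinAt) ε ⟨hrε, le_rfl⟩
    exact h1
  -- the limit
  have hFx : F x = f x := indicator_of_mem (hxε (mem_closedBall_self hε.le)) f
  have hlim := hx (fun _ => x) (fun δ => δ) tendsto_id
    (by
      filter_upwards [self_mem_nhdsWithin] with δ hδ
      rw [one_mul]
      exact mem_closedBall_self (le_of_lt hδ))
  have hbound : ∀ r, 0 < r → r ≤ ε → |J ε / ε ^ m - c3 m * f x| ≤
      om m * ⨍ y in closedBall x r, ‖F y - F x‖ := by
    intro r hr hrε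
    rw [hconst r hr hrε]
    have hsub : closedBall x r ⊆ closedBall x ε := closedBall_subset_closedBall hrε
    have e1 : J r - r ^ m * c3 m * f x = ∫ y in closedBall x ε, p (sc x r y) ^ 3 * (f y - f x) := by
      rw [← int_profile x hr hrε, hJ]
      simp only
      have wc : Continuous fun y : E m => p (sc x r y) ^ 3 := (p_cont.comp (sc_cont x r)).pow 3
      rw [← integral_mul_const, ← integral_sub (wint wc hfx)]
      · apply integral_congr_ae
        filter_upwards with y
        ring
      · exact (wc.continuousOn.integrableOn_compact (isCompact_closedBall _ _)).mul_const _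
    have hfr : IntegrableOn (fun y => f y - f x) (closedBall x r) :=
      (hfx.mono_set hsub).sub (integrableOn_const (measure_closedBall_lt_top.ne))
    have e2 : ∫ y in closedBall x ε, p (sc x r y) ^ 3 * (f y - f x) =
        ∫ y in closedBall x r, p (sc x r y) ^ 3 * (f y - f x) := by
      apply setIntegral_eq_of_subset_of_forall_sdiff_eq_zero measurableSet_closedBall hsub
      intro y hy
      rw [p_zero (sc_ge hr hy.2)]
      ring
    have e3 : |∫ y in closedBall x r, p (sc x r y) ^ 3 * (f y - f x)| ≤
        ∫ y in closedBall x r, ‖f y - f x‖ := by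
      rw [← Real.norm_eq_abs]
      refine (norm_integral_le_integral_norm _).trans ?_
      apply integral_mono_of_nonneg
      · filter_upwards with y
        exact norm_nonneg _
      · exact hfr.norm
      · filter_upwards with y
        rw [norm_mul]
        have h1 := p_nonneg (sc x r y)
        have h2 : p (sc x r y) ^ 3 ≤ 1 := pow_le_one₀ h1 (p_le_one (sc_nonneg _ _ _))
        rw [Real.norm_of_nonneg (by positivity : 0 ≤ p (sc x r y) ^ 3)]
        have h3 := norm_nonneg (f y - f x)
        nlinarith
    have e4 : ∫ y in closedBall x r, ‖f y - f x‖ = ∫ y in closedBall x r, ‖F y - F x‖ := by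
      apply setIntegral_congr_fun measurableSet_closedBall
      intro y hy
      show ‖f y - f x‖ = ‖F y - F x‖
      rw [hFx, hF, indicator_of_mem (hxε (hsub hy))]
    have e5 : J r / r ^ m - c3 m * f x = (J r - r ^ m * c3 m * f x) / r ^ m := by
      field_simp
    rw [e5, abs_div, abs_of_pos (by positivity : 0 < r ^ m), div_le_iff₀ (by positivity), e1, e2,
      setAverage_eq, vol_ball x hr.le, smul_eq_mul, ← e4]
    refine e3.trans (le_of_eq ?_)
    have h1 := (om_pos m).ne'
    have h2 : r ^ m ≠ 0 := by positivity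
    field_simp
  have hfin : |J ε / ε ^ m - c3 m * f x| ≤ 0 := by
    have h1 : Tendsto (fun δ => om m * ⨍ y in closedBall x δ, ‖F y - F x‖) (𝓝[>] (0:ℝ))
        (𝓝 (om m * 0)) := hlim.const_mul _
    rw [mul_zero] at h1
    refine ge_of_tendsto h1 ?_
    filter_upwards [Ioc_mem_nhdsGT hε] with r hr
    exact hbound r hr.1 hr.2
  have h2 : J ε / ε ^ m - c3 m * f x = 0 := abs_nonpos_iff.1 hfin
  have h3 : J ε = ε ^ m * c3 m * f x := by
    have h4 : ε ^ m ≠ 0 := by positivity
    field_simp at h2
    linarith
  exact h3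

end Pool.Agent.Q261.QV
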