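import Mathlib
import Pool.Agent.Q261.QV.Weyl

/-!
The sum of the sheets of a stationary family is, almost everywhere, a harmonic function of class
`C^2`.
-/

namespace Pool.Agent.Q261.QV

open MeasureTheory Set Filter Topology Metric
open Pool.Agent.TH337.VF (E Wt)
open scoped RealInnerProductSpace ENNReal Convolution

variable {m n Q : ℕ} {Ω : Set (E m)} {u : Fin Q → E m → E n} {A : Fin Q → E m → E m →L[ℝ] E n}

/-- the divergence theorem for a function which is zero off a compact set -/
lemma int_fderiv {K : Set (E m)} (hK : IsCompact K) {f : E m → ℝ} (hf : ContDiff ℝ 1 f)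
    (h0 : ∀ x ∉ K, f x = 0) (v : E m) : ∫ x, fderiv ℝ f x v = 0 := by
  have hcs : HasCompactSupport f := HasCompactSupport.intro hK h0
  have hc1 : Continuous fun x => fderiv ℝ f x v :=
    (hf.continuous_fderiv one_ne_zero).clm_apply continuous_const
  have hcs1 : HasCompactSupport fun x => fderiv ℝ f x v := by
    apply HasCompactSupport.intro hK
    intro x hx
    rw [fderiv_zero_off hK h0 hx]
    rfl
  have h1 := integral_mul_fderiv_eq_neg_fderiv_mul_of_integrable (μ := (volume : Measure (E m)))
    (f := fun _ : E m => (1:ℝ)) (g := f) (v := v)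
    (by simp)
    (by simpa using hc1.integrable_of_hasCompactSupport hcs1)
    (by simpa using hf.continuous.integrable_of_hasCompactSupport hcs)
    (fun x _ => differentiableAt_const _) (fun x _ => hf.differentiable one_ne_zero x)
  simpa using h1

lemma p3_contDiff : ContDiff ℝ 2 (fun s => p s ^ 3) := by
  rw [show (2 : WithTop ℕ∞) = 1 + 1 from rfl, contDiff_succ_iff_deriv]
  refine ⟨fun s => (hasDerivAt_p3 s).differentiableAt, by simp, ?_⟩
  have : deriv (fun s => p s ^ 3) = fun s => -3 * p s ^ 2 :=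
    funext fun s => (hasDerivAt_p3 s).deriv
  rw [this]
  exact contDiff_const.mul wt2.contDiff

lemma int_u (mu : ∀ k, Measurable (u k)) {K : Set (E m)} (hK : IsCompact K)
    (en : ∀ k, IntegrableOn (fun x => ‖u k x‖ ^ 2 + ‖A k x‖ ^ 2) K) (k : Fin Q) :
    IntegrableOn (u k) K := by
  have h0 : IntegrableOn (fun _ : E m => (1:ℝ)) K := integrableOn_const hK.measure_lt_top.ne
  refine (h0.add (en k)).mono' (mu k).aestronglyMeasurable ?_
  filter_upwards with x
  simp only [Pi.add_apply]
  nlinarith [sq_nonneg (‖u k x‖ - 1), sq_nonneg ‖A k x‖]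

lemma int_A (mA : ∀ k, Measurable (A k)) {K : Set (E m)} (hK : IsCompact K)
    (en : ∀ k, IntegrableOn (fun x => ‖u k x‖ ^ 2 + ‖A k x‖ ^ 2) K) (k : Fin Q) :
    IntegrableOn (A k) K := by
  have h0 : IntegrableOn (fun _ : E m => (1:ℝ)) K := integrableOn_const hK.measure_lt_top.ne
  refine (h0.add (en k)).mono' (mA k).aestronglyMeasurable ?_
  filter_upwards with x
  simp only [Pi.add_apply]
  nlinarith [sq_nonneg (‖A k x‖ - 1), sq_nonneg ‖u k x‖]

/-- the hypothesis of Weyl's lemma -/
lemma St.weyl_hyp (h : St Ω u A) {R' ε : ℝ} {a : E m} (hR' : closedBall a R' ⊆ Ω) (e : E n)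
    (x : E m) (r : ℝ) (hr : 0 < r) (hrε : r ≤ ε) (hx : closedBall x ε ⊆ closedBall a R') :
    ∫ y in closedBall x ε, (m * p (sc x r y) ^ 3 - 6 * sc x r y * p (sc x r y) ^ 2) *
      ⟪e, ∑ k, u k y⟫ = 0 := by
  have hb : closedBall x r ⊆ closedBall x ε := closedBall_subset_closedBall hrε
  have hxΩ : closedBall x ε ⊆ Ω := hx.trans hR'
  have hK := isCompact_closedBall x ε
  have h1 := h.lin (isCompact_closedBall x r) (hb.trans hxΩ) (rv_contDiff wt3 x r)
    (fun y hy => rv_zero wt3 hr hy) e
  have hβ : ContDiff ℝ 1 fun y => rf (fun s => p s ^ 4) x r y • e :=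
    (rf_contDiff wt4 x r).smul contDiff_const
  have h2 := h.outl (isCompact_closedBall x r) (hb.trans hxΩ) hβ
    (fun y hy => by rw [rf_zero wt4 hr hy, zero_smul])
  have e2 : ∀ y, ∑ k, hs (A k y) (fderiv ℝ (fun y => rf (fun s => p s ^ 4) x r y • e) y) =
      -(8 / r ^ 2) * ∑ k, ⟪e, A k y (rv (fun s => p s ^ 3) x r y)⟫ := by
    intro y
    have h3 : HasFDerivAt (fun y => rf (fun s => p s ^ 4) x r y • e)
        (((-4 * p (sc x r y) ^ 3 * (2 / r ^ 2)) • innerSL ℝ (y - x)).smulRight e) y :=
      (hasFDerivAt_rf wt4 x r y).smul_const e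
    rw [h3.fderiv, Finset.mul_sum]
    apply Finset.sum_congr rfl
    intro k _
    unfold hs rv
    rw [map_smul, inner_smul_right, apply_eq_sum (A k y) (y - x), inner_sum, Finset.mul_sum,
      Finset.mul_sum]
    apply Finset.sum_congr rfl
    intro i _
    have h4 : ⟪y - x, (eb i : E m)⟫ = (y - x) i := by
      rw [real_inner_comm, inner_eb]
    rw [ContinuousLinearMap.smulRight_apply, smul_apply, innerSL_apply_apply, h4,
      inner_smul_right, inner_smul_right, smul_eq_mul, real_inner_comm e]
    ring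
  simp only [e2] at h2
  rw [integral_const_mul] at h2
  have h3 : ∫ y, ∑ k, ⟪e, A k y (rv (fun s => p s ^ 3) x r y)⟫ = 0 := by
    rcases mul_eq_zero.1 h2 with h | h
    · exfalso
      have : 8 / r ^ 2 > 0 := by positivity
      linarith
    · exact h
  have e1 : ∀ y, (∑ k, (dv (fderiv ℝ (rv (fun s => p s ^ 3) x r) y) * ⟪e, u k y⟫ +
      ⟪e, A k y (rv (fun s => p s ^ 3) x r y)⟫)) =
      (m * p (sc x r y) ^ 3 - 6 * sc x r y * p (sc x r y) ^ 2) * ⟪e, ∑ k, u k y⟫ +
        ∑ k, ⟪e, A k y (rv (fun s => p s ^ 3) x r y)⟫ := by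
    intro y
    rw [dv_rv wt3, Finset.sum_add_distrib, ← Finset.mul_sum, inner_sum]
    ring
  simp only [e1] at h1
  have z1 : ∫ y in closedBall x ε, ((m * p (sc x r y) ^ 3 - 6 * sc x r y * p (sc x r y) ^ 2) *
      ⟪e, ∑ k, u k y⟫ + ∑ k, ⟪e, A k y (rv (fun s => p s ^ 3) x r y)⟫) = 0 := by
    rw [← h1]
    apply setIntegral_eq_integral_of_forall_compl_eq_zero
    intro y hy
    have hy' : y ∉ closedBall x r := fun hc => hy (hb hc)
    rw [p_zero (sc_ge hr hy'), rv_zero wt3 hr hy']
    simp
  have z3 : ∫ y in closedBall x ε, ∑ k, ⟪e, A k y (rv (fun s => p s ^ 3) x r y)⟫ = 0 := by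
    rw [← h3]
    apply setIntegral_eq_integral_of_forall_compl_eq_zero
    intro y hy
    have hy' : y ∉ closedBall x r := fun hc => hy (hb hc)
    rw [rv_zero wt3 hr hy']
    simp
  have i1 : IntegrableOn (fun y => (m * p (sc x r y) ^ 3 - 6 * sc x r y * p (sc x r y) ^ 2) *
      ⟪e, ∑ k, u k y⟫) (closedBall x ε) := by
    apply wint
    · exact (continuous_const.mul ((wp x r).pow 3)).sub
        ((continuous_const.mul (sc_cont x r)).mul ((wp x r).pow 2))
    · simp only [inner_sum]
      apply integrable_finsetSum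
      intro k _
      exact (int_u h.mu hK (h.en _ hxΩ hK) k).const_inner e
  have i2 : IntegrableOn (fun y => ∑ k, ⟪e, A k y (rv (fun s => p s ^ 3) x r y)⟫)
      (closedBall x ε) := by
    apply integrable_finsetSum
    intro k _
    apply Integrable.const_inner
    have hc : Continuous fun y => ‖rv (fun s => p s ^ 3) x r y‖ :=
      (rv_contDiff wt3 x r).continuous.norm
    have h6 : IntegrableOn (fun y => ‖A k y‖) (closedBall x ε) :=
      (int_A h.mA hK (h.en _ hxΩ hK) k).norm
    have h5 : IntegrableOn (fun y => ‖rv (fun s => p s ^ 3) x r y‖ * ‖A k y‖) (closedBall x ε) :=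
      h6.continuousOn_mul hc.continuousOn hK
    refine h5.mono' ?_ ?_
    · apply Measurable.aestronglyMeasurable
      exact isBoundedBilinearMap_apply.continuous.measurable.comp
        ((h.mA k).prodMk (rv_contDiff wt3 x r).continuous.measurable)
    · filter_upwards with y
      rw [mul_comm]
      exact (A k y).le_opNorm _
  rw [integral_add i1 i2, z3, add_zero] at z1
  exact z1

/-- the sum of the sheets is given by a function of class `C^2` -/
lemma St.smooth (h : St Ω u A) {a : E m} {R' ε : ℝ} (hε : 0 < ε) (hR' : closedBall a R' ⊆ Ω) :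
    ∃ H : E m → E n, ContDiff ℝ 2 H ∧
      ∀ᵐ x ∂(volume : Measure (E m)), closedBall x ε ⊆ closedBall a R' → H x = ∑ k, u k x := by
  have hK := isCompact_closedBall a R'
  set U : E m → E n := fun y => ∑ k, u k y with hU
  have hUi : IntegrableOn U (closedBall a R') := by
    apply integrable_finsetSum
    intro k _
    exact int_u h.mu hK (h.en _ hR' hK) k
  set F : E m → E n := (closedBall a R').indicator U with hF
  have hFi : Integrable F := (integrable_indicator_iff measurableSet_closedBall).2 hUi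
  set κ : E m → ℝ := fun z => p (‖z‖ ^ 2 / ε ^ 2) ^ 3 with hκ
  have hκc : ContDiff ℝ 2 κ := p3_contDiff.comp (((contDiff_norm_sq ℝ).div_const _))
  have hκ0 : HasCompactSupport κ := by
    apply HasCompactSupport.intro (isCompact_closedBall (0 : E m) ε)
    intro z hz
    have h1 : ε < ‖z‖ := by simpa using hz
    have h2 : 1 ≤ ‖z‖ ^ 2 / ε ^ 2 := by
      rw [le_div_iff₀ (by positivity)]
      nlinarith
    show p _ ^ 3 = 0
    rw [p_zero h2]
    norm_num
  set L : E n →L[ℝ] ℝ →L[ℝ] E n := (ContinuousLinearMap.lsmul ℝ ℝ).flip with hL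
  have hconv : ContDiff ℝ 2 (F ⋆[L, volume] κ) :=
    hκ0.contDiff_convolution_right (n := 2) L hFi.locallyIntegrable hκc
  have hval : ∀ x, (F ⋆[L, volume] κ) x = ∫ t, κ (x - t) • F t := by
    intro x
    rw [convolution_def]
    rfl
  refine ⟨fun x => (ε ^ m * c3 m)⁻¹ • (F ⋆[L, volume] κ) x, hconv.const_smul _, ?_⟩
  have hae : ∀ᵐ x ∂(volume : Measure (E m)), ∀ j : Fin n, closedBall x ε ⊆ closedBall a R' →
      ∫ y in closedBall x ε, p (sc x ε y) ^ 3 * ⟪(eb j : E n), U y⟫ =
        ε ^ m * c3 m * ⟪(eb j : E n), U x⟫ := by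
    rw [ae_all_iff]
    intro j
    exact weyl_scalar hε (hUi.const_inner (eb j)) (fun x r hr hrε hx =>
      h.weyl_hyp hR' (eb j) x r hr hrε hx)
  filter_upwards [hae] with x hx hxε
  have hpos : 0 < ε ^ m * c3 m := mul_pos (by positivity) (c3_pos m)
  rw [inv_smul_eq_iff₀ hpos.ne', hval]
  have hint : Integrable (fun t => κ (x - t) • F t) := by
    have hcont : Continuous fun t => κ (x - t) := hκc.continuous.comp (by fun_prop)
    obtain ⟨C, hC⟩ := hκc.continuous.bounded_above_of_compact_support hκ0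
    exact hFi.bdd_smul C hcont.aestronglyMeasurable (ae_of_all _ fun t => hC _)
  ext j
  have h1 : (∫ t, κ (x - t) • F t) j = ∫ t, ⟪(eb j : E n), κ (x - t) • F t⟫ := by
    rw [← inner_eb, ← integral_inner hint]
  rw [h1]
  have h2 : ∫ t, ⟪(eb j : E n), κ (x - t) • F t⟫ =
      ∫ y in closedBall x ε, p (sc x ε y) ^ 3 * ⟪(eb j : E n), U y⟫ := by
    have h3 : ∫ t in closedBall x ε, ⟪(eb j : E n), κ (x - t) • F t⟫ =
        ∫ t, ⟪(eb j : E n), κ (x - t) • F t⟫ := by
      apply setIntegral_eq_integral_of_forall_compl_eq_zero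
      intro y hy
      have h3 : κ (x - y) = 0 := by
        show p (‖x - y‖ ^ 2 / ε ^ 2) ^ 3 = 0
        rw [norm_sub_rev]
        have h4 := p_zero (sc_ge hε hy)
        unfold sc at h4
        rw [h4]
        norm_num
      rw [h3, zero_smul, inner_zero_right]
    rw [← h3]
    apply setIntegral_congr_fun measurableSet_closedBall
    intro y hy
    show ⟪(eb j : E n), κ (x - y) • F y⟫ = p (sc x ε y) ^ 3 * ⟪(eb j : E n), U y⟫
    rw [inner_smul_right, hF, indicator_of_mem (hxε hy), hκ]
    simp only [sc]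
    rw [norm_sub_rev]
  rw [h2, hx j hxε, inner_eb]
  rfl

/-- the derivative of the sum of the sheets -/
lemma St.smooth_deriv (h : St Ω u A) {G : Set (E m)} (hG : IsOpen G) (hGΩ : G ⊆ Ω)
    {H : E m → E n} (hH : ContDiff ℝ 2 H)
    (hHu : ∀ᵐ x ∂(volume : Measure (E m)), x ∈ G → H x = ∑ k, u k x) :
    ∀ᵐ x ∂(volume : Measure (E m)), x ∈ G → fderiv ℝ H x = ∑ k, A k x := by
  have hH1 : ContDiff ℝ 1 H := hH.of_le (by norm_num)
  have hHd : Continuous (fderiv ℝ H) := hH1.continuous_fderiv one_ne_zero
  have key : ∀ (j : Fin n) (i : Fin m), ∀ᵐ x ∂(volume : Measure (E m)), x ∈ G →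
      ⟪(eb j : E n), (∑ k, A k x) (eb i)⟫ - ⟪(eb j : E n), fderiv ℝ H x (eb i)⟫ = 0 := by
    intro j i
    have iS : ∀ K ⊆ Ω, IsCompact K →
        IntegrableOn (fun x => ⟪(eb j : E n), (∑ k, A k x) (eb i)⟫) K := by
      intro K hKΩ hK
      have e0 : (fun x => ⟪(eb j : E n), (∑ k, A k x) (eb i)⟫) =
          fun x => ∑ k, ⟪(eb j : E n), A k x (eb i)⟫ := by
        funext x
        rw [sum_apply, inner_sum]
      rw [e0]
      apply integrable_finsetSum
      intro k _
      have h2 : IntegrableOn (fun x => ‖A k x‖) K := (int_A h.mA hK (h.en K hKΩ hK) k).norm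
      have h3 : Measurable fun x => ⟪(eb j : E n), A k x (eb i)⟫ :=
        measurable_const.inner (h.mA' k i)
      refine Integrable.mono' h2 h3.aestronglyMeasurable ?_
      filter_upwards with x
      rw [Real.norm_eq_abs]
      have h4 := abs_real_inner_le_norm (eb j : E n) (A k x (eb i))
      rw [eb_norm, one_mul] at h4
      exact h4.trans (AA_le k x i)
    have cD : Continuous fun x => ⟪(eb j : E n), fderiv ℝ H x (eb i)⟫ :=
      continuous_const.inner (hHd.clm_apply continuous_const)
    apply hG.ae_eq_zero_of_integral_contDiff_smul_eq_zero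
    · rw [locallyIntegrableOn_iff hG.isLocallyClosed]
      intro K hKG hK
      exact (iS K (hKG.trans hGΩ) hK).sub (cD.continuousOn.integrableOn_compact hK)
    · intro g hg hgc hgG
      have hK : IsCompact (tsupport g) := hgc
      have hKΩ : tsupport g ⊆ Ω := hgG.trans hGΩ
      have hg1 : ContDiff ℝ 1 g := hg.of_le (by exact_mod_cast le_top)
      have hg0 : ∀ x ∉ tsupport g, g x = 0 := fun x hx => image_eq_zero_of_notMem_tsupport hx
      have hθ : ContDiff ℝ 1 fun x => g x • (eb i : E m) := hg1.smul contDiff_const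
      have h1 := h.lin hK hKΩ hθ (fun x hx => by rw [hg0 x hx, zero_smul]) (eb j)
      have e1 : ∀ x, (∑ k, (dv (fderiv ℝ (fun x => g x • (eb i : E m)) x) * ⟪(eb j : E n), u k x⟫ +
          ⟪(eb j : E n), A k x (g x • (eb i : E m))⟫)) =
          fderiv ℝ g x (eb i) * ⟪(eb j : E n), ∑ k, u k x⟫ +
            g x * ⟪(eb j : E n), (∑ k, A k x) (eb i)⟫ := by
        intro x
        have h3 : fderiv ℝ (fun x => g x • (eb i : E m)) x = (fderiv ℝ g x).smulRight (eb i) :=
          ((hg1.differentiable one_ne_zero x).hasFDerivAt.smul_const (eb i : E m)).fderiv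
        have h4 : dv (fderiv ℝ (fun x => g x • (eb i : E m)) x) = fderiv ℝ g x (eb i) := by
          rw [h3]
          unfold dv
          rw [Finset.sum_eq_single i]
          · simp
          · intro b _ hb
            simp [hb]
          · simp
        rw [h4, Finset.sum_add_distrib, ← Finset.mul_sum, inner_sum, sum_apply,
          inner_sum]
        congr 1
        rw [Finset.mul_sum]
        apply Finset.sum_congr rfl
        intro k _
        rw [map_smul, inner_smul_right]
      simp only [e1] at h1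
      have hf : ContDiff ℝ 1 fun x => g x * ⟪(eb j : E n), H x⟫ :=
        hg1.mul (contDiff_const.inner ℝ hH1)
      have h2 := int_fderiv hK hf (fun x hx => by rw [hg0 x hx, zero_mul]) (eb i)
      have e2 : ∀ x, fderiv ℝ (fun x => g x * ⟪(eb j : E n), H x⟫) x (eb i) =
          fderiv ℝ g x (eb i) * ⟪(eb j : E n), H x⟫ + g x * ⟪(eb j : E n), fderiv ℝ H x (eb i)⟫ := by
        intro x
        have h3 : HasFDerivAt (fun x => ⟪(eb j : E n), H x⟫)
            ((innerSL ℝ (eb j : E n)).comp (fderiv ℝ H x)) x :=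
          (innerSL ℝ (eb j : E n)).hasFDerivAt.comp x
            (hH1.differentiable one_ne_zero x).hasFDerivAt
        have h4 := ((hg1.differentiable one_ne_zero x).hasFDerivAt.mul h3).fderiv
        have h5 : fderiv ℝ (fun x => g x * ⟪(eb j : E n), H x⟫) x = _ := h4
        rw [h5]
        simp [mul_comm, add_comm]
      simp only [e2] at h2
      have hgd : Continuous fun x => fderiv ℝ g x (eb i) :=
        (hg1.continuous_fderiv one_ne_zero).clm_apply continuous_const
      have hgd0 : ∀ x ∉ tsupport g, fderiv ℝ g x (eb i) = 0 := by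
        intro x hx
        rw [fderiv_zero_off hK hg0 hx]
        rfl
      have e3 : ∫ x, (fderiv ℝ g x (eb i) * ⟪(eb j : E n), ∑ k, u k x⟫ +
            g x * ⟪(eb j : E n), (∑ k, A k x) (eb i)⟫) =
          ∫ x, (fderiv ℝ g x (eb i) * ⟪(eb j : E n), H x⟫ +
            g x * ⟪(eb j : E n), (∑ k, A k x) (eb i)⟫) := by
        apply integral_congr_ae
        filter_upwards [hHu] with x hx
        by_cases hxK : x ∈ tsupport g
        · rw [hx (hgG hxK)]
        · rw [hgd0 x hxK, zero_mul, zero_mul]
      rw [e3] at h1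
      have hc0 : HasCompactSupport g := hgc
      have i1 : Integrable fun x => fderiv ℝ g x (eb i) * ⟪(eb j : E n), H x⟫ := by
        apply Continuous.integrable_of_hasCompactSupport
        · exact hgd.mul (continuous_const.inner hH1.continuous)
        · exact HasCompactSupport.intro hK fun x hx => by rw [hgd0 x hx, zero_mul]
      have i2 : Integrable fun x => g x * ⟪(eb j : E n), fderiv ℝ H x (eb i)⟫ := by
        apply Continuous.integrable_of_hasCompactSupport
        · exact hg1.continuous.mul cD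
        · exact HasCompactSupport.intro hK fun x hx => by rw [hg0 x hx, zero_mul]
      have i3 : Integrable fun x => g x * ⟪(eb j : E n), (∑ k, A k x) (eb i)⟫ := by
        have h3 : IntegrableOn (fun x => g x * ⟪(eb j : E n), (∑ k, A k x) (eb i)⟫) (tsupport g) :=
          (iS _ hKΩ hK).continuousOn_mul hg1.continuous.continuousOn hK
        rw [integrableOn_iff_integrable_of_support_subset] at h3
        · exact h3
        · intro x hx
          by_contra hc
          exact hx (by show g x * _ = 0; rw [hg0 x hc, zero_mul])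
      rw [integral_add i1 i3] at h1
      rw [integral_add i1 i2] at h2
      have e4 : ∫ x, g x • (⟪(eb j : E n), (∑ k, A k x) (eb i)⟫ -
          ⟪(eb j : E n), fderiv ℝ H x (eb i)⟫) =
          (∫ x, g x * ⟪(eb j : E n), (∑ k, A k x) (eb i)⟫) -
            ∫ x, g x * ⟪(eb j : E n), fderiv ℝ H x (eb i)⟫ := by
        rw [← integral_sub i3 i2]
        apply integral_congr_ae
        filter_upwards with x
        rw [smul_eq_mul]
        ring
      rw [e4]
      linarith
  have key2 : ∀ᵐ x ∂(volume : Measure (E m)), ∀ (j : Fin n) (i : Fin m), x ∈ G →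
      ⟪(eb j : E n), (∑ k, A k x) (eb i)⟫ - ⟪(eb j : E n), fderiv ℝ H x (eb i)⟫ = 0 := by
    rw [ae_all_iff]
    intro j
    rw [ae_all_iff]
    exact key j
  filter_upwards [key2] with x hx hxG
  ext v j
  rw [apply_eq_sum (fderiv ℝ H x) v, apply_eq_sum (∑ k, A k x) v, ← inner_eb, ← inner_eb,
    inner_sum, inner_sum]
  apply Finset.sum_congr rfl
  intro i _
  rw [inner_smul_right, inner_smul_right]
  have := hx j i hxG
  congr 1
  linarith

end Pool.Agent.Q261.QV
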