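import Mathlib
import Pool.Agent.Q261.QV.Mean

/-!
A harmonic function of class `C^2` is a stationary family with one sheet.
-/

namespace Pool.Agent.Q261.QV

open MeasureTheory Set Filter Topology Metric
open Pool.Agent.TH337.VF (E Wt)
open scoped RealInnerProductSpace ENNReal

variable {m n Q : ℕ} {Ω : Set (E m)} {u : Fin Q → E m → E n} {A : Fin Q → E m → E m →L[ℝ] E n}

/-- the divergence theorem -/
lemma int_dv {K : Set (E m)} (hK : IsCompact K) {θ : E m → E m} (hθ : ContDiff ℝ 1 θ)
    (h0 : ∀ x ∉ K, θ x = 0) : ∫ x, dv (fderiv ℝ θ x) = 0 := by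
  have hc : ∀ i : Fin m, ContDiff ℝ 1 fun x => ⟪(eb i : E m), θ x⟫ :=
    fun i => contDiff_const.inner ℝ hθ
  have hz : ∀ i : Fin m, ∀ x ∉ K, ⟪(eb i : E m), θ x⟫ = 0 :=
    fun i x hx => by rw [h0 x hx, inner_zero_right]
  have e : ∀ x, dv (fderiv ℝ θ x) =
      ∑ i, fderiv ℝ (fun x => ⟪(eb i : E m), θ x⟫) x (eb i) := by
    intro x
    rw [dv_eq]
    apply Finset.sum_congr rfl
    intro i _
    have h3 : HasFDerivAt (fun x => ⟪(eb i : E m), θ x⟫)
        ((innerSL ℝ (eb i : E m)).comp (fderiv ℝ θ x)) x :=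
      (innerSL ℝ (eb i : E m)).hasFDerivAt.comp x (hθ.differentiable one_ne_zero x).hasFDerivAt
    rw [h3.fderiv]
    rfl
  simp only [e]
  rw [integral_finsetSum]
  · apply Finset.sum_eq_zero
    intro i _
    exact int_fderiv hK (hc i) (hz i) (eb i)
  · intro i _
    apply Continuous.integrable_of_hasCompactSupport
    · exact ((hc i).continuous_fderiv one_ne_zero).clm_apply continuous_const
    · apply HasCompactSupport.intro hK
      intro x hx
      rw [fderiv_zero_off hK (hz i) hx]
      rfl

lemma hs_zero_right (L : E m →L[ℝ] E n) : hs L 0 = 0 := by simp [hs]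

/-- the sum of the sheets is harmonic -/
lemma St.smooth_harm (h : St Ω u A) {G : Set (E m)} (hGΩ : G ⊆ Ω) {H : E m → E n}
    (hD : ∀ᵐ x ∂(volume : Measure (E m)), x ∈ G → fderiv ℝ H x = ∑ k, A k x)
    {K : Set (E m)} (hK : IsCompact K) (hKG : K ⊆ G) {β : E m → E n} (hβ : ContDiff ℝ 1 β)
    (h0 : ∀ x ∉ K, β x = 0) : ∫ x, hs (fderiv ℝ H x) (fderiv ℝ β x) = 0 := by
  rw [← h.outl hK (hKG.trans hGΩ) hβ h0]
  apply integral_congr_ae
  filter_upwards [hD] with x hx
  by_cases hxK : x ∈ K
  · rw [hx (hKG hxK)]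
    unfold hs
    rw [Finset.sum_comm]
    apply Finset.sum_congr rfl
    intro i _
    rw [sum_apply, sum_inner]
  · rw [fderiv_zero_off hK h0 hxK]
    simp [hs_zero_right]

lemma cont_hs2 : Continuous fun z : (E m →L[ℝ] E n) × (E m →L[ℝ] E n) => hs z.1 z.2 := by
  unfold hs
  fun_prop

lemma cont_dv : Continuous fun L : E m →L[ℝ] E m => dv L := by
  have e : (fun L : E m →L[ℝ] E m => dv L) = fun L => ∑ i, ⟪(eb i : E m), L (eb i)⟫ := by
    funext L
    exact dv_eq L
  rw [e]
  fun_prop

/-- a harmonic function is a stationary family with one sheet -/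
lemma St_single {G : Set (E m)} {H : E m → E n} (hH : ContDiff ℝ 2 H)
    (hh : ∀ K ⊆ G, IsCompact K → ∀ β : E m → E n, ContDiff ℝ 1 β → (∀ x ∉ K, β x = 0) →
      ∫ x, hs (fderiv ℝ H x) (fderiv ℝ β x) = 0) :
    St G (fun _ : Fin 1 => H) (fun _ => fderiv ℝ H) := by
  have hH1 : ContDiff ℝ 1 H := hH.of_le (by norm_num)
  have hHd : ContDiff ℝ 1 (fderiv ℝ H) := hH.fderiv_right (by norm_num)
  have hHc : Continuous (fderiv ℝ H) := hHd.continuous
  have hHD : ∀ x, HasFDerivAt H (fderiv ℝ H x) x := fun x =>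
    (hH1.differentiable one_ne_zero x).hasFDerivAt
  refine ⟨fun _ => hH1.continuous.measurable, fun _ => hHc.measurable, ?_, ?_, ?_, ?_⟩
  · intro K _ hK k
    exact ((hH1.continuous.norm.pow 2).add (hHc.norm.pow 2)).continuousOn.integrableOn_compact hK
  · intro T hT hTc hTs
    have hK : IsCompact (Prod.fst '' tsupport T) := hTc.isCompact.image continuous_fst
    have hφ : ContDiff ℝ 1 fun x => T (x, H x) := hT.comp (contDiff_id.prodMk hH1)
    have hz : ∀ x ∉ Prod.fst '' tsupport T, T (x, H x) = 0 := by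
      intro x hx
      by_contra hc
      exact hx ⟨(x, H x), subset_tsupport _ hc, rfl⟩
    rw [← int_dv hK hφ hz]
    apply integral_congr_ae
    filter_upwards with x
    have h1 : HasFDerivAt (fun x => T (x, H x))
        ((fderiv ℝ T (x, H x)).comp ((ContinuousLinearMap.id ℝ (E m)).prod (fderiv ℝ H x))) x :=
      ((hT.differentiable one_ne_zero (x, H x)).hasFDerivAt).comp x
        ((hasFDerivAt_id x).prodMk (hHD x))
    rw [dv_eq, h1.fderiv]
    simp
  · intro T hT hTc hTs
    have hK : IsCompact (Prod.fst '' tsupport T) := hTc.isCompact.image continuous_fst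
    have hφ : ContDiff ℝ 1 fun x => T (x, H x) := hT.comp (contDiff_id.prodMk hH1)
    have hz : ∀ x ∉ Prod.fst '' tsupport T, T (x, H x) = 0 := by
      intro x hx
      by_contra hc
      exact hx ⟨(x, H x), subset_tsupport _ hc, rfl⟩
    have hKG : Prod.fst '' tsupport T ⊆ G := by
      rintro _ ⟨z, hz, rfl⟩
      exact (hTs hz).1
    rw [← hh _ hKG hK _ hφ hz]
    apply integral_congr_ae
    filter_upwards with x
    have h1 : HasFDerivAt (fun x => T (x, H x))
        ((fderiv ℝ T (x, H x)).comp ((ContinuousLinearMap.id ℝ (E m)).prod (fderiv ℝ H x))) x :=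
      ((hT.differentiable one_ne_zero (x, H x)).hasFDerivAt).comp x
        ((hasFDerivAt_id x).prodMk (hHD x))
    unfold hs
    rw [h1.fderiv]
    simp
  · intro W hW hWc hWs
    have hK : IsCompact (tsupport W) := hWc
    have hW0 : ∀ x ∉ tsupport W, W x = 0 := fun x hx => image_eq_zero_of_notMem_tsupport hx
    have hWD : ∀ x, HasFDerivAt W (fderiv ℝ W x) x := fun x =>
      (hW.differentiable one_ne_zero x).hasFDerivAt
    have hHD2 : ∀ x, HasFDerivAt (fderiv ℝ H) (fderiv ℝ (fderiv ℝ H) x) x := fun x =>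
      (hHd.differentiable one_ne_zero x).hasFDerivAt
    -- the outer variation
    have hβ : ContDiff ℝ 1 fun x => fderiv ℝ H x (W x) := hHd.clm_apply hW
    have hβ0 : ∀ x ∉ tsupport W, fderiv ℝ H x (W x) = 0 := by
      intro x hx
      rw [hW0 x hx, map_zero]
    have h1 := hh _ hWs hK _ hβ hβ0
    -- the vector field
    set q : E m → ℝ := fun x => hs (fderiv ℝ H x) (fderiv ℝ H x) with hq
    have hqD : ∀ x, HasFDerivAt q (∑ i, (2:ℝ) • (innerSL ℝ (fderiv ℝ H x (eb i))).comp
        ((fderiv ℝ (fderiv ℝ H) x).flip (eb i))) x := by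
      intro x
      have e : q = fun x => ∑ i, ‖fderiv ℝ H x (eb i)‖ ^ 2 := by
        funext x
        show hs _ _ = _
        unfold hs
        exact Finset.sum_congr rfl fun i _ => real_inner_self_eq_norm_sq _
      rw [e]
      apply HasFDerivAt.fun_sum
      intro i _
      have h2 : HasFDerivAt (fun x => fderiv ℝ H x (eb i))
          ((fderiv ℝ (fderiv ℝ H) x).flip (eb i)) x := by
        have h3 := (hHD2 x).clm_apply (hasFDerivAt_const (eb i : E m) x)
        simpa using h3
      have h4 := h2.norm_sq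
      rw [two_smul] at h4
      rw [two_smul]
      exact h4
    have hqc : ContDiff ℝ 1 q := by
      have e : q = fun x => ∑ i, ‖fderiv ℝ H x (eb i)‖ ^ 2 := by
        funext x
        show hs _ _ = _
        unfold hs
        exact Finset.sum_congr rfl fun i _ => real_inner_self_eq_norm_sq _
      rw [e]
      apply ContDiff.sum
      intro i _
      exact (hHd.clm_apply contDiff_const).norm_sq ℝ
    have hθ : ContDiff ℝ 1 fun x => q x • W x := hqc.smul hW
    have hθ0 : ∀ x ∉ tsupport W, q x • W x = 0 := by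
      intro x hx
      rw [hW0 x hx, smul_zero]
    have h2 := int_dv hK hθ hθ0
    have e : ∀ x, (∑ _k : Fin 1, (hs (fderiv ℝ H x) (fderiv ℝ H x) * dv (fderiv ℝ W x) -
        2 * hs (fderiv ℝ H x) (fderiv ℝ H x ∘L fderiv ℝ W x))) =
        dv (fderiv ℝ (fun x => q x • W x) x) -
          2 * hs (fderiv ℝ H x) (fderiv ℝ (fun x => fderiv ℝ H x (W x)) x) := by
      intro x
      have a1 : fderiv ℝ (fun x => fderiv ℝ H x (W x)) x =
          (fderiv ℝ H x).comp (fderiv ℝ W x) + (fderiv ℝ (fderiv ℝ H) x).flip (W x) :=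
        ((hHD2 x).clm_apply (hWD x)).fderiv
      have a2 : fderiv ℝ (fun x => q x • W x) x = _ := ((hqD x).smul (hWD x)).fderiv
      have sym : ∀ v w, fderiv ℝ (fderiv ℝ H) x v w = fderiv ℝ (fderiv ℝ H) x w v :=
        second_derivative_symmetric hHD (hHD2 x)
      rw [a1, a2]
      simp only [Finset.univ_unique, Finset.sum_singleton]
      have a3 : dv (q x • fderiv ℝ W x + (∑ i, (2:ℝ) •
          (innerSL ℝ (fderiv ℝ H x (eb i))).comp
            ((fderiv ℝ (fderiv ℝ H) x).flip (eb i))).smulRight (W x)) =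
          q x * dv (fderiv ℝ W x) +
            2 * ∑ i, ⟪fderiv ℝ H x (eb i), fderiv ℝ (fderiv ℝ H) x (eb i) (W x)⟫ := by
        rw [dv_eq]
        simp only [add_apply, smul_apply, ContinuousLinearMap.smulRight_apply, inner_add_right,
          inner_smul_right]
        rw [Finset.sum_add_distrib, ← Finset.mul_sum, ← dv_eq]
        congr 1
        have a4 : ∑ j, (∑ i, (2:ℝ) • (innerSL ℝ (fderiv ℝ H x (eb i))).comp
            ((fderiv ℝ (fderiv ℝ H) x).flip (eb i))) (eb j) * ⟪(eb j : E m), W x⟫ =
            (∑ i, (2:ℝ) • (innerSL ℝ (fderiv ℝ H x (eb i))).comp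
            ((fderiv ℝ (fderiv ℝ H) x).flip (eb i))) (W x) := by
          rw [apply_eq_sum _ (W x)]
          apply Finset.sum_congr rfl
          intro j _
          rw [inner_eb, smul_eq_mul, mul_comm]
        rw [a4, sum_apply, Finset.mul_sum]
        apply Finset.sum_congr rfl
        intro i _
        rw [smul_apply, ContinuousLinearMap.comp_apply, innerSL_apply_apply,
          ContinuousLinearMap.flip_apply, sym, smul_eq_mul]
      rw [a3]
      have a5 : hs (fderiv ℝ H x) ((fderiv ℝ H x).comp (fderiv ℝ W x) +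
          (fderiv ℝ (fderiv ℝ H) x).flip (W x)) =
          hs (fderiv ℝ H x) (fderiv ℝ H x ∘L fderiv ℝ W x) +
            ∑ i, ⟪fderiv ℝ H x (eb i), fderiv ℝ (fderiv ℝ H) x (eb i) (W x)⟫ := by
        unfold hs
        rw [← Finset.sum_add_distrib]
        apply Finset.sum_congr rfl
        intro i _
        rw [add_apply, inner_add_right, ContinuousLinearMap.flip_apply]
      rw [a5]
      simp only [hq]
      ring
    simp only [e]
    have i1 : Integrable fun x => dv (fderiv ℝ (fun x => q x • W x) x) := by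
      apply Continuous.integrable_of_hasCompactSupport
      · exact cont_dv.comp (hθ.continuous_fderiv one_ne_zero)
      · apply HasCompactSupport.intro hK
        intro x hx
        rw [fderiv_zero_off hK hθ0 hx]
        simp [dv]
    have i2 : Integrable fun x =>
        2 * hs (fderiv ℝ H x) (fderiv ℝ (fun x => fderiv ℝ H x (W x)) x) := by
      apply Continuous.integrable_of_hasCompactSupport
      · exact continuous_const.mul
          (cont_hs2.comp (hHc.prodMk (hβ.continuous_fderiv one_ne_zero)))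
      · apply HasCompactSupport.intro hK
        intro x hx
        rw [fderiv_zero_off hK hβ0 hx, hs_zero_right, mul_zero]
    rw [integral_sub i1 i2, h2, integral_const_mul, h1]
    simp

end Pool.Agent.Q261.QV
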