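import Mathlib
import Pool.Agent.Q261.QV.Single

/-!
The deviation of a stationary family from its mean satisfies the radial identities.
-/

namespace Pool.Agent.Q261.QV

open MeasureTheory Set Filter Topology Metric
open Pool.Agent.TH337.VF (E Wt)
open scoped RealInnerProductSpace ENNReal

variable {m n Q : ℕ} {Ω : Set (E m)} {u : Fin Q → E m → E n} {A : Fin Q → E m → E m →L[ℝ] E n}

/-- deviation from the mean -/
noncomputable def dev {V : Type*} [NormedAddCommGroup V] [NormedSpace ℝ V] (w : Fin Q → V)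
    (k : Fin Q) : V := w k - (Q:ℝ)⁻¹ • ∑ j, w j

lemma QQ (Q : ℕ) : (Q:ℝ) * ((Q:ℝ)⁻¹ * (Q:ℝ)⁻¹) = (Q:ℝ)⁻¹ := by
  rcases Nat.eq_zero_or_pos Q with h | h
  · simp [h]
  · have : (Q:ℝ) ≠ 0 := by positivity
    field_simp

lemma sum_dev_inner {V : Type*} [NormedAddCommGroup V] [InnerProductSpace ℝ V]
    (w z : Fin Q → V) :
    ∑ k, ⟪dev w k, dev z k⟫ = ∑ k, ⟪w k, z k⟫ - (Q:ℝ)⁻¹ * ⟪∑ k, w k, ∑ k, z k⟫ := by
  have e : ∀ k, ⟪dev w k, dev z k⟫ = ⟪w k, z k⟫ - (Q:ℝ)⁻¹ * ⟪w k, ∑ k, z k⟫ -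
      (Q:ℝ)⁻¹ * ⟪∑ k, w k, z k⟫ + (Q:ℝ)⁻¹ * (Q:ℝ)⁻¹ * ⟪∑ k, w k, ∑ k, z k⟫ := by
    intro k
    unfold dev
    rw [inner_sub_left, inner_sub_right, inner_sub_right, real_inner_smul_left,
      real_inner_smul_right, real_inner_smul_left, real_inner_smul_right]
    ring
  simp only [e]
  rw [Finset.sum_add_distrib, Finset.sum_sub_distrib, Finset.sum_sub_distrib, ← Finset.mul_sum,
    ← Finset.mul_sum, ← sum_inner, ← inner_sum]
  simp only [Finset.sum_const, Finset.card_univ, Fintype.card_fin, nsmul_eq_mul]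
  have h := QQ Q
  linear_combination ⟪∑ k, w k, ∑ k, z k⟫ * h

lemma sum_dev_sq {V : Type*} [NormedAddCommGroup V] [InnerProductSpace ℝ V]
    (w : Fin Q → V) :
    ∑ k, ‖dev w k‖ ^ 2 = ∑ k, ‖w k‖ ^ 2 - (Q:ℝ)⁻¹ * ‖∑ k, w k‖ ^ 2 := by
  have h := sum_dev_inner w w
  simpa only [real_inner_self_eq_norm_sq] using h

lemma dev_sq_le {V : Type*} [NormedAddCommGroup V] [NormedSpace ℝ V] (w : Fin Q → V)
    (k : Fin Q) : ‖dev w k‖ ^ 2 ≤ 4 * Q * ∑ j, ‖w j‖ ^ 2 := by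
  have hQ : (Q:ℝ)⁻¹ ≤ 1 := Nat.cast_inv_le_one Q
  have hQ0 : 0 ≤ (Q:ℝ)⁻¹ := by positivity
  have h1 : ‖dev w k‖ ≤ 2 * ∑ j, ‖w j‖ := by
    unfold dev
    have h2 : ‖w k‖ ≤ ∑ j, ‖w j‖ :=
      Finset.single_le_sum (f := fun j => ‖w j‖) (fun i _ => norm_nonneg _) (Finset.mem_univ k)
    have h3 : ‖(Q:ℝ)⁻¹ • ∑ j, w j‖ ≤ ∑ j, ‖w j‖ := by
      rw [norm_smul, Real.norm_of_nonneg hQ0]
      have h4 := norm_sum_le Finset.univ w
      have h5 : 0 ≤ ∑ j, ‖w j‖ := Finset.sum_nonneg fun i _ => norm_nonneg _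
      calc (Q:ℝ)⁻¹ * ‖∑ j, w j‖ ≤ 1 * ∑ j, ‖w j‖ := mul_le_mul hQ h4 (norm_nonneg _) zero_le_one
        _ = _ := one_mul _
    have := norm_sub_le (w k) ((Q:ℝ)⁻¹ • ∑ j, w j)
    linarith
  have h6 : (∑ j, ‖w j‖) ^ 2 ≤ Q * ∑ j, ‖w j‖ ^ 2 := by
    have h7 := sq_sum_le_card_mul_sum_sq (s := Finset.univ) (f := fun j => ‖w j‖)
    simpa using h7
  calc ‖dev w k‖ ^ 2 ≤ (2 * ∑ j, ‖w j‖) ^ 2 := pow_le_pow_left₀ (norm_nonneg _) h1 2
    _ = 4 * (∑ j, ‖w j‖) ^ 2 := by ring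
    _ ≤ 4 * (Q * ∑ j, ‖w j‖ ^ 2) := by linarith
    _ = _ := by ring

lemma dev_apply (L : Fin Q → E m →L[ℝ] E n) (k : Fin Q) (v : E m) :
    dev L k v = dev (fun j => L j v) k := by
  unfold dev
  rw [sub_apply, smul_apply, sum_apply]

lemma dg_eq (x : E m) : ∑ k, ‖dev (fun j => u j x) k‖ ^ 2 =
    ∑ k, ‖u k x‖ ^ 2 - (Q:ℝ)⁻¹ * ‖∑ k, u k x‖ ^ 2 := sum_dev_sq _

lemma db_eq (x : E m) :
    ∑ k, hs (dev (fun j => A j x) k) (dev (fun j => A j x) k) =
      ∑ k, hs (A k x) (A k x) - (Q:ℝ)⁻¹ * hs (∑ k, A k x) (∑ k, A k x) := by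
  unfold hs
  rw [Finset.sum_comm]
  simp only [dev_apply]
  simp only [sum_dev_inner]
  rw [Finset.sum_sub_distrib, Finset.sum_comm, Finset.mul_sum]
  simp only [sum_apply]

lemma dt_eq (a x : E m) :
    ∑ k, ⟪dev (fun j => u j x) k, dev (fun j => A j x) k (x - a)⟫ =
      ∑ k, ⟪u k x, A k x (x - a)⟫ - (Q:ℝ)⁻¹ * ⟪∑ k, u k x, (∑ k, A k x) (x - a)⟫ := by
  simp only [dev_apply]
  rw [sum_dev_inner, sum_apply]

lemma dγ_eq (a x : E m) :
    ∑ k, ‖dev (fun j => A j x) k (x - a)‖ ^ 2 =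
      ∑ k, ‖A k x (x - a)‖ ^ 2 - (Q:ℝ)⁻¹ * ‖(∑ k, A k x) (x - a)‖ ^ 2 := by
  simp only [dev_apply]
  rw [sum_dev_sq, sum_apply]

lemma measurable_dev {V : Type*} [NormedAddCommGroup V] [NormedSpace ℝ V] [MeasurableSpace V]
    [BorelSpace V] [SecondCountableTopology V] {w : Fin Q → E m → V} (hw : ∀ k, Measurable (w k))
    (k : Fin Q) : Measurable fun x => dev (fun j => w j x) k := by
  unfold dev
  exact (hw k).sub ((Finset.measurable_sum _ fun j _ => hw j).const_smul _)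

/-- the mean sheet -/
lemma St.mean (h : St Ω u A) (hΩ : IsOpen Ω) {a : E m} {R : ℝ} (hR0 : 0 ≤ R)
    (hR : closedBall a R ⊆ Ω) :
    ∃ (G : Set (E m)) (H : E m → E n), closedBall a R ⊆ G ∧
      St G (fun _ : Fin 1 => H) (fun _ => fderiv ℝ H) ∧
      ∀ᵐ x ∂(volume.restrict (closedBall a R)),
        H x = ∑ k, u k x ∧ fderiv ℝ H x = ∑ k, A k x := by
  obtain ⟨δ, hδ, hδΩ⟩ := (isCompact_closedBall a R).exists_cthickening_subset_open hΩ hR
  have hR' : closedBall a (R + δ) ⊆ Ω := by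
    have : closedBall a (R + δ) ⊆ cthickening δ (closedBall a R) := by
      rw [cthickening_closedBall hδ.le hR0, add_comm]
    exact this.trans hδΩ
  obtain ⟨H, hH, hHu⟩ := h.smooth (ε := δ / 2) (by linarith) hR'
  set G : Set (E m) := ball a (R + δ / 2) with hG
  have hGΩ : G ⊆ Ω := (ball_subset_closedBall.trans
    (closedBall_subset_closedBall (by linarith))).trans hR'
  have hRG : closedBall a R ⊆ G := closedBall_subset_ball (by linarith)
  have hHu' : ∀ᵐ x ∂(volume : Measure (E m)), x ∈ G → H x = ∑ k, u k x := by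
    filter_upwards [hHu] with x hx hxG
    apply hx
    apply closedBall_subset_closedBall'
    have : dist x a < R + δ / 2 := hxG
    linarith
  have hD := h.smooth_deriv isOpen_ball hGΩ hH hHu'
  refine ⟨G, H, hRG, St_single hH ?_, ?_⟩
  · intro K hKG hK β hβ h0
    exact h.smooth_harm hGΩ hD hK hKG hβ h0
  · rw [ae_restrict_iff' measurableSet_closedBall]
    filter_upwards [hHu', hD] with x h1 h2 hx
    exact ⟨h1 (hRG hx), h2 (hRG hx)⟩

/-- integrability of the deviation -/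
lemma dev_en {K : Set (E m)} (mu : ∀ k, Measurable (u k)) (mA : ∀ k, Measurable (A k))
    (en : ∀ k, IntegrableOn (fun x => ‖u k x‖ ^ 2 + ‖A k x‖ ^ 2) K) (k : Fin Q) :
    IntegrableOn (fun x => ‖dev (fun j => u j x) k‖ ^ 2 + ‖dev (fun j => A j x) k‖ ^ 2) K := by
  have h1 : IntegrableOn (fun x => 4 * (Q:ℝ) * ∑ j, (‖u j x‖ ^ 2 + ‖A j x‖ ^ 2)) K := by
    apply Integrable.const_mul
    apply integrable_finsetSum
    intro j _
    exact en j
  refine h1.mono' ?_ ?_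
  · apply Measurable.aestronglyMeasurable
    exact ((measurable_dev mu k).norm.pow_const 2).add ((measurable_dev mA k).norm.pow_const 2)
  · filter_upwards with x
    rw [Real.norm_of_nonneg (by positivity), Finset.sum_add_distrib, mul_add]
    exact add_le_add (dev_sq_le _ _) (dev_sq_le _ _)

/-- the radial identities of the deviation -/
theorem St.rad (h : St Ω u A) (hΩ : IsOpen Ω) :
    Rad Ω (fun x => ∑ k, ‖dev (fun j => u j x) k‖ ^ 2)
      (fun x => ∑ k, hs (dev (fun j => A j x) k) (dev (fun j => A j x) k))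
      (fun a x => ∑ k, ⟪dev (fun j => u j x) k, dev (fun j => A j x) k (x - a)⟫)
      (fun a x => ∑ k, ‖dev (fun j => A j x) k (x - a)‖ ^ 2) where
  g0 := fun x => Finset.sum_nonneg fun k _ => by positivity
  b0 := fun x => Finset.sum_nonneg fun k _ => hs_self_nonneg _
  γ0 := fun a x => Finset.sum_nonneg fun k _ => by positivity
  cs := by
    intro a x
    have h1 : |∑ k, ⟪dev (fun j => u j x) k, dev (fun j => A j x) k (x - a)⟫| ≤
        ∑ k, ‖dev (fun j => u j x) k‖ * ‖dev (fun j => A j x) k (x - a)‖ :=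
      (Finset.abs_sum_le_sum_abs _ _).trans
        (Finset.sum_le_sum fun k _ => abs_real_inner_le_norm _ _)
    have h2 := Finset.sum_mul_sq_le_sq_mul_sq Finset.univ
      (fun k => ‖dev (fun j => u j x) k‖) (fun k => ‖dev (fun j => A j x) k (x - a)‖)
    rw [← sq_abs]
    exact (pow_le_pow_left₀ (abs_nonneg _) h1 2).trans h2
  gi := fun K hKΩ hK => int_gg (measurable_dev h.mu)
    (fun k => dev_en h.mu h.mA (h.en K hKΩ hK) k)
  bi := fun K hKΩ hK => int_bb (measurable_dev h.mA)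
    (fun k => dev_en h.mu h.mA (h.en K hKΩ hK) k)
  γi := fun a K hKΩ hK => int_γγ (measurable_dev h.mA) hK
    (fun k => dev_en h.mu h.mA (h.en K hKΩ hK) k) a
  ti := fun a K hKΩ hK => int_tt (measurable_dev h.mu) (measurable_dev h.mA) hK
    (fun k => dev_en h.mu h.mA (h.en K hKΩ hK) k) a
  R1 := by
    intro a r R hr hrR hR
    obtain ⟨G, H, hRG, S, hae⟩ := h.mean hΩ (hr.le.trans hrR) hR
    have hK := isCompact_closedBall a R
    have r1 := h.R1 hr hrR hR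
    have r2 := S.R1 hr hrR hRG
    have w1 : Continuous fun x => m * p (sc a r x) ^ 2 - 4 * sc a r x * p (sc a r x) :=
      (continuous_const.mul ((wp a r).pow 2)).sub
        ((continuous_const.mul (sc_cont a r)).mul (wp a r))
    have i1 : IntegrableOn (fun x => (m * p (sc a r x) ^ 2 - 4 * sc a r x * p (sc a r x)) *
        (∑ k, ‖u k x‖ ^ 2) + 2 * (p (sc a r x) ^ 2 * ∑ k, ⟪u k x, A k x (x - a)⟫))
        (closedBall a R) :=
      (wint w1 (int_gg h.mu (h.en _ hR hK))).add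
        ((wint ((wp a r).pow 2) (int_tt h.mu h.mA hK (h.en _ hR hK) a)).const_mul 2)
    have i2 : IntegrableOn (fun x => (m * p (sc a r x) ^ 2 - 4 * sc a r x * p (sc a r x)) *
        (∑ _k : Fin 1, ‖H x‖ ^ 2) +
          2 * (p (sc a r x) ^ 2 * ∑ _k : Fin 1, ⟪H x, fderiv ℝ H x (x - a)⟫))
        (closedBall a R) :=
      (wint w1 (int_gg S.mu (S.en _ hRG hK))).add
        ((wint ((wp a r).pow 2) (int_tt S.mu S.mA hK (S.en _ hRG hK) a)).const_mul 2)
    have e : ∫ x in closedBall a R, ((m * p (sc a r x) ^ 2 - 4 * sc a r x * p (sc a r x)) *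
        (∑ k, ‖dev (fun j => u j x) k‖ ^ 2) +
        2 * (p (sc a r x) ^ 2 *
          ∑ k, ⟪dev (fun j => u j x) k, dev (fun j => A j x) k (x - a)⟫)) =
        (∫ x in closedBall a R, ((m * p (sc a r x) ^ 2 - 4 * sc a r x * p (sc a r x)) *
        (∑ k, ‖u k x‖ ^ 2) + 2 * (p (sc a r x) ^ 2 * ∑ k, ⟪u k x, A k x (x - a)⟫))) -
        (Q:ℝ)⁻¹ * ∫ x in closedBall a R,
          ((m * p (sc a r x) ^ 2 - 4 * sc a r x * p (sc a r x)) * (∑ _k : Fin 1, ‖H x‖ ^ 2) +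
          2 * (p (sc a r x) ^ 2 * ∑ _k : Fin 1, ⟪H x, fderiv ℝ H x (x - a)⟫)) := by
      rw [← integral_const_mul, ← integral_sub i1 (i2.const_mul _)]
      apply integral_congr_ae
      filter_upwards [hae] with x hx
      simp only [Finset.univ_unique, Finset.sum_singleton]
      rw [dg_eq, dt_eq, hx.1, hx.2]
      ring
    rw [e, r1, r2]
    ring
  R2 := by
    intro a r R hr hrR hR
    obtain ⟨G, H, hRG, S, hae⟩ := h.mean hΩ (hr.le.trans hrR) hR
    have hK := isCompact_closedBall a R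
    have r1 := h.R2 hr hrR hR
    have r2 := S.R2 hr hrR hRG
    have i1 : IntegrableOn (fun x => p (sc a r x) ^ 3 * ∑ k, hs (A k x) (A k x))
        (closedBall a R) := wint ((wp a r).pow 3) (int_bb h.mA (h.en _ hR hK))
    have i2 : IntegrableOn (fun x => p (sc a r x) ^ 3 * ∑ _k : Fin 1, hs (fderiv ℝ H x)
        (fderiv ℝ H x)) (closedBall a R) := wint ((wp a r).pow 3) (int_bb S.mA (S.en _ hRG hK))
    have i3 : IntegrableOn (fun x => p (sc a r x) ^ 2 * ∑ k, ⟪u k x, A k x (x - a)⟫)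
        (closedBall a R) := wint ((wp a r).pow 2) (int_tt h.mu h.mA hK (h.en _ hR hK) a)
    have i4 : IntegrableOn (fun x => p (sc a r x) ^ 2 *
        ∑ _k : Fin 1, ⟪H x, fderiv ℝ H x (x - a)⟫) (closedBall a R) :=
      wint ((wp a r).pow 2) (int_tt S.mu S.mA hK (S.en _ hRG hK) a)
    have e1 : ∫ x in closedBall a R, p (sc a r x) ^ 3 *
        ∑ k, hs (dev (fun j => A j x) k) (dev (fun j => A j x) k) =
        (∫ x in closedBall a R, p (sc a r x) ^ 3 * ∑ k, hs (A k x) (A k x)) -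
        (Q:ℝ)⁻¹ * ∫ x in closedBall a R, p (sc a r x) ^ 3 * ∑ _k : Fin 1, hs (fderiv ℝ H x)
        (fderiv ℝ H x) := by
      rw [← integral_const_mul, ← integral_sub i1 (i2.const_mul _)]
      apply integral_congr_ae
      filter_upwards [hae] with x hx
      simp only [Finset.univ_unique, Finset.sum_singleton]
      rw [db_eq, hx.2]
      ring
    have e2 : ∫ x in closedBall a R, p (sc a r x) ^ 2 *
        ∑ k, ⟪dev (fun j => u j x) k, dev (fun j => A j x) k (x - a)⟫ =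
        (∫ x in closedBall a R, p (sc a r x) ^ 2 * ∑ k, ⟪u k x, A k x (x - a)⟫) -
        (Q:ℝ)⁻¹ * ∫ x in closedBall a R, p (sc a r x) ^ 2 *
          ∑ _k : Fin 1, ⟪H x, fderiv ℝ H x (x - a)⟫ := by
      rw [← integral_const_mul, ← integral_sub i3 (i4.const_mul _)]
      apply integral_congr_ae
      filter_upwards [hae] with x hx
      simp only [Finset.univ_unique, Finset.sum_singleton]
      rw [dt_eq, hx.1, hx.2]
      ring
    rw [e1, e2]
    linear_combination r1 - (Q:ℝ)⁻¹ * r2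
  R3 := by
    intro a r R hr hrR hR
    obtain ⟨G, H, hRG, S, hae⟩ := h.mean hΩ (hr.le.trans hrR) hR
    have hK := isCompact_closedBall a R
    have r1 := h.R3 hr hrR hR
    have r2 := S.R3 hr hrR hRG
    have w1 : Continuous fun x => ((m:ℝ) - 2) * p (sc a r x) ^ 3 -
        6 * sc a r x * p (sc a r x) ^ 2 :=
      (continuous_const.mul ((wp a r).pow 3)).sub
        ((continuous_const.mul (sc_cont a r)).mul ((wp a r).pow 2))
    have i1 : IntegrableOn (fun x => (((m:ℝ) - 2) * p (sc a r x) ^ 3 -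
        6 * sc a r x * p (sc a r x) ^ 2) * (∑ k, hs (A k x) (A k x)) +
        12 / r ^ 2 * (p (sc a r x) ^ 2 * ∑ k, ‖A k x (x - a)‖ ^ 2)) (closedBall a R) :=
      (wint w1 (int_bb h.mA (h.en _ hR hK))).add
        ((wint ((wp a r).pow 2) (int_γγ h.mA hK (h.en _ hR hK) a)).const_mul _)
    have i2 : IntegrableOn (fun x => (((m:ℝ) - 2) * p (sc a r x) ^ 3 -
        6 * sc a r x * p (sc a r x) ^ 2) * (∑ _k : Fin 1, hs (fderiv ℝ H x) (fderiv ℝ H x)) +
        12 / r ^ 2 * (p (sc a r x) ^ 2 * ∑ _k : Fin 1, ‖fderiv ℝ H x (x - a)‖ ^ 2))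
        (closedBall a R) :=
      (wint w1 (int_bb S.mA (S.en _ hRG hK))).add
        ((wint ((wp a r).pow 2) (int_γγ S.mA hK (S.en _ hRG hK) a)).const_mul _)
    have e : ∫ x in closedBall a R, ((((m:ℝ) - 2) * p (sc a r x) ^ 3 -
        6 * sc a r x * p (sc a r x) ^ 2) *
          (∑ k, hs (dev (fun j => A j x) k) (dev (fun j => A j x) k)) +
        12 / r ^ 2 * (p (sc a r x) ^ 2 * ∑ k, ‖dev (fun j => A j x) k (x - a)‖ ^ 2)) =
        (∫ x in closedBall a R, ((((m:ℝ) - 2) * p (sc a r x) ^ 3 -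
        6 * sc a r x * p (sc a r x) ^ 2) * (∑ k, hs (A k x) (A k x)) +
        12 / r ^ 2 * (p (sc a r x) ^ 2 * ∑ k, ‖A k x (x - a)‖ ^ 2))) -
        (Q:ℝ)⁻¹ * ∫ x in closedBall a R, ((((m:ℝ) - 2) * p (sc a r x) ^ 3 -
        6 * sc a r x * p (sc a r x) ^ 2) * (∑ _k : Fin 1, hs (fderiv ℝ H x) (fderiv ℝ H x)) +
        12 / r ^ 2 * (p (sc a r x) ^ 2 * ∑ _k : Fin 1, ‖fderiv ℝ H x (x - a)‖ ^ 2)) := by
      rw [← integral_const_mul, ← integral_sub i1 (i2.const_mul _)]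
      apply integral_congr_ae
      filter_upwards [hae] with x hx
      simp only [Finset.univ_unique, Finset.sum_singleton]
      rw [db_eq, dγ_eq, hx.2]
      ring
    rw [e, r1, r2]
    ring

end Pool.Agent.Q261.QV
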