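import Mathlib
import Pool.Agent.Q261.QV.Diff

/-!
Unique continuation for stationary families of sheets.
-/

namespace Pool.Agent.Q261.QV

open MeasureTheory Set Filter Topology Metric
open Pool.Agent.TH337.VF (E Wt)
open scoped RealInnerProductSpace ENNReal

variable {m n Q : ℕ} {Ω : Set (E m)} {u : Fin Q → E m → E n} {A : Fin Q → E m → E m →L[ℝ] E n}

/-- finite order of vanishing -/
lemma Rad.order {g b : E m → ℝ} {t γ : E m → E m → ℝ} (h : Rad Ω g b t γ) (hΩ : IsOpen Ω)
    {a : E m} (ha : a ∈ Ω)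
    (hd : ∀ N : ℕ, ∃ᶠ r in 𝓝[>] (0:ℝ), ∫ x in closedBall a r, g x ≤ r ^ N) :
    ∃ ρ : ℝ, 0 < ρ ∧ ∀ᵐ x ∂(volume.restrict (ball a ρ)), g x = 0 := by
  obtain ⟨R, hR0, hR⟩ := Metric.nhds_basis_closedBall.mem_iff.1 (hΩ.mem_nhds ha)
  refine ⟨R, hR0, ?_⟩
  have hF := h.freq hR
  apply h.zero_of_JJ hR0 hR
  by_contra hne
  have hpos : 0 < JJ g a R R := lt_of_le_of_ne (hF.J0 R hR0 le_rfl) (Ne.symm hne)
  obtain ⟨K, hK⟩ := exists_nat_ge ((m:ℝ) +
    R ^ 2 * Pool.Agent.TH337.VF.I (fun s => p s ^ 3) (den b a R) a R / JJ g a R R / 3)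
  have hgrow : ∀ r, 0 < r → r ≤ R → JJ g a R R / R ^ K * r ^ K ≤ JJ g a R r := by
    intro r hr hrR
    have h1 := hF.growth hr hrR le_rfl
      (fun x hx => hF.pos hR0 le_rfl hpos x (hr.trans_le hx.1) hx.2) hK
    have h2 : JJ g a R R / R ^ K ≤ JJ g a R r / r ^ K := h1
    rwa [le_div_iff₀ (by positivity)] at h2
  set c := JJ g a R R / R ^ K with hc
  have hc0 : 0 < c := by positivity
  obtain ⟨r, hr1, hr2⟩ := ((hd (K + 1)).and_eventually
    (Ioo_mem_nhdsGT (show (0:ℝ) < min R c from lt_min hR0 hc0))).exists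
  have hr0 : 0 < r := hr2.1
  have hrR : r ≤ R := (hr2.2.trans_le (min_le_left _ _)).le
  have hrc : r < c := hr2.2.trans_le (min_le_right _ _)
  have h3 := h.JJ_le hR hr0 hrR
  have h4 := hgrow r hr0 hrR
  have h5 : c * r ^ K ≤ r * r ^ K := by
    calc c * r ^ K ≤ JJ g a R r := h4
      _ ≤ ∫ x in closedBall a r, g x := h3
      _ ≤ r ^ (K + 1) := hr1
      _ = r * r ^ K := by ring
  have h6 : 0 < r ^ K := by positivity
  nlinarith

/-- unique continuation in a connected open set, from a point of infinite order -/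
theorem Rad.main_order {g b : E m → ℝ} {t γ : E m → E m → ℝ} (h : Rad Ω g b t γ)
    (hΩ : IsOpen Ω) (hc : IsPreconnected Ω) {a : E m} (ha : a ∈ Ω)
    (hd : ∀ N : ℕ, ∃ᶠ r in 𝓝[>] (0:ℝ), ∫ x in closedBall a r, g x ≤ r ^ N) :
    ∀ᵐ x ∂(volume.restrict Ω), g x = 0 := by
  obtain ⟨ρ, hρ, hz⟩ := h.order hΩ ha hd
  apply h.main hΩ hc ha
  intro ε hε
  apply Eventually.frequently
  filter_upwards [Ioo_mem_nhdsGT hρ] with r hr
  have h1 : volume (closedBall a r ∩ {x | g x ≠ 0}) = 0 := by
    rw [ae_restrict_iff' measurableSet_ball, ae_iff] at hz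
    rw [← nonpos_iff_eq_zero, ← hz]
    apply measure_mono
    rintro x ⟨hx1, hx2⟩ hx3
    exact hx2 (hx3 (closedBall_subset_ball hr.2 hx1))
  rw [h1]
  exact zero_le

/-- a weakly harmonic function of class `C^2` is harmonic -/
lemma harm_ptwise {G : Set (E m)} (hG : IsOpen G) {H : E m → E n} (hH : ContDiff ℝ 2 H)
    (hh : ∀ K ⊆ G, IsCompact K → ∀ β : E m → E n, ContDiff ℝ 1 β → (∀ x ∉ K, β x = 0) →
      ∫ x, hs (fderiv ℝ H x) (fderiv ℝ β x) = 0) :
    ∀ x ∈ G, ∑ i, fderiv ℝ (fderiv ℝ H) x (eb i) (eb i) = 0 := by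
  have hHd : ContDiff ℝ 1 (fderiv ℝ H) := hH.fderiv_right (by norm_num)
  have hHD2 : ∀ x, HasFDerivAt (fderiv ℝ H) (fderiv ℝ (fderiv ℝ H) x) x := fun x =>
    (hHd.differentiable one_ne_zero x).hasFDerivAt
  have hHc2 : Continuous (fderiv ℝ (fderiv ℝ H)) := hHd.continuous_fderiv one_ne_zero
  have cL : Continuous fun x => ∑ i, fderiv ℝ (fderiv ℝ H) x (eb i) (eb i) := by
    apply continuous_finsetSum
    intro i _
    exact (hHc2.clm_apply continuous_const).clm_apply continuous_const
  have key : ∀ j : Fin n, ∀ᵐ x ∂(volume : Measure (E m)), x ∈ G →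
      ⟪(eb j : E n), ∑ i, fderiv ℝ (fderiv ℝ H) x (eb i) (eb i)⟫ = 0 := by
    intro j
    apply hG.ae_eq_zero_of_integral_contDiff_smul_eq_zero
    · exact (continuous_const.inner cL).locallyIntegrable.locallyIntegrableOn _
    · intro g hg hgc hgG
      have hK : IsCompact (tsupport g) := hgc
      have hg1 : ContDiff ℝ 1 g := hg.of_le (by exact_mod_cast le_top)
      have hg0 : ∀ x ∉ tsupport g, g x = 0 := fun x hx => image_eq_zero_of_notMem_tsupport hx
      have hβ : ContDiff ℝ 1 fun x => g x • (eb j : E n) := hg1.smul contDiff_const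
      have h1 := hh _ hgG hK _ hβ (fun x hx => by rw [hg0 x hx, zero_smul])
      have e1 : ∀ x, hs (fderiv ℝ H x) (fderiv ℝ (fun x => g x • (eb j : E n)) x) =
          ∑ i, fderiv ℝ g x (eb i) * ⟪(eb j : E n), fderiv ℝ H x (eb i)⟫ := by
        intro x
        have h3 : fderiv ℝ (fun x => g x • (eb j : E n)) x = (fderiv ℝ g x).smulRight (eb j) :=
          ((hg1.differentiable one_ne_zero x).hasFDerivAt.smul_const (eb j : E n)).fderiv
        rw [h3]
        unfold hs
        apply Finset.sum_congr rfl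
        intro i _
        rw [ContinuousLinearMap.smulRight_apply, inner_smul_right, real_inner_comm]
      simp only [e1] at h1
      have hf : ∀ i : Fin m, ContDiff ℝ 1 fun x => g x * ⟪(eb j : E n), fderiv ℝ H x (eb i)⟫ :=
        fun i => hg1.mul (contDiff_const.inner ℝ (hHd.clm_apply contDiff_const))
      have hz : ∀ i : Fin m, ∀ x ∉ tsupport g,
          g x * ⟪(eb j : E n), fderiv ℝ H x (eb i)⟫ = 0 := fun i x hx => by
        rw [hg0 x hx, zero_mul]
      have e2 : ∀ (i : Fin m) x,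
          fderiv ℝ (fun x => g x * ⟪(eb j : E n), fderiv ℝ H x (eb i)⟫) x (eb i) =
          fderiv ℝ g x (eb i) * ⟪(eb j : E n), fderiv ℝ H x (eb i)⟫ +
            g x * ⟪(eb j : E n), fderiv ℝ (fderiv ℝ H) x (eb i) (eb i)⟫ := by
        intro i x
        have h2 : HasFDerivAt (fun x => fderiv ℝ H x (eb i))
            ((fderiv ℝ (fderiv ℝ H) x).flip (eb i)) x := by
          have h3 := (hHD2 x).clm_apply (hasFDerivAt_const (eb i : E m) x)
          simpa using h3
        have h3 : HasFDerivAt (fun x => ⟪(eb j : E n), fderiv ℝ H x (eb i)⟫)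
            ((innerSL ℝ (eb j : E n)).comp ((fderiv ℝ (fderiv ℝ H) x).flip (eb i))) x :=
          (innerSL ℝ (eb j : E n)).hasFDerivAt.comp x h2
        have h4 := ((hg1.differentiable one_ne_zero x).hasFDerivAt.mul h3).fderiv
        have h5 : fderiv ℝ (fun x => g x * ⟪(eb j : E n), fderiv ℝ H x (eb i)⟫) x = _ := h4
        rw [h5]
        simp [mul_comm, add_comm]
      have i0 : ∀ i : Fin m, Integrable fun x =>
          fderiv ℝ (fun x => g x * ⟪(eb j : E n), fderiv ℝ H x (eb i)⟫) x (eb i) := by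
        intro i
        apply Continuous.integrable_of_hasCompactSupport
        · exact ((hf i).continuous_fderiv one_ne_zero).clm_apply continuous_const
        · apply HasCompactSupport.intro hK
          intro x hx
          rw [fderiv_zero_off hK (hz i) hx]
          rfl
      have h2 : ∫ x, ∑ i, fderiv ℝ (fun x => g x * ⟪(eb j : E n), fderiv ℝ H x (eb i)⟫) x
          (eb i) = 0 := by
        rw [integral_finsetSum _ fun i _ => i0 i]
        exact Finset.sum_eq_zero fun i _ => int_fderiv hK (hf i) (hz i) (eb i)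
      simp only [e2] at h2
      have e3 : ∀ x, ∑ i, (fderiv ℝ g x (eb i) * ⟪(eb j : E n), fderiv ℝ H x (eb i)⟫ +
            g x * ⟪(eb j : E n), fderiv ℝ (fderiv ℝ H) x (eb i) (eb i)⟫) =
          ∑ i, fderiv ℝ g x (eb i) * ⟪(eb j : E n), fderiv ℝ H x (eb i)⟫ +
            g x * ⟪(eb j : E n), ∑ i, fderiv ℝ (fderiv ℝ H) x (eb i) (eb i)⟫ := by
        intro x
        rw [Finset.sum_add_distrib, inner_sum, Finset.mul_sum]
      simp only [e3] at h2
      have i1 : Integrable fun x =>
          ∑ i, fderiv ℝ g x (eb i) * ⟪(eb j : E n), fderiv ℝ H x (eb i)⟫ := by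
        apply Continuous.integrable_of_hasCompactSupport
        · apply continuous_finsetSum
          intro i _
          exact ((hg1.continuous_fderiv one_ne_zero).clm_apply continuous_const).mul
            (continuous_const.inner (hHd.continuous.clm_apply continuous_const))
        · apply HasCompactSupport.intro hK
          intro x hx
          rw [fderiv_zero_off hK hg0 hx]
          simp
      have i2 : Integrable fun x =>
          g x * ⟪(eb j : E n), ∑ i, fderiv ℝ (fderiv ℝ H) x (eb i) (eb i)⟫ := by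
        apply Continuous.integrable_of_hasCompactSupport
        · exact hg1.continuous.mul (continuous_const.inner cL)
        · apply HasCompactSupport.intro hK
          intro x hx
          rw [hg0 x hx, zero_mul]
      rw [integral_add i1 i2, h1, zero_add] at h2
      simpa only [smul_eq_mul] using h2
  have key2 : ∀ᵐ x ∂(volume : Measure (E m)), ∀ j : Fin n, x ∈ G →
      ⟪(eb j : E n), ∑ i, fderiv ℝ (fderiv ℝ H) x (eb i) (eb i)⟫ = 0 := ae_all_iff.2 key
  have key3 : (fun x => ∑ i, fderiv ℝ (fderiv ℝ H) x (eb i) (eb i)) =ᵐ[volume.restrict G]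
      fun _ => (0 : E n) := by
    rw [Filter.EventuallyEq, ae_restrict_iff' hG.measurableSet]
    filter_upwards [key2] with x hx hxG
    ext j
    rw [← inner_eb, hx j hxG]
    rfl
  intro x hx
  exact Measure.eqOn_open_of_ae_eq key3 hG cL.continuousOn continuousOn_const hx

end Pool.Agent.Q261.QV
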