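import Mathlib
import Pool.Agent.Q261.QV.Unique

/-!
The dichotomy for stationary families of sheets.
-/

namespace Pool.Agent.Q261.QV

open MeasureTheory Set Filter Topology Metric
open Pool.Agent.TH337.VF (E Wt)
open scoped RealInnerProductSpace ENNReal

variable {m n Q : ℕ} {Ω : Set (E m)} {u : Fin Q → E m → E n} {A : Fin Q → E m → E m →L[ℝ] E n}

/-- the sum of the sheets is locally given by a harmonic function -/
lemma St.mean_harm (h : St Ω u A) (hΩ : IsOpen Ω) {a : E m} (ha : a ∈ Ω) :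
    ∃ (ρ : ℝ) (H : E m → E n), 0 < ρ ∧ ContDiff ℝ 2 H ∧
      (∀ x ∈ ball a ρ, ∑ i, fderiv ℝ (fderiv ℝ H) x (eb i) (eb i) = 0) ∧
      ∀ᵐ x ∂(volume.restrict (ball a ρ)), H x = ∑ k, u k x := by
  obtain ⟨R, hR0, hR⟩ := Metric.nhds_basis_closedBall.mem_iff.1 (hΩ.mem_nhds ha)
  obtain ⟨H, hH, hHu⟩ := h.smooth (ε := R / 2) (by linarith) hR
  have hGΩ : ball a (R / 2) ⊆ Ω := (ball_subset_closedBall.trans
    (closedBall_subset_closedBall (by linarith))).trans hR
  have hHu' : ∀ᵐ x ∂(volume : Measure (E m)), x ∈ ball a (R / 2) → H x = ∑ k, u k x := by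
    filter_upwards [hHu] with x hx hxG
    apply hx
    apply closedBall_subset_closedBall'
    have : dist x a < R / 2 := hxG
    linarith
  have hD := h.smooth_deriv isOpen_ball hGΩ hH hHu'
  refine ⟨R / 2, H, by linarith, hH, ?_, ?_⟩
  · exact harm_ptwise isOpen_ball hH fun K hKG hK β hβ h0 => h.smooth_harm hGΩ hD hK hKG hβ h0
  · rw [ae_restrict_iff' measurableSet_ball]
    exact hHu'

/-- deviations vanish if and only if all sheets coincide -/
lemma dev_zero_iff {V : Type*} [NormedAddCommGroup V] [NormedSpace ℝ V] (w : Fin Q → V) :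
    ∑ k, ‖dev w k‖ ^ 2 = 0 ↔ ∀ k l, w k = w l := by
  rw [Finset.sum_eq_zero_iff_of_nonneg fun k _ => by positivity]
  constructor
  · intro h k l
    have h1 : ∀ k, w k = (Q:ℝ)⁻¹ • ∑ j, w j := by
      intro k
      have h2 := h k (Finset.mem_univ k)
      rw [pow_eq_zero_iff two_ne_zero, norm_eq_zero] at h2
      exact sub_eq_zero.1 h2
    rw [h1 k, h1 l]
  · intro h k _
    have h1 : ∑ j, w j = (Q:ℝ) • w k := by
      rw [Finset.sum_congr rfl fun j _ => h j k]
      simp [← Nat.cast_smul_eq_nsmul ℝ]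
    have hQ : (Q:ℝ) ≠ 0 := by
      have : 0 < Q := k.pos
      positivity
    unfold dev
    rw [h1, smul_smul, inv_mul_cancel₀ hQ, one_smul, sub_self]
    simp

lemma sum_sum_sq {V : Type*} [NormedAddCommGroup V] [InnerProductSpace ℝ V] (w : Fin Q → V) :
    ∑ k, ∑ l, ‖w k - w l‖ ^ 2 = 2 * Q * ∑ k, ‖dev w k‖ ^ 2 := by
  rw [sum_dev_sq]
  have e : ∀ k l, ‖w k - w l‖ ^ 2 = ‖w k‖ ^ 2 - 2 * ⟪w k, w l⟫ + ‖w l‖ ^ 2 :=
    fun k l => norm_sub_sq_real _ _
  simp only [e]
  have e1 : ∀ k, ∑ l, (‖w k‖ ^ 2 - 2 * ⟪w k, w l⟫ + ‖w l‖ ^ 2) =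
      Q * ‖w k‖ ^ 2 - 2 * ⟪w k, ∑ l, w l⟫ + ∑ l, ‖w l‖ ^ 2 := by
    intro k
    rw [Finset.sum_add_distrib, Finset.sum_sub_distrib, ← Finset.mul_sum, ← inner_sum]
    simp
  simp only [e1]
  rw [Finset.sum_add_distrib, Finset.sum_sub_distrib, ← Finset.mul_sum, ← Finset.mul_sum,
    ← sum_inner, real_inner_self_eq_norm_sq]
  simp only [Finset.sum_const, Finset.card_univ, Fintype.card_fin, nsmul_eq_mul]
  rcases Nat.eq_zero_or_pos Q with h0 | h0
  · subst h0
    simp
  · have : (Q:ℝ) ≠ 0 := by positivity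
    field_simp
    ring

/-- the dichotomy -/
theorem St.dichotomy (h : St Ω u A) (hΩ : IsOpen Ω) (hc : IsPreconnected Ω) :
    (∀ a ∈ Ω, ∃ (ρ : ℝ) (H : E m → E n), 0 < ρ ∧ ContDiff ℝ 2 H ∧
      (∀ x ∈ ball a ρ, ∑ i, fderiv ℝ (fderiv ℝ H) x (eb i) (eb i) = 0) ∧
      ∀ᵐ x ∂(volume.restrict (ball a ρ)), ∀ k, u k x = H x) ∨
    (volume (Ω ∩ {x | ∀ k l, u k x = u l x}) = 0 ∧ ∀ a ∈ Ω,
      (∃ ε : ℝ, 0 < ε ∧ ∀ᶠ r in 𝓝[>] (0:ℝ),
        ENNReal.ofReal (ε * r ^ m) ≤ volume (closedBall a r ∩ {x | ∃ k l, u k x ≠ u l x})) ∧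
      ∃ N : ℕ, ∀ᶠ r in 𝓝[>] (0:ℝ),
        r ^ N ≤ ∫ x in closedBall a r, ∑ k, ∑ l, ‖u k x - u l x‖ ^ 2) := by
  have hR := h.rad hΩ
  by_cases hz : ∀ᵐ x ∂(volume.restrict Ω), ∑ k, ‖dev (fun j => u j x) k‖ ^ 2 = 0
  · left
    intro a ha
    obtain ⟨ρ, H, hρ, hH, hHh, hHu⟩ := h.mean_harm hΩ ha
    obtain ⟨ρ', hρ', hρΩ⟩ := Metric.isOpen_iff.1 hΩ a ha
    refine ⟨min ρ ρ', fun x => (Q:ℝ)⁻¹ • H x, lt_min hρ hρ', hH.const_smul _, ?_, ?_⟩
    · intro x hx
      have h1 := hHh x (ball_subset_ball (min_le_left _ _) hx)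
      have hH1 : Differentiable ℝ H := hH.differentiable two_ne_zero
      have hHd : ContDiff ℝ 1 (fderiv ℝ H) := hH.fderiv_right (by norm_num)
      have e1 : fderiv ℝ (fun x => (Q:ℝ)⁻¹ • H x) = fun x => (Q:ℝ)⁻¹ • fderiv ℝ H x := by
        funext y
        exact ((hH1 y).hasFDerivAt.const_smul ((Q:ℝ)⁻¹)).fderiv
      have e2 : fderiv ℝ (fun x => (Q:ℝ)⁻¹ • fderiv ℝ H x) x =
          (Q:ℝ)⁻¹ • fderiv ℝ (fderiv ℝ H) x :=
        ((hHd.differentiable one_ne_zero x).hasFDerivAt.const_smul ((Q:ℝ)⁻¹)).fderiv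
      rw [e1, e2]
      simp only [smul_apply]
      rw [← Finset.smul_sum, h1, smul_zero]
    · have h1 := ae_restrict_of_ae_restrict_of_subset
        ((ball_subset_ball (min_le_right ρ ρ')).trans hρΩ) hz
      have h2 := ae_restrict_of_ae_restrict_of_subset
        (ball_subset_ball (x := a) (min_le_left ρ ρ')) hHu
      filter_upwards [h1, h2] with x hx1 hx2 k
      rw [dev_zero_iff] at hx1
      have h3 : ∑ j, u j x = (Q:ℝ) • u k x := by
        rw [Finset.sum_congr rfl fun j _ => hx1 j k]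
        simp [← Nat.cast_smul_eq_nsmul ℝ]
      have hQ : (Q:ℝ) ≠ 0 := by
        have : 0 < Q := k.pos
        positivity
      rw [hx2, h3, smul_smul, inv_mul_cancel₀ hQ, one_smul]
  · right
    have hsub : {x | ∑ k, ‖dev (fun j => u j x) k‖ ^ 2 ≠ 0} ⊆ {x | ∃ k l, u k x ≠ u l x} := by
      intro x hx
      by_contra hcon
      apply hx
      show ∑ k, ‖dev (fun j => u j x) k‖ ^ 2 = 0
      rw [dev_zero_iff]
      intro k l
      by_contra hkl
      exact hcon ⟨k, l, hkl⟩
    have hdens : ∀ a ∈ Ω, ∃ ε : ℝ, 0 < ε ∧ ∀ᶠ r in 𝓝[>] (0:ℝ),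
        ENNReal.ofReal (ε * r ^ m) ≤ volume (closedBall a r ∩ {x | ∃ k l, u k x ≠ u l x}) := by
      intro a ha
      by_contra hcon
      push Not at hcon
      apply hz
      apply hR.main hΩ hc ha
      intro ε hε
      refine (hcon ε hε).mono ?_
      intro r hr
      exact (measure_mono (inter_subset_inter_right _ hsub)).trans hr.le
    refine ⟨?_, fun a ha => ⟨hdens a ha, ?_⟩⟩
    · set Z : Set (E m) := Ω ∩ {x | ∀ k l, u k x = u l x} with hZ
      by_contra hne
      have hae := IsUnifLocDoublingMeasure.ae_tendsto_measure_inter_div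
        (volume : Measure (E m)) Z 1
      have hmZ : MeasurableSet Z := by
        apply hΩ.measurableSet.inter
        have : {x | ∀ k l, u k x = u l x} = ⋂ k, ⋂ l, {x | u k x = u l x} := by
          ext x
          simp
        rw [this]
        exact MeasurableSet.iInter fun k => MeasurableSet.iInter fun l =>
          measurableSet_eq_fun (h.mu k) (h.mu l)
      have hne' : (volume.restrict Z) ≠ 0 := by
        intro h0
        apply hne
        have := Measure.restrict_apply_self (volume : Measure (E m)) Z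
        rw [h0] at this
        simpa using this.symm
      have : NeZero (volume.restrict Z) := ⟨hne'⟩
      obtain ⟨a, ha1, ha2⟩ := (hae.and (ae_restrict_mem hmZ)).exists
      obtain ⟨ε, hε, hev⟩ := hdens a ha2.1
      have hlim := ha1 (ι := ℝ) (l := 𝓝[>] (0:ℝ)) (fun _ => a) (fun r => r) tendsto_id (by
        filter_upwards [self_mem_nhdsWithin] with r hr
        have : (0:ℝ) < r := hr
        simp [this.le])
      obtain ⟨ρ, hρ, hρΩ⟩ := Metric.nhds_basis_closedBall.mem_iff.1 (hΩ.mem_nhds ha2.1)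
      have hlim' : Tendsto (fun r => (volume (Z ∩ closedBall a r) /
          volume (closedBall a r)).toReal) (𝓝[>] (0:ℝ)) (𝓝 1) := by
        have := (ENNReal.tendsto_toReal ENNReal.one_ne_top).comp hlim
        rw [ENNReal.toReal_one] at this
        exact this
      have hle : ∀ᶠ r in 𝓝[>] (0:ℝ), (volume (Z ∩ closedBall a r) /
          volume (closedBall a r)).toReal ≤ 1 - ε / om m := by
        filter_upwards [hev, Ioc_mem_nhdsGT hρ] with r hr1 hr2
        have hr0 : 0 < r := hr2.1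
        have hball : closedBall a r ⊆ Ω := (closedBall_subset_closedBall hr2.2).trans hρΩ
        have hsub2 : closedBall a r ∩ {x | ∃ k l, u k x ≠ u l x} ⊆
            closedBall a r \ (Z ∩ closedBall a r) := by
          rintro x ⟨hx1, k, l, hkl⟩
          exact ⟨hx1, fun hx2 => hkl (hx2.1.2 k l)⟩
        have h1 := (measure_mono hsub2).trans' hr1
        have hfin : volume (closedBall a r) ≠ ⊤ := measure_closedBall_lt_top.ne
        have hfin2 : volume (Z ∩ closedBall a r) ≠ ⊤ :=
          ((measure_mono inter_subset_right).trans_lt measure_closedBall_lt_top).ne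
        rw [measure_sdiff inter_subset_right
          (hmZ.inter measurableSet_closedBall).nullMeasurableSet hfin2] at h1
        have h2 : ε * r ^ m ≤ (volume (closedBall a r)).toReal -
            (volume (Z ∩ closedBall a r)).toReal := by
          rw [← ENNReal.toReal_sub_of_le (measure_mono inter_subset_right) hfin]
          exact (ENNReal.ofReal_le_iff_le_toReal (ENNReal.sub_ne_top hfin)).1 h1
        have h3 : (volume (closedBall a r)).toReal = r ^ m * om m := vol_ball a hr0.le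
        rw [ENNReal.toReal_div, h3]
        rw [h3] at h2
        have ho := om_pos m
        have hrm : 0 < r ^ m := by positivity
        rw [div_le_iff₀ (by positivity)]
        have h4 : (1 - ε / om m) * (r ^ m * om m) = r ^ m * om m - ε * r ^ m := by
          field_simp
        rw [h4]
        linarith
      have h5 := le_of_tendsto hlim' hle
      have h6 : 0 < ε / om m := div_pos hε (om_pos m)
      linarith
    · by_contra hcon
      push Not at hcon
      apply hz
      apply hR.main_order hΩ hc ha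
      intro N
      obtain ⟨R, hR0, hRΩ⟩ := Metric.nhds_basis_closedBall.mem_iff.1 (hΩ.mem_nhds ha)
      rcases Nat.eq_zero_or_pos Q with hQ | hQ
      · exfalso
        apply hz
        subst hQ
        simp
      · refine (hcon N).mono ?_
        intro r hr
        have hQ1 : (1:ℝ) ≤ 2 * Q := by
          have : (1:ℝ) ≤ Q := by exact_mod_cast hQ
          linarith
        have e : ∫ x in closedBall a r, ∑ k, ∑ l, ‖u k x - u l x‖ ^ 2 =
            2 * Q * ∫ x in closedBall a r, ∑ k, ‖dev (fun j => u j x) k‖ ^ 2 := by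
          rw [← integral_const_mul]
          apply integral_congr_ae
          filter_upwards with x
          exact sum_sum_sq _
        rw [e] at hr
        have h0 : 0 ≤ ∫ x in closedBall a r, ∑ k, ‖dev (fun j => u j x) k‖ ^ 2 :=
          integral_nonneg fun x => Finset.sum_nonneg fun k _ => by positivity
        nlinarith

end Pool.Agent.Q261.QV
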